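import Pool.Agent.R837.FM.Final

/-!
The construction of the charts level by level, and the resolution.
-/

set_option autoImplicit false
set_option linter.unusedSectionVars false

open Finset AlgebraicGeometry CategoryTheory

universe u v w z

namespace Pool.Agent.R837.FM

section levels

variable {F : Type v} [Field F] [Fintype F] {k : Type z} [Field k] {L : Type u} [Field L]
  [Algebra F L] [Algebra k L] {m s n : ℕ} {B : Subalgebra k L} {X : Submodule F (Fin m → L)}

/-- The span of the rows of smaller level. -/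
def Lam (Λ0 : Submodule F (Fin m → L)) (x : Fin n → X) (lv : Fin n → ℕ) (a : ℕ) :
    Submodule F (Fin m → L) :=
  Λ0 ⊔ Submodule.span F ((fun i => (x i : Fin m → L)) '' {i | lv i < a})

/-- The action of `σ` on the rows of level `a`. -/
def Q (Λ0 : Submodule F (Fin m → L)) (x : Fin n → X) (lv : Fin n → ℕ) (e : ℕ → ℕ) (σ : L →+* L)
    (a : ℕ) : Prop :=
  ∃ g : Matrix {i // lv i = a} {i // lv i = a} F, g.det ^ e a = 1 ∧
    ∀ i : {i // lv i = a}, (fun l => σ ((x i : Fin m → L) l)) -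
      ∑ j : {i // lv i = a}, g i j • (x j : Fin m → L) ∈ Lam Λ0 x lv a

variable {Λ0 : Submodule F (Fin m → L)} {x : Fin n → X} {lv : Fin n → ℕ} {e : ℕ → ℕ}

lemma lam_succ (a : ℕ) : Lam Λ0 x lv (a + 1) = Lam Λ0 x lv a ⊔
    Submodule.span F (Set.range fun i : {i // lv i = a} => (x i : Fin m → L)) := by
  unfold Lam
  rw [sup_assoc, ← Submodule.span_union]
  congr 2
  ext y
  constructor
  · rintro ⟨i, hi, rfl⟩
    rcases Nat.lt_succ_iff_lt_or_eq.1 hi with h | h
    · exact Or.inl ⟨i, h, rfl⟩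
    · exact Or.inr ⟨⟨i, h⟩, rfl⟩
  · rintro (⟨i, hi, rfl⟩ | ⟨i, rfl⟩)
    · exact ⟨i, Nat.lt_succ_of_lt hi, rfl⟩
    · exact ⟨i, Nat.lt_succ_of_le i.2.le, rfl⟩

lemma lam_zero : Lam Λ0 x lv 0 = Λ0 := by
  unfold Lam
  have : {i | lv i < 0} = (∅ : Set (Fin n)) := by
    ext i
    simp
  rw [this, Set.image_empty, Submodule.span_empty, sup_bot_eq]

lemma lam_le (hΛ0 : Λ0 ≤ X) (a : ℕ) : Lam Λ0 x lv a ≤ X := by
  refine sup_le hΛ0 (Submodule.span_le.2 ?_)
  rintro _ ⟨i, -, rfl⟩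
  exact (x i).2

lemma card_succ (lv : Fin n → ℕ) (a : ℕ) : Fintype.card {i // lv i < a + 1} =
    Fintype.card {i // lv i < a} + Fintype.card {i // lv i = a} := by
  rw [← Fintype.card_subtype_or_disjoint]
  · apply Fintype.card_congr
    refine Equiv.subtypeEquivRight fun i => ?_
    exact Nat.lt_succ_iff_lt_or_eq
  · rw [Pi.disjoint_iff]
    intro i
    rw [Prop.disjoint_iff]
    rintro ⟨h1, h2⟩
    have h1' : lv i < a := h1
    have h2' : lv i = a := h2
    omega

lemma hind_of {J0 : Type} {z : J0 → X} (hz : Λ0 = Submodule.span F (Set.range fun j =>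
      (z j : Fin m → L)))
    (hx : LinearIndependent F (Sum.elim (fun i => (x i : Fin m → L)) fun j =>
      (z j : Fin m → L))) (a : ℕ)
    (b : {i // lv i = a} → F) (hb : ((∑ i : {i // lv i = a}, b i • x i : X) : Fin m → L) ∈
      Lam Λ0 x lv a) : b = 0 := by
  have h1 := hx.disjoint_span_image (s := Sum.inl '' {i | lv i < a} ∪ Set.range Sum.inr)
    (t := Sum.inl '' {i | lv i = a}) (by
      rw [Set.disjoint_iff]
      rintro _ ⟨⟨i, hi, rfl⟩ | ⟨j, rfl⟩, ⟨i', hi', h⟩⟩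
      · have h1' : lv i < a := hi
        have h2' : lv i' = a := hi'
        have h3' : i' = i := Sum.inl.inj h
        subst h3'
        omega
      · exact Sum.inl_ne_inr h)
  have h2 : ((∑ i : {i // lv i = a}, b i • x i : X) : Fin m → L) ∈
      Submodule.span F ((Sum.elim (fun i => (x i : Fin m → L)) fun j =>
      (z j : Fin m → L)) '' (Sum.inl '' {i | lv i = a})) := by
    rw [Submodule.coe_sum]
    refine Submodule.sum_mem _ fun i _ => ?_
    rw [Submodule.coe_smul]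
    exact Submodule.smul_mem _ _ (Submodule.subset_span ⟨Sum.inl i, ⟨i, i.2, rfl⟩, rfl⟩)
  have h3 : ((∑ i : {i // lv i = a}, b i • x i : X) : Fin m → L) ∈
      Submodule.span F ((Sum.elim (fun i => (x i : Fin m → L)) fun j =>
      (z j : Fin m → L)) '' (Sum.inl '' {i | lv i < a} ∪ Set.range Sum.inr)) := by
    have h4 : Lam Λ0 x lv a ≤ Submodule.span F ((Sum.elim (fun i => (x i : Fin m → L)) fun j =>
        (z j : Fin m → L)) '' (Sum.inl '' {i | lv i < a} ∪ Set.range Sum.inr)) := by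
      refine sup_le ?_ ?_
      · rw [hz]
        refine Submodule.span_mono ?_
        rintro _ ⟨j, rfl⟩
        exact ⟨Sum.inr j, Or.inr ⟨j, rfl⟩, rfl⟩
      · refine Submodule.span_mono ?_
        rintro _ ⟨i, hi, rfl⟩
        exact ⟨Sum.inl i, Or.inl ⟨i, hi, rfl⟩, rfl⟩
    exact h4 hb
  have h5 := Submodule.disjoint_def.1 h1 _ h3 h2
  have h4 : LinearIndependent F fun i : {i // lv i = a} => (x i : Fin m → L) :=
    hx.comp (fun i : {i // lv i = a} => (Sum.inl i.1 : Fin n ⊕ J0)) fun i i' h =>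
      Subtype.ext (Sum.inl.inj h)
  funext i
  refine Fintype.linearIndependent_iff.1 h4 b ?_ i
  rw [← h5, Submodule.coe_sum]
  rfl

/-- The charts up to level `a`. -/
theorem levels {T0 : Type} [Finite T0] {R0 : T0 → Subalgebra k L} {H0 : T0 → L}
    {r0 : T0 → X →ₗ[F] (Fin s → L)} {J0 : Type} [Fintype J0] {z : J0 → X}
    (hz : Λ0 = Submodule.span F (Set.range fun j => (z j : Fin m → L)))
    (S0 : Stage F B X Λ0 (Fintype.card J0) R0 H0 r0) (g0 : ℕ)
    (hg0 : ∀ t, ∃ (P : Type) (_ : Fintype P) (w : P → L), Fintype.card P = g0 ∧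
      R0 t = Algebra.adjoin k (Set.range w))
    (hX0 : ∀ t (σ : L →+* L), (∀ b ∈ R0 t, σ b = b) → ∀ y ∈ X, (fun l => σ (y l)) ∈ X)
    (hx : LinearIndependent F (Sum.elim (fun i => (x i : Fin m → L)) fun j =>
      (z j : Fin m → L)))
    (hxB : ∀ i l, (x i : Fin m → L) l ∈ B)
    (he : ∀ a, e a = Fintype.card F - 1 ∨
      (Fintype.card {i // lv i = a} = 1 ∧ e a ∣ Fintype.card F - 1)) (a : ℕ) :
    ∃ (T : Type) (_ : Finite T) (R : T → Subalgebra k L) (H : T → L)
      (r : T → X →ₗ[F] (Fin s → L)),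
      Stage F B X (Lam Λ0 x lv a) (Fintype.card J0 + Fintype.card {i // lv i < a}) R H r ∧
      (∀ t, ∃ (P : Type) (_ : Fintype P) (w : P → L),
        Fintype.card P = g0 + s * Fintype.card {i // lv i < a} ∧
        R t = Algebra.adjoin k (Set.range w)) ∧
      (∀ t (σ : L →+* L), (∀ b ∈ R t, σ b = b) → (∃ t0, ∀ b ∈ R0 t0, σ b = b) ∧
        ∀ b < a, Q Λ0 x lv e σ b) ∧
      ∀ σ : L →+* L, (∀ t, (∀ b ∈ R0 t, σ b = b) ∧ σ (H0 t) = H0 t) →
        (∀ b < a, Q Λ0 x lv e σ b) → ∀ t, (∀ b ∈ R t, σ b = b) ∧ σ (H t) = H t := by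
  classical
  have hΛ0 : Λ0 ≤ X := by
    rw [hz]
    refine Submodule.span_le.2 ?_
    rintro _ ⟨j, rfl⟩
    exact (z j).2
  induction a with
  | zero =>
    refine ⟨T0, inferInstance, R0, H0, r0, ?_, ?_, ?_, ?_⟩
    · rw [lam_zero]
      have : Fintype.card {i // lv i < 0} = 0 := by
        rw [Fintype.card_eq_zero_iff]
        exact ⟨fun i => absurd i.2 (Nat.not_lt_zero _)⟩
      rw [this, add_zero]
      exact S0
    · intro t
      have : Fintype.card {i // lv i < 0} = 0 := by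
        rw [Fintype.card_eq_zero_iff]
        exact ⟨fun i => absurd i.2 (Nat.not_lt_zero _)⟩
      rw [this, mul_zero, add_zero]
      exact hg0 t
    · exact fun t σ h => ⟨⟨t, h⟩, fun b hb => absurd hb (Nat.not_lt_zero _)⟩
    · exact fun σ h _ => h
  | succ a ih =>
    obtain ⟨T, hT, R, H, r, S, hgen, hconv, hfix⟩ := ih
    have hind := hind_of (lv := lv) hz hx a
    have he0 : 0 < e a := by
      have h1 : 0 < Fintype.card F - 1 := by
        have : 1 < Fintype.card F := Fintype.one_lt_card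
        omega
      rcases he a with h | ⟨-, h⟩
      · rw [h]
        exact h1
      · exact Nat.pos_of_dvd_of_pos h h1
    obtain ⟨M, S'⟩ := S.step (fun i : {i // lv i = a} => x i) (fun i l => hxB i l) hind (e a) he0
    refine ⟨TT r fun i : {i // lv i = a} => x i, inferInstance, fun τ => RR R (e a) τ,
      fun τ => HH H M (e a) τ, fun τ => rr τ, ?_, ?_, ?_, ?_⟩
    · rw [lam_succ, card_succ, ← add_assoc]
      exact S'
    · intro τ
      obtain ⟨P, hP, w, hcard, hw⟩ := hgen τ.1.1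
      have h1 : ∃ (P : Type) (_ : Fintype P) (w : P → L),
          Fintype.card P = s * Fintype.card {i // lv i = a} ∧
          RR R (e a) τ = R τ.1.1 ⊔ Algebra.adjoin k (Set.range w) := by
        rcases he a with h | ⟨h, h'⟩
        · unfold RR
          rw [h]
          exact gen_general τ.2 _
        · exact gen_one τ.2 _ h _ h'
      obtain ⟨P', hP', w', hcard', hw'⟩ := h1
      refine ⟨P ⊕ P', inferInstance, Sum.elim w w', ?_, ?_⟩
      · rw [Fintype.card_sum, hcard, hcard', card_succ]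
        ring
      · change RR R (e a) τ = _
        rw [hw', hw, Set.Sum.elim_range, Algebra.adjoin_union]
    · intro τ σ hσ
      have h1 := hconv τ.1.1 σ fun b hb => hσ b (τ.2.le_alg hb)
      refine ⟨h1.1, fun b hb => ?_⟩
      rcases Nat.lt_succ_iff_lt_or_eq.1 hb with h | h
      · exact h1.2 b h
      · subst h
        obtain ⟨t0, ht0⟩ := h1.1
        exact conv_step S hind σ (hX0 t0 σ ht0) τ hσ
    · intro σ hσ0 hσ τ
      obtain ⟨h1, h2⟩ := hfix σ hσ0 (fun b hb => hσ b (Nat.lt_succ_of_lt hb)) τ.1.1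
      obtain ⟨g, hg1, hg2⟩ := hσ a (Nat.lt_succ_self a)
      have hXσ : ∀ i : {i // lv i = a}, (fun l => σ ((x i : Fin m → L) l)) ∈ X := by
        intro i
        have h3 := lam_le hΛ0 a (hg2 i)
        have h4 : ∑ j : {i // lv i = a}, g i j • (x j : Fin m → L) ∈ X :=
          Submodule.sum_mem _ fun j _ => Submodule.smul_mem _ _ (x j).2
        have h5 := X.add_mem h3 h4
        rwa [sub_add_cancel] at h5
      refine fix_step σ τ h1 g ?_ hg1 he0 h2 M
      intro i l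
      rw [sigma_r S σ τ.1.1 h1 (x i) ⟨_, hXσ i⟩ (fun l => rfl)]
      have h4 : r τ.1.1 ((⟨_, hXσ i⟩ : X) - ∑ j : {i // lv i = a}, g i j • x j) = 0 := by
        rw [S.ker, Submodule.coe_sub, Submodule.coe_sum]
        exact hg2 i
      rw [map_sub, sub_eq_zero] at h4
      rw [h4, map_sum, Finset.sum_apply]
      exact Finset.sum_congr rfl fun j _ => by rw [map_smul]; rfl

end levels

section res

variable {F : Type v} [Field F] [Fintype F] {k : Type u} [Field k] {L : Type u} [Field L]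
  [Algebra F L] [Algebra k L] {m s n : ℕ} {X Λ0 : Submodule F (Fin m → L)}
  {x : Fin n → X} {lv : Fin n → ℕ} {e : ℕ → ℕ}
  {A : Type u} [CommRing A] [IsDomain A] [Algebra k A] {g : A →ₐ[k] L}

/-- The resolution. -/
theorem resolution (hg : Function.Injective g)
    {B : Subalgebra k L} (hB : B = Algebra.adjoin k {a | ∃ i l, a = (x i : Fin m → L) l})
    {T0 : Type} [Finite T0] {R0 : T0 → Subalgebra k L} {H0 : T0 → L}
    {r0 : T0 → X →ₗ[F] (Fin s → L)} {J0 : Type} [Fintype J0] {z : J0 → X}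
    (hz : Λ0 = Submodule.span F (Set.range fun j => (z j : Fin m → L)))
    (S0 : Stage F B X Λ0 (Fintype.card J0) R0 H0 r0) (g0 : ℕ)
    (hg0 : ∀ t, ∃ (P : Type) (_ : Fintype P) (w : P → L), Fintype.card P = g0 ∧
      R0 t = Algebra.adjoin k (Set.range w))
    (hX0 : ∀ t (σ : L →+* L), (∀ b ∈ R0 t, σ b = b) → ∀ y ∈ X, (fun l => σ (y l)) ∈ X)
    (hx : LinearIndependent F (Sum.elim (fun i => (x i : Fin m → L)) fun j =>
      (z j : Fin m → L)))
    (hF : ∀ a : F, ∃ c : k, algebraMap k L c = algebraMap F L a)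
    (hL : IntermediateField.adjoin k {a | ∃ i l, a = (x i : Fin m → L) l} = ⊤)
    (htr : ((g0 + s * n : ℕ) : Cardinal) ≤ Algebra.trdeg k L)
    (he : ∀ a, e a = Fintype.card F - 1 ∨
      (Fintype.card {i // lv i = a} = 1 ∧ e a ∣ Fintype.card F - 1))
    (𝒢 : Set (L →+* L))
    (h𝒢 : ∀ σ ∈ 𝒢, (∀ t, (∀ b ∈ R0 t, σ b = b) ∧ σ (H0 t) = H0 t) ∧ ∀ a, Q Λ0 x lv e σ a)
    (hA1 : ∀ b ∈ B, (∀ σ ∈ 𝒢, σ b = b) → ∃ a, b = g a)
    (hA2 : ∀ σ : L →+* L, (∃ t0, ∀ b ∈ R0 t0, σ b = b) → (∀ a, Q Λ0 x lv e σ a) →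
      ∀ a, g a ∈ B ∧ σ (g a) = g a)
    (hA3 : ∀ V : ValuationSubring L, (∀ a, g a ∈ V) → ∀ b ∈ B, b ∈ V) :
    Pool.Agent.H920R2.HasResolution (X := Spec (CommRingCat.of A))
      (Spec.map (CommRingCat.ofHom (algebraMap k A))) := by
  classical
  have hxB : ∀ i l, (x i : Fin m → L) l ∈ B := by
    intro i l
    rw [hB]
    exact Algebra.subset_adjoin ⟨i, l, rfl⟩
  -- a level above all rows
  obtain ⟨a, ha⟩ : ∃ a, ∀ i, lv i < a := by
    obtain ⟨M, hM⟩ := (Set.finite_range lv).bddAbove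
    exact ⟨M + 1, fun i => Nat.lt_succ_of_le (hM ⟨i, rfl⟩)⟩
  obtain ⟨T, hT, R, H, r, S, hgen, hconv, hfix⟩ := levels (e := e) hz S0 g0 hg0 hX0 hx hxB he a
  have hcard : Fintype.card {i // lv i < a} = n := by
    rw [Fintype.card_congr (Equiv.subtypeUnivEquiv ha), Fintype.card_fin]
  have hQ : ∀ σ : L →+* L, (∀ b < a, Q Λ0 x lv e σ b) → ∀ b, Q Λ0 x lv e σ b := by
    intro σ hσ b
    by_cases hb : b < a
    · exact hσ b hb
    · have : IsEmpty {i // lv i = b} := ⟨fun i => hb (i.2 ▸ ha i)⟩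
      exact ⟨1, by rw [Matrix.det_one, one_pow], fun i => isEmptyElim i⟩
  let x' : Fin n ⊕ J0 → X := Sum.elim x z
  have hr : ∀ t i, r t (x' i) = 0 := by
    rintro t (i | j)
    · rw [S.ker]
      exact Submodule.mem_sup_right (Submodule.subset_span ⟨i, ha i, rfl⟩)
    · rw [S.ker]
      refine Submodule.mem_sup_left ?_
      rw [hz]
      exact Submodule.subset_span ⟨j, rfl⟩
  have hx' : LinearIndependent F fun i => (x' i : Fin m → L) := by
    have h1 : (fun i => (x' i : Fin m → L)) = Sum.elim (fun i => (x i : Fin m → L)) fun j =>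
        (z j : Fin m → L) := by
      funext i
      rcases i with i | j <;> rfl
    rw [h1]
    exact hx
  have hL' : IntermediateField.adjoin k {a | ∃ i l, a = (x' i : Fin m → L) l} = ⊤ := by
    rw [eq_top_iff, ← hL]
    refine IntermediateField.adjoin.mono k _ _ ?_
    rintro _ ⟨i, l, rfl⟩
    exact ⟨Sum.inl i, l, rfl⟩
  have hB' : B ≤ Algebra.adjoin k {a | ∃ i l, a = (x' i : Fin m → L) l} := by
    rw [hB]
    refine Algebra.adjoin_mono ?_
    rintro _ ⟨i, l, rfl⟩
    exact ⟨Sum.inl i, l, rfl⟩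
  have hch : ∀ t, Algebra.Smooth k (R t) ∧ ∀ b ∈ B,
      (∀ σ : L →+* L, (∀ a ∈ R t, σ a = a) → σ b = b) → b ∈ R t := by
    intro t
    obtain ⟨P, hP, w, hcardP, hw⟩ := hgen t
    have h1 := chart_final (F := F) (r := r t) x' (hr t) (by
      obtain ⟨P, hP, base, h1, h2⟩ := S.dim t
      refine ⟨P, hP, base, ?_, h2⟩
      rw [h1, hcard, Fintype.card_sum, Fintype.card_fin, add_comm]) (S.int t) hx' hF hL' w hw (by
        rw [hcardP, hcard]
        exact htr)
    exact ⟨h1.1, fun b hb => h1.2 b (hB' hb)⟩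
  refine hasResolution_glue hg (C := R) (H := H) S.H0 ?_ (fun t => (hch t).1) ?_ S.rt S.gl ?_ ?_
  · intro t
    exact hA1 _ (S.HB t) fun σ hσ => (hfix σ (h𝒢 σ hσ).1 (fun b _ => (h𝒢 σ hσ).2 b) t).2
  · intro t b
    have h1 : ∀ σ : L →+* L, (∀ a ∈ R t, σ a = a) → g b ∈ B ∧ σ (g b) = g b := by
      intro σ hσ
      obtain ⟨h2, h3⟩ := hconv t σ hσ
      exact hA2 σ h2 (hQ σ h3) b
    exact (hch t).2 _ (h1 (RingHom.id L) fun a _ => rfl).1 fun σ hσ => (h1 σ hσ).2
  · intro t b hb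
    obtain ⟨N, hN⟩ := exists_pow_mul (S.HB t) (S.H0 t) (S.dn t hb)
    obtain ⟨a', ha'⟩ := hA1 _ hN fun σ hσ => by
      obtain ⟨h1, h2⟩ := hfix σ (h𝒢 σ hσ).1 (fun b _ => (h𝒢 σ hσ).2 b) t
      rw [map_mul, map_pow, h2, h1 b hb]
    exact ⟨N, a', ha'⟩
  · intro V hV
    exact S.cv V (hA3 V hV)

end res

end Pool.Agent.R837.FM
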