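import Pool.Agent.R837.FM.Aff

/-!
The quotients of affine spaces by parabolic groups over finite fields: the main theorem.
-/

set_option autoImplicit false
set_option linter.unusedSectionVars false

open Finset AlgebraicGeometry CategoryTheory

universe u v w z

namespace Pool.Agent.R837.FM

section poly

variable (F : Type v) [Field F] [Fintype F] (k : Type u) [Field k] [Algebra F k] (n m : ℕ)

/-- The field of rational functions. -/
abbrev LL (k : Type u) [Field k] (n m : ℕ) : Type u :=
  FractionRing (MvPolynomial (Fin n × Fin m) k)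

/-- The rows. -/
noncomputable def xr (i : Fin n) : (⊤ : Submodule F (Fin m → LL k n m)) :=
  ⟨fun l => algebraMap (MvPolynomial (Fin n × Fin m) k) (LL k n m) (MvPolynomial.X (i, l)),
    trivial⟩

/-- The embedding. -/
noncomputable def emb : MvPolynomial (Fin n × Fin m) k →ₐ[k] LL k n m :=
  IsScalarTower.toAlgHom k (MvPolynomial (Fin n × Fin m) k) (LL k n m)

lemma emb_apply (b : MvPolynomial (Fin n × Fin m) k) :
    emb k n m b = algebraMap (MvPolynomial (Fin n × Fin m) k) (LL k n m) b := rfl

lemma emb_injective : Function.Injective (emb k n m) :=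
  IsFractionRing.injective (MvPolynomial (Fin n × Fin m) k) (LL k n m)

lemma emb_range : (emb k n m).range =
    Algebra.adjoin k {a | ∃ i l, a = (xr F k n m i : Fin m → LL k n m) l} := by
  rw [← Algebra.map_top, ← MvPolynomial.adjoin_range_X, AlgHom.map_adjoin]
  congr 1
  ext a
  constructor
  · rintro ⟨_, ⟨⟨i, l⟩, rfl⟩, rfl⟩
    exact ⟨i, l, rfl⟩
  · rintro ⟨i, l, rfl⟩
    exact ⟨_, ⟨(i, l), rfl⟩, rfl⟩

lemma xr_li (l : Fin m) :
    LinearIndependent F fun i => (xr F k n m i : Fin m → LL k n m) l := by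
  rw [Fintype.linearIndependent_iff]
  intro b hb i
  have h1 : emb k n m (∑ i, algebraMap F k (b i) • MvPolynomial.X (i, l)) = 0 := by
    rw [map_sum, ← hb]
    refine Finset.sum_congr rfl fun i _ => ?_
    rw [map_smul, algebraMap_smul]
    rfl
  have h2 := (map_eq_zero_iff _ (emb_injective k n m)).1 h1
  have h3 := congrArg (MvPolynomial.coeff (Finsupp.single (i, l) 1)) h2
  rw [MvPolynomial.coeff_sum, MvPolynomial.coeff_zero, Finset.sum_eq_single i] at h3
  · rw [MvPolynomial.coeff_smul, MvPolynomial.coeff_X, if_pos rfl, smul_eq_mul, mul_one] at h3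
    exact (map_eq_zero_iff _ (algebraMap F k).injective).1 h3
  · intro j _ hj
    rw [MvPolynomial.coeff_smul, MvPolynomial.coeff_X, if_neg, smul_zero]
    intro h
    have h4 := Finsupp.single_left_injective (one_ne_zero) h
    exact hj (Prod.mk.inj h4).1
  · intro h
    exact absurd (Finset.mem_univ i) h

lemma xr_li' (hm : 0 < m) : LinearIndependent F fun i => (xr F k n m i : Fin m → LL k n m) := by
  have h := xr_li F k n m ⟨0, hm⟩
  rw [Fintype.linearIndependent_iff] at h ⊢
  intro b hb
  apply h b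
  have h1 := congrFun hb ⟨0, hm⟩
  rw [Finset.sum_apply] at h1
  exact h1

lemma adjoin_top : IntermediateField.adjoin k
    {a | ∃ i l, a = (xr F k n m i : Fin m → LL k n m) l} = ⊤ := by
  rw [eq_top_iff]
  intro z _
  obtain ⟨a, b, -, rfl⟩ := IsFractionRing.div_surjective (A := MvPolynomial (Fin n × Fin m) k) z
  have h : ∀ c : MvPolynomial (Fin n × Fin m) k, algebraMap (MvPolynomial (Fin n × Fin m) k)
      (LL k n m) c ∈ IntermediateField.adjoin k
        {a | ∃ i l, a = (xr F k n m i : Fin m → LL k n m) l} := by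
    intro c
    apply IntermediateField.algebra_adjoin_le_adjoin
    rw [← emb_range F k n m]
    exact ⟨c, rfl⟩
  exact div_mem (h a) (h b)

lemma le_trdeg : ((0 + m * n : ℕ) : Cardinal) ≤ Algebra.trdeg k (LL k n m) := by
  have h0 : Algebra.IsAlgebraic (MvPolynomial (Fin n × Fin m) k) (LL k n m) :=
    IsLocalization.isAlgebraic _ (nonZeroDivisors (MvPolynomial (Fin n × Fin m) k))
  have h1 := (IsTranscendenceBasis.mvPolynomial (Fin n × Fin m) k).algebraMap_comp
    (A := LL k n m)
  have h2 := h1.lift_cardinalMk_eq_trdeg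
  rw [Cardinal.lift_id'.{0, u}] at h2
  have h3 : Cardinal.lift.{u} (Cardinal.mk (Fin n × Fin m)) = ((0 + m * n : ℕ) : Cardinal) := by
    rw [Cardinal.mk_fintype, Fintype.card_prod, Fintype.card_fin, Fintype.card_fin,
      Cardinal.lift_natCast, zero_add, mul_comm]
  rw [h3] at h2
  exact h2.le

variable {F} {k} {n} {m}

/-- The action on the field of rational functions. -/
noncomputable def sg (τ : MvPolynomial (Fin n × Fin m) k ≃ₐ[k] MvPolynomial (Fin n × Fin m) k) :
    LL k n m →+* LL k n m :=
  IsFractionRing.lift (A := MvPolynomial (Fin n × Fin m) k) (K := LL k n m)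
    (g := ((emb k n m).comp
      (τ : MvPolynomial (Fin n × Fin m) k →ₐ[k] MvPolynomial (Fin n × Fin m) k)).toRingHom)
    (show Function.Injective fun b => emb k n m (τ b) from
      (emb_injective k n m).comp τ.injective)

lemma sg_emb (τ : MvPolynomial (Fin n × Fin m) k ≃ₐ[k] MvPolynomial (Fin n × Fin m) k)
    (b : MvPolynomial (Fin n × Fin m) k) : sg τ (emb k n m b) = emb k n m (τ b) :=
  IsFractionRing.lift_algebraMap _ _

lemma sg_algebraMap (τ : MvPolynomial (Fin n × Fin m) k ≃ₐ[k] MvPolynomial (Fin n × Fin m) k)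
    (c : k) : sg τ (algebraMap k (LL k n m) c) = algebraMap k (LL k n m) c := by
  have h := sg_emb τ (algebraMap k (MvPolynomial (Fin n × Fin m) k) c)
  rw [AlgEquiv.commutes, AlgHom.commutes] at h
  exact h

/-- The constant vectors. -/
noncomputable def cst (F : Type v) [Field F] [Fintype F] (k : Type u) [Field k] [Algebra F k]
    (n m : ℕ) : (Fin m → k) →ₗ[F] (Fin m → LL k n m) where
  toFun := fun w l => algebraMap k (LL k n m) (w l)
  map_add' := fun w w' => by
    funext l
    exact map_add _ _ _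
  map_smul' := fun a w => by
    funext l
    change algebraMap k (LL k n m) (a • w l) = a • algebraMap k (LL k n m) (w l)
    rw [Algebra.algebraMap_eq_smul_one, Algebra.algebraMap_eq_smul_one, smul_assoc]

lemma cst_injective : Function.Injective (cst F k n m) := by
  intro w w' h
  funext l
  exact (algebraMap k (LL k n m)).injective (congrFun h l)

lemma emb_aff_X (g : Matrix (Fin n) (Fin n) F) (v : Fin n → Fin m → k) (i : Fin n) (l : Fin m) :
    emb k n m (aff g v (MvPolynomial.X (i, l))) =
      (∑ j, g i j • (xr F k n m j : Fin m → LL k n m) + cst F k n m (v i)) l := by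
  rw [aff_X, map_add, map_sum, Pi.add_apply, Finset.sum_apply]
  congr 1
  refine Finset.sum_congr rfl fun j _ => ?_
  rw [← MvPolynomial.smul_eq_C_mul, map_smul, algebraMap_smul]
  rfl

lemma sg_xr {τ : MvPolynomial (Fin n × Fin m) k ≃ₐ[k] MvPolynomial (Fin n × Fin m) k}
    {g : Matrix (Fin n) (Fin n) F} {v : Fin n → Fin m → k}
    (h : (τ : MvPolynomial (Fin n × Fin m) k →ₐ[k] MvPolynomial (Fin n × Fin m) k) = aff g v)
    (i : Fin n) : (fun l => sg τ ((xr F k n m i : Fin m → LL k n m) l)) -
      ∑ j, g i j • (xr F k n m j : Fin m → LL k n m) = cst F k n m (v i) := by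
  rw [sub_eq_iff_eq_add', funext_iff]
  intro l
  rw [← emb_aff_X, ← h]
  exact sg_emb τ _

lemma eq_aff_of {g : Matrix (Fin n) (Fin n) F} {v : Fin n → Fin m → k}
    {σ : LL k n m →+* LL k n m} (hk : ∀ c : k, σ (algebraMap k _ c) = algebraMap k _ c)
    (hσ : ∀ i, (fun l => σ ((xr F k n m i : Fin m → LL k n m) l)) =
      ∑ j, g i j • (xr F k n m j : Fin m → LL k n m) + cst F k n m (v i))
    (b : MvPolynomial (Fin n × Fin m) k) : σ (emb k n m b) = emb k n m (aff g v b) := by
  let σ' : LL k n m →ₐ[k] LL k n m := { σ with commutes' := hk }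
  have h : σ'.comp (emb k n m) = (emb k n m).comp (aff g v) := by
    apply MvPolynomial.algHom_ext
    rintro ⟨i, l⟩
    change σ (emb k n m (MvPolynomial.X (i, l))) =
      emb k n m (aff g v (MvPolynomial.X (i, l)))
    rw [emb_aff_X, ← hσ]
    rfl
  exact congrArg (fun f => f b) h

/-- The affine transformations are automorphisms. -/
lemma exists_equiv (g : Matrix.GeneralLinearGroup (Fin n) F) (v : Fin n → Fin m → k) :
    ∃ τ : MvPolynomial (Fin n × Fin m) k ≃ₐ[k] MvPolynomial (Fin n × Fin m) k,
      (τ : MvPolynomial (Fin n × Fin m) k →ₐ[k] MvPolynomial (Fin n × Fin m) k) =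
        aff (g : Matrix (Fin n) (Fin n) F) v := by
  have h1 := aff_inv g v
  have h2 := aff_inv g⁻¹ (vinv g v)
  have h3 : vinv g⁻¹ (vinv g v) = v := by
    have h4 : aff (k := k) (m := m)
        (((g⁻¹)⁻¹ : Matrix.GeneralLinearGroup (Fin n) F) : Matrix (Fin n) (Fin n) F)
        (vinv g⁻¹ (vinv g v)) = aff (g : Matrix (Fin n) (Fin n) F) v := by
      have h5 : (aff (g : Matrix (Fin n) (Fin n) F) v).comp
          ((aff ((g⁻¹ : Matrix.GeneralLinearGroup (Fin n) F) : Matrix (Fin n) (Fin n) F)
            (vinv g v)).comp (aff (((g⁻¹)⁻¹ : Matrix.GeneralLinearGroup (Fin n) F) :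
              Matrix (Fin n) (Fin n) F) (vinv g⁻¹ (vinv g v)))) =
          aff (g : Matrix (Fin n) (Fin n) F) v := by
        have h6 : (aff ((g⁻¹ : Matrix.GeneralLinearGroup (Fin n) F) : Matrix (Fin n) (Fin n) F)
            (vinv g v)).comp (aff (((g⁻¹)⁻¹ : Matrix.GeneralLinearGroup (Fin n) F) :
              Matrix (Fin n) (Fin n) F) (vinv g⁻¹ (vinv g v))) = AlgHom.id k _ := h2
        rw [h6, AlgHom.comp_id]
      rw [← AlgHom.comp_assoc] at h5
      have h7 : (aff (g : Matrix (Fin n) (Fin n) F) v).comp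
          (aff ((g⁻¹ : Matrix.GeneralLinearGroup (Fin n) F) : Matrix (Fin n) (Fin n) F)
            (vinv g v)) = AlgHom.id k _ := h1
      rw [h7, AlgHom.id_comp] at h5
      exact h5
    funext i l
    have h5 := congrArg (fun f => MvPolynomial.coeff 0 (f (MvPolynomial.X (i, l)))) h4
    simp only [aff_X, MvPolynomial.coeff_add, MvPolynomial.coeff_sum] at h5
    simpa using h5
  refine ⟨AlgEquiv.ofAlgHom _ (aff ((g⁻¹ : Matrix.GeneralLinearGroup (Fin n) F) :
    Matrix (Fin n) (Fin n) F) (vinv g v)) h1 ?_, rfl⟩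
  have h6 : (aff ((g⁻¹ : Matrix.GeneralLinearGroup (Fin n) F) : Matrix (Fin n) (Fin n) F)
      (vinv g v)).comp (aff (((g⁻¹)⁻¹ : Matrix.GeneralLinearGroup (Fin n) F) :
        Matrix (Fin n) (Fin n) F) (vinv g⁻¹ (vinv g v))) = AlgHom.id k _ := h2
  rw [h3, inv_inv] at h6
  exact h6

/-- The main theorem. -/
theorem main (hm : 0 < m) (lv : Fin n → ℕ) (s : Fin n → ℕ) (hs : ∀ i, s i ∣ Fintype.card F - 1)
    (W : Submodule F (Fin m → k)) [Finite W] :
    Pool.Agent.H920R2.HasResolution
      (X := Spec (CommRingCat.of (inva (affGrp (n := n) lv s W))))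
      (Spec.map (CommRingCat.ofHom (algebraMap k (inva (affGrp (n := n) lv s W))))) := by
  classical
  have hint := isIntegral_inva (affGrp (n := n) lv s W)
  have hWf : Module.Finite F W := Module.Finite.of_finite
  let bW := Module.finBasis F W
  let a := Module.finrank F W
  let z : Fin a → (⊤ : Submodule F (Fin m → LL k n m)) :=
    fun j => ⟨cst F k n m (bW j : Fin m → k), trivial⟩
  have hspan : Submodule.span F (Set.range fun j => (z j : Fin m → LL k n m)) =
      W.map (cst F k n m) := by
    have h1 : (Set.range fun j => (z j : Fin m → LL k n m)) =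
        cst F k n m '' (W.subtype '' (Set.range bW)) := by
      rw [← Set.range_comp, ← Set.range_comp]
      rfl
    rw [h1, Submodule.span_image, Submodule.span_image, bW.span_eq, Submodule.map_top,
      Submodule.range_subtype]
  have hzk : ∀ j l, (z j : Fin m → LL k n m) l ∈ (⊥ : Subalgebra k (LL k n m)) :=
    fun j l => Subalgebra.algebraMap_mem _ _
  have hzli : LinearIndependent F fun j => (z j : Fin m → LL k n m) := by
    have h1 : LinearIndependent F fun j => W.subtype (bW j) :=
      bW.linearIndependent.map' W.subtype (Submodule.ker_subtype W)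
    exact h1.map' (cst F k n m) (LinearMap.ker_eq_bot.2 cst_injective)
  obtain ⟨H, r, hH, S0⟩ := const_stage (F := F) (m := m) (emb k n m).range a z hzk hzli
  rw [hspan] at S0
  have hcard : a = Fintype.card (Fin a) := (Fintype.card_fin a).symm
  rw [hcard] at S0
  have hxz : LinearIndependent F (Sum.elim (fun i => (xr F k n m i : Fin m → LL k n m)) fun j =>
      (z j : Fin m → LL k n m)) := by
    rw [Fintype.linearIndependent_iff]
    intro b hb
    rw [Fintype.sum_sum_type] at hb
    have hb1 : ∀ i, b (Sum.inl i) = 0 := by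
      intro i
      have h1 : emb k n m (∑ i, algebraMap F k (b (Sum.inl i)) • MvPolynomial.X (i, ⟨0, hm⟩) +
          MvPolynomial.C (∑ j, b (Sum.inr j) • (bW j : Fin m → k) ⟨0, hm⟩)) = 0 := by
        have h2 := congrFun hb ⟨0, hm⟩
        rw [Pi.add_apply, Finset.sum_apply, Finset.sum_apply] at h2
        rw [map_add, map_sum, Pi.zero_apply] at *
        rw [← h2]
        congr 1
        · refine Finset.sum_congr rfl fun i _ => ?_
          rw [map_smul, algebraMap_smul]
          rfl
        · have h3 : emb k n m (MvPolynomial.C (∑ j, b (Sum.inr j) •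
              (bW j : Fin m → k) ⟨0, hm⟩)) = algebraMap k (LL k n m)
                (∑ j, b (Sum.inr j) • (bW j : Fin m → k) ⟨0, hm⟩) := (emb k n m).commutes _
          rw [h3, map_sum]
          refine Finset.sum_congr rfl fun j _ => ?_
          change algebraMap k (LL k n m) (b (Sum.inr j) • (bW j : Fin m → k) ⟨0, hm⟩) =
            b (Sum.inr j) • algebraMap k (LL k n m) ((bW j : Fin m → k) ⟨0, hm⟩)
          rw [Algebra.algebraMap_eq_smul_one, Algebra.algebraMap_eq_smul_one, smul_assoc]
      have h2 := (map_eq_zero_iff _ (emb_injective k n m)).1 h1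
      have h3 := congrArg (MvPolynomial.coeff (Finsupp.single (i, ⟨0, hm⟩) 1)) h2
      rw [MvPolynomial.coeff_add, MvPolynomial.coeff_sum, MvPolynomial.coeff_zero,
        Finset.sum_eq_single i, MvPolynomial.coeff_C, if_neg, add_zero] at h3
      · rw [MvPolynomial.coeff_smul, MvPolynomial.coeff_X, if_pos rfl, smul_eq_mul, mul_one] at h3
        exact (map_eq_zero_iff _ (algebraMap F k).injective).1 h3
      · intro h
        have h4 := congrArg (fun f => f (i, ⟨0, hm⟩)) h
        simp at h4
      · intro j _ hj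
        rw [MvPolynomial.coeff_smul, MvPolynomial.coeff_X, if_neg, smul_zero]
        intro h
        have h4 := Finsupp.single_left_injective (one_ne_zero) h
        exact hj (Prod.mk.inj h4).1
      · intro h
        exact absurd (Finset.mem_univ i) h
    have hb2 : ∀ j, b (Sum.inr j) = 0 := by
      apply Fintype.linearIndependent_iff.1 hzli fun j => b (Sum.inr j)
      rw [← hb]
      simp only [hb1, zero_smul, Finset.sum_const_zero, zero_add]
      rfl
    rintro (i | j)
    · exact hb1 i
    · exact hb2 j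
  refine resolution (F := F) (k := k) (L := LL k n m) (x := xr F k n m) (lv := lv)
    (e := ee F lv s) (g := (emb k n m).comp (inva (affGrp (n := n) lv s W)).val) (z := z)
    ((emb_injective k n m).comp Subtype.val_injective) (emb_range F k n m) hspan.symm
    S0 0 ?_ (fun _ _ _ _ _ => trivial) hxz
    ?_ (adjoin_top F k n m) (le_trdeg k n m) (ee_spec hs)
    {σ | ∃ τ ∈ affGrp (n := n) lv s W, σ = sg τ} ?_ ?_ ?_ ?_
  · intro _
    exact ⟨Empty, inferInstance, fun p => p.elim, rfl, by
      rw [Set.range_eq_empty, Algebra.adjoin_empty]⟩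
  · exact fun c => ⟨algebraMap F k c, (IsScalarTower.algebraMap_apply F k (LL k n m) c).symm⟩
  · rintro _ ⟨τ, ⟨g, hg, v, hv, hτ⟩, rfl⟩
    refine ⟨fun t => ⟨fun b hb => ?_, ?_⟩, fun a => ?_⟩
    · obtain ⟨c, rfl⟩ := Algebra.mem_bot.1 hb
      exact sg_algebraMap _ c
    · obtain ⟨c, rfl⟩ := Algebra.mem_bot.1 hH
      exact sg_algebraMap _ c
    · have h3 : Cond lv s (g : Matrix (Fin n) (Fin n) F) := hg
      have h4 : (g : Matrix (Fin n) (Fin n) F).det ≠ 0 := g.det_ne_zero
      refine q_of_matrix (L := LL k n m) (x := xr F k n m) h3 h4 (σ := sg τ) (fun i => ?_) a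
      rw [sg_xr hτ i]
      exact ⟨v i, hv i, rfl⟩
  · rintro _ ⟨b, rfl⟩ h
    have h1 : b ∈ inva (affGrp (n := n) lv s W) := by
      intro τ hτ
      have h2 := h _ ⟨τ, hτ, rfl⟩
      change sg τ (emb k n m b) = emb k n m b at h2
      rw [sg_emb] at h2
      exact emb_injective k n m h2
    exact ⟨⟨b, h1⟩, rfl⟩
  · rintro σ ⟨-, hσ0⟩ hσ b
    obtain ⟨g, hdet, hg, hgσ⟩ := matrix_of_q hs hσ
    choose v hv hvσ using hgσ
    let g' : Matrix.GeneralLinearGroup (Fin n) F := Matrix.GeneralLinearGroup.mkOfDetNeZero g hdet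
    obtain ⟨τ, hτ⟩ := exists_equiv g' v
    have hτmem : τ ∈ affGrp (n := n) lv s W := ⟨g', hg, v, hv, hτ⟩
    refine ⟨⟨b.1, rfl⟩, ?_⟩
    change σ (emb k n m b.1) = emb k n m b.1
    rw [eq_aff_of (g := g) (v := v) (fun c => hσ0 _ (Subalgebra.algebraMap_mem _ c))
      (fun i => by rw [hvσ i, add_sub_cancel])]
    have h1 : aff g v b.1 = b.1 := by
      have h2 := b.2 τ hτmem
      have h3 : τ b.1 = aff g v b.1 := congrArg (fun f => f b.1) hτ
      rw [← h3]
      exact h2
    rw [h1]
  · rintro V hV _ ⟨b, rfl⟩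
    obtain ⟨P, hP, h1⟩ := Algebra.IsIntegral.isIntegral
      (R := inva (affGrp (n := n) lv s W)) b
    have h2 : IsIntegral V (emb k n m b) := by
      let f : inva (affGrp (n := n) lv s W) →+* V :=
        ((emb k n m).comp (inva (affGrp (n := n) lv s W)).val).toRingHom.codRestrict
          V.toSubring hV
      refine ⟨P.map f, hP.map f, ?_⟩
      rw [Polynomial.eval₂_map]
      have h3 : (algebraMap V (LL k n m)).comp f =
          (emb k n m).toRingHom.comp (algebraMap (inva (affGrp (n := n) lv s W)) _) := rfl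
      change Polynomial.eval₂ ((algebraMap V (LL k n m)).comp f) ((emb k n m).toRingHom b) P = 0
      rw [h3, ← Polynomial.hom_eval₂, h1, map_zero]
    obtain ⟨y, hy⟩ := IsIntegrallyClosed.isIntegral_iff.1 h2
    change emb k n m b ∈ V
    rw [← hy]
    exact y.2

end poly

end Pool.Agent.R837.FM
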