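import Pool.Agent.R837.FM.Poly

/-!
The affine groups over finite fields and their actions on polynomial rings.
-/

set_option autoImplicit false
set_option linter.unusedSectionVars false

open Finset AlgebraicGeometry CategoryTheory MvPolynomial

universe u v w z

namespace Pool.Agent.R837.FM

section grp

variable {F : Type v} [Field F] [Fintype F] {n : ℕ}

lemma cond_mul {lv s : Fin n → ℕ} {g h : Matrix (Fin n) (Fin n) F} (hg : Cond lv s g)
    (hh : Cond lv s h) : Cond lv s (g * h) := by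
  refine ⟨fun i j hij => ?_, fun i hi => ?_⟩
  · rw [Matrix.mul_apply]
    refine Finset.sum_eq_zero fun l _ => ?_
    by_cases h1 : lv i < lv l
    · rw [hg.1 i l h1, zero_mul]
    · rw [hh.1 l j (by omega), mul_zero]
  · rw [Matrix.mul_apply, Finset.sum_eq_single i]
    · rw [mul_pow, hg.2 i hi, hh.2 i hi, mul_one]
    · intro l _ hl
      rcases lt_trichotomy (lv i) (lv l) with h1 | h1 | h1
      · rw [hg.1 i l h1, zero_mul]
      · exact absurd (hi l h1.symm) hl
      · rw [hh.1 l i h1, mul_zero]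
    · intro h
      exact absurd (Finset.mem_univ i) h

lemma cond_one (lv s : Fin n → ℕ) : Cond lv s (1 : Matrix (Fin n) (Fin n) F) := by
  refine ⟨fun i j hij => ?_, fun i _ => ?_⟩
  · rw [Matrix.one_apply_ne]
    rintro rfl
    exact lt_irrefl _ hij
  · rw [Matrix.one_apply_eq, one_pow]

/-- The group of the invertible matrices satisfying the condition. -/
def par (F : Type v) [Field F] [Fintype F] {n : ℕ} (lv s : Fin n → ℕ) :
    Subgroup (Matrix.GeneralLinearGroup (Fin n) F) where
  carrier := {g | Cond lv s (g : Matrix (Fin n) (Fin n) F)}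
  mul_mem' := fun hg hh => cond_mul hg hh
  one_mem' := cond_one lv s
  inv_mem' := by
    intro g hg
    classical
    have hpow : ∀ k : ℕ, Cond lv s ((g ^ k : Matrix.GeneralLinearGroup (Fin n) F) :
        Matrix (Fin n) (Fin n) F) := by
      intro k
      induction k with
      | zero =>
        rw [pow_zero]
        exact cond_one lv s
      | succ k ih =>
        rw [pow_succ]
        exact cond_mul ih hg
    have h1 : g⁻¹ = g ^ (orderOf g - 1) := by
      have h2 : 0 < orderOf g := orderOf_pos g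
      rw [inv_eq_iff_mul_eq_one, ← pow_succ', Nat.sub_add_cancel h2, pow_orderOf_eq_one]
    change Cond lv s ((g⁻¹ : Matrix.GeneralLinearGroup (Fin n) F) : Matrix (Fin n) (Fin n) F)
    rw [h1]
    exact hpow _

lemma mem_par {lv s : Fin n → ℕ} {g : Matrix.GeneralLinearGroup (Fin n) F} :
    g ∈ par F lv s ↔ Cond lv s (g : Matrix (Fin n) (Fin n) F) := Iff.rfl

end grp

section act

variable {F : Type v} [Field F] [Fintype F] {k : Type u} [Field k] [Algebra F k] {n m : ℕ}

/-- The substitution `x ↦ g x + v`. -/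
noncomputable def aff (g : Matrix (Fin n) (Fin n) F) (v : Fin n → Fin m → k) :
    MvPolynomial (Fin n × Fin m) k →ₐ[k] MvPolynomial (Fin n × Fin m) k :=
  aeval fun p => ∑ j, C (algebraMap F k (g p.1 j)) * X (j, p.2) + C (v p.1 p.2)

lemma aff_X (g : Matrix (Fin n) (Fin n) F) (v : Fin n → Fin m → k) (i : Fin n) (l : Fin m) :
    aff g v (X (i, l)) = ∑ j, C (algebraMap F k (g i j)) * X (j, l) + C (v i l) := by
  unfold aff
  rw [aeval_X]

lemma aff_C (g : Matrix (Fin n) (Fin n) F) (v : Fin n → Fin m → k) (c : k) :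
    aff g v (C c) = C c := AlgHom.commutes _ c

lemma aff_comp (g h : Matrix (Fin n) (Fin n) F) (v w : Fin n → Fin m → k) :
    (aff g v).comp (aff h w) = aff (h * g) (fun i => ∑ j, h i j • v j + w i) := by
  apply algHom_ext
  rintro ⟨i, l⟩
  rw [AlgHom.comp_apply, aff_X, aff_X, map_add, map_sum, aff_C]
  have h1 : ∀ j, aff g v (C (algebraMap F k (h i j)) * X (j, l)) =
      ∑ j', C (algebraMap F k (h i j * g j j')) * X (j', l) +
        C (algebraMap F k (h i j) * v j l) := by
    intro j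
    rw [map_mul, aff_C, aff_X, mul_add, Finset.mul_sum, ← C_mul]
    congr 1
    refine Finset.sum_congr rfl fun j' _ => ?_
    rw [map_mul, C_mul]
    ring
  rw [Finset.sum_congr rfl fun j _ => h1 j, Finset.sum_add_distrib, Finset.sum_comm, add_assoc]
  congr 1
  · refine Finset.sum_congr rfl fun j' _ => ?_
    rw [← Finset.sum_mul, Matrix.mul_apply, map_sum, map_sum]
  · rw [← map_sum, ← C_add]
    congr 1
    rw [Pi.add_apply, Finset.sum_apply]
    congr 1
    refine Finset.sum_congr rfl fun j _ => ?_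
    rw [Pi.smul_apply, Algebra.smul_def]

lemma aff_one : aff (F := F) (1 : Matrix (Fin n) (Fin n) F) (fun _ _ => (0 : k) : Fin n → Fin m → k)
    = AlgHom.id k _ := by
  apply algHom_ext
  rintro ⟨i, l⟩
  rw [aff_X, Finset.sum_eq_single i]
  · simp
  · intro j _ hj
    rw [Matrix.one_apply_ne (Ne.symm hj)]
    simp
  · intro h
    exact absurd (Finset.mem_univ i) h

/-- The inverse. -/
lemma aff_inv (g : Matrix.GeneralLinearGroup (Fin n) F) (v : Fin n → Fin m → k) :
    (aff (g : Matrix (Fin n) (Fin n) F) v).comp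
      (aff ((g⁻¹ : Matrix.GeneralLinearGroup (Fin n) F) : Matrix (Fin n) (Fin n) F)
        (fun i => -∑ j, ((g⁻¹ : Matrix.GeneralLinearGroup (Fin n) F) :
          Matrix (Fin n) (Fin n) F) i j • v j)) = AlgHom.id k _ := by
  rw [aff_comp, ← Units.val_mul, inv_mul_cancel, Units.val_one, ← aff_one (F := F)]
  congr 1
  funext i
  rw [add_neg_cancel]
  rfl

lemma inv_eq_of_comp {B : Type u} [CommRing B] [Algebra k B] {σ : B ≃ₐ[k] B} {τ : B →ₐ[k] B}
    (h : (σ : B →ₐ[k] B).comp τ = AlgHom.id k B) : ((σ⁻¹ : B ≃ₐ[k] B) : B →ₐ[k] B) = τ := by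
  apply AlgHom.ext
  intro b
  have h1 : σ (τ b) = b := congrArg (fun f => f b) h
  change σ.symm b = τ b
  rw [AlgEquiv.symm_apply_eq]
  exact h1.symm

/-- The translation part of the inverse. -/
def vinv (g : Matrix.GeneralLinearGroup (Fin n) F) (v : Fin n → Fin m → k) : Fin n → Fin m → k :=
  fun i => -∑ j, ((g⁻¹ : Matrix.GeneralLinearGroup (Fin n) F) : Matrix (Fin n) (Fin n) F) i j • v j

/-- The set of the affine transformations. -/
def affSet (lv s : Fin n → ℕ) (W : Submodule F (Fin m → k)) :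
    Set (MvPolynomial (Fin n × Fin m) k ≃ₐ[k] MvPolynomial (Fin n × Fin m) k) :=
  {σ | ∃ g ∈ par F lv s, ∃ v : Fin n → Fin m → k, (∀ i, v i ∈ W) ∧
    (σ : MvPolynomial (Fin n × Fin m) k →ₐ[k] MvPolynomial (Fin n × Fin m) k) =
      aff (g : Matrix (Fin n) (Fin n) F) v}

lemma affSet_mul {lv s : Fin n → ℕ} {W : Submodule F (Fin m → k)}
    {σ τ : MvPolynomial (Fin n × Fin m) k ≃ₐ[k] MvPolynomial (Fin n × Fin m) k}
    (hσ : σ ∈ affSet lv s W) (hτ : τ ∈ affSet lv s W) : σ * τ ∈ affSet lv s W := by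
  obtain ⟨g, hg, v, hv, h1⟩ := hσ
  obtain ⟨h, hh, w, hw, h2⟩ := hτ
  refine ⟨h * g, (par F lv s).mul_mem hh hg,
    fun i => ∑ j, (h : Matrix (Fin n) (Fin n) F) i j • v j + w i,
    fun i => W.add_mem (W.sum_mem fun j _ => W.smul_mem _ (hv j)) (hw i), ?_⟩
  have h3 : ((σ * τ : MvPolynomial (Fin n × Fin m) k ≃ₐ[k] MvPolynomial (Fin n × Fin m) k) :
      MvPolynomial (Fin n × Fin m) k →ₐ[k] MvPolynomial (Fin n × Fin m) k) =
      (σ : MvPolynomial (Fin n × Fin m) k →ₐ[k] MvPolynomial (Fin n × Fin m) k).comp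
        (τ : MvPolynomial (Fin n × Fin m) k →ₐ[k] MvPolynomial (Fin n × Fin m) k) := rfl
  rw [h3, h1, h2, aff_comp, Units.val_mul]

lemma affSet_one (lv s : Fin n → ℕ) (W : Submodule F (Fin m → k)) :
    1 ∈ affSet (n := n) lv s W :=
  ⟨1, (par F lv s).one_mem, fun _ _ => 0, fun _ => W.zero_mem, (aff_one (F := F)).symm⟩

lemma affSet_inv {lv s : Fin n → ℕ} {W : Submodule F (Fin m → k)}
    {σ : MvPolynomial (Fin n × Fin m) k ≃ₐ[k] MvPolynomial (Fin n × Fin m) k}
    (hσ : σ ∈ affSet lv s W) : σ⁻¹ ∈ affSet lv s W := by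
  obtain ⟨g, hg, v, hv, h1⟩ := hσ
  refine ⟨g⁻¹, (par F lv s).inv_mem hg, vinv g v,
    fun i => W.neg_mem (W.sum_mem fun j _ => W.smul_mem _ (hv j)), ?_⟩
  apply inv_eq_of_comp
  rw [h1]
  exact aff_inv g v

/-- The group of the affine transformations `x ↦ g x + v`, where `g` satisfies the condition and
the rows of `v` are in `W`. -/
def affGrp (lv s : Fin n → ℕ) (W : Submodule F (Fin m → k)) :
    Subgroup (MvPolynomial (Fin n × Fin m) k ≃ₐ[k] MvPolynomial (Fin n × Fin m) k) where
  carrier := affSet lv s W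
  mul_mem' := affSet_mul
  one_mem' := affSet_one lv s W
  inv_mem' := affSet_inv

/-- The invariants of a group of automorphisms. -/
def inva {B : Type u} [CommRing B] [Algebra k B] (Γ : Subgroup (B ≃ₐ[k] B)) : Subalgebra k B where
  carrier := {b | ∀ σ ∈ Γ, σ b = b}
  mul_mem' := fun {a b} ha hb σ hσ => by rw [map_mul, ha σ hσ, hb σ hσ]
  add_mem' := fun {a b} ha hb σ hσ => by rw [map_add, ha σ hσ, hb σ hσ]
  algebraMap_mem' := fun c σ _ => AlgEquiv.commutes σ c

/-- A ring is integral over the invariants of a finite group. -/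
lemma isIntegral_inva {B : Type u} [CommRing B] [Algebra k B] (Γ : Subgroup (B ≃ₐ[k] B))
    [Finite Γ] : Algebra.IsIntegral (inva Γ) B := by
  have : Algebra.IsInvariant (inva Γ) B Γ := ⟨fun b hb => ⟨⟨b, fun σ hσ => hb ⟨σ, hσ⟩⟩, rfl⟩⟩
  exact Algebra.IsInvariant.isIntegral (inva Γ) B Γ

lemma finiteType_inva {B : Type u} [CommRing B] [Algebra k B] [Algebra.FiniteType k B]
    (Γ : Subgroup (B ≃ₐ[k] B)) [Finite Γ] : Algebra.FiniteType k (inva Γ) := by
  have h1 := isIntegral_inva Γ
  have h2 : Algebra.FiniteType (inva Γ) B := by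
    apply Algebra.FiniteType.of_restrictScalars_finiteType k
  have h3 : Module.Finite (inva Γ) B := Algebra.IsIntegral.finite
  refine ⟨?_⟩
  refine fg_of_fg_of_fg k (inva Γ) B ?_ h3.1 ?_
  · exact (inferInstance : Algebra.FiniteType k B).1
  · exact Subtype.val_injective

instance finite_affGrp (lv s : Fin n → ℕ) (W : Submodule F (Fin m → k)) [Finite W] :
    Finite (affGrp (n := n) lv s W) := by
  classical
  have h1 : ∀ σ : affGrp (n := n) lv s W, ∃ p : Matrix (Fin n) (Fin n) F × (Fin n → W),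
      (σ.1 : MvPolynomial (Fin n × Fin m) k →ₐ[k] MvPolynomial (Fin n × Fin m) k) =
        aff p.1 fun i => (p.2 i : Fin m → k) := by
    rintro ⟨σ, g, hg, v, hv, h⟩
    exact ⟨(g, fun i => ⟨v i, hv i⟩), h⟩
  choose f hf using h1
  have : Finite (Matrix (Fin n) (Fin n) F) := inferInstanceAs (Finite (Fin n → Fin n → F))
  refine Finite.of_injective f fun σ τ h => ?_
  apply Subtype.ext
  apply AlgEquiv.coe_toAlgHom_injective
  rw [hf, hf, h]

end act

end Pool.Agent.R837.FM
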