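import Mathlib

/-!
Powers of the Frobenius endomorphism `x ↦ x ^ q` over a finite field with `q` elements: Moore's
lemma (linear independence of the Frobenius powers of vectors which are linearly independent over
the finite field) and monic linear relations.
-/

set_option autoImplicit false

open Finset

universe u v

namespace Pool.Agent.R837.FM

section fr

variable (F : Type v) [Field F] [Fintype F] {L : Type u} [Field L] [Algebra F L]

/-- The `j`-th power of the `q`-Frobenius. -/
noncomputable def fr (j : ℕ) : L →ₐ[F] L := (FiniteField.frobeniusAlgHom F L) ^ j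

lemma fr_apply (j : ℕ) (x : L) : fr F j x = x ^ (Fintype.card F ^ j) := by
  unfold fr
  rw [AlgHom.coe_pow, FiniteField.coe_frobeniusAlgHom, pow_iterate]

lemma fr_zero (x : L) : fr F 0 x = x := by
  rw [fr_apply, pow_zero, pow_one]

lemma fr_add (i j : ℕ) (x : L) : fr F (i + j) x = fr F i (fr F j x) := by
  rw [fr_apply, fr_apply, fr_apply, ← pow_mul, ← pow_add, add_comm]

lemma fr_one (x : L) : fr F 1 x = x ^ Fintype.card F := by
  rw [fr_apply, pow_one]

lemma fr_succ (j : ℕ) (x : L) : fr F (j + 1) x = fr F 1 (fr F j x) := by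
  rw [add_comm, fr_add]

lemma fr_succ' (j : ℕ) (x : L) : fr F (j + 1) x = fr F j (fr F 1 x) := by
  rw [fr_add]

lemma fr_inj (j : ℕ) {x y : L} (h : fr F j x = fr F j y) : x = y :=
  (fr F j : L →ₐ[F] L).toRingHom.injective h

lemma fr_eq_zero (j : ℕ) {x : L} : fr F j x = 0 ↔ x = 0 :=
  map_eq_zero_iff _ (fr F j : L →ₐ[F] L).toRingHom.injective

/-- Elements fixed by the Frobenius. -/
lemma exists_of_fr_eq {x : L} (h : fr F 1 x = x) : ∃ a : F, algebraMap F L a = x := by
  classical
  by_contra hcon
  push Not at hcon
  rw [fr_one] at h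
  let P : Polynomial L := Polynomial.X ^ Fintype.card F - Polynomial.X
  have hq : 1 < Fintype.card F := Fintype.one_lt_card
  have hP : P.natDegree = Fintype.card F := FiniteField.X_pow_card_sub_X_natDegree_eq L hq
  have hP0 : P ≠ 0 := FiniteField.X_pow_card_sub_X_ne_zero L hq
  let Z : Finset L := insert x (univ.image (algebraMap F L))
  have hZ : Z.card = Fintype.card F + 1 := by
    rw [card_insert_of_notMem, card_image_of_injective _ (algebraMap F L).injective, card_univ]
    intro hx
    obtain ⟨a, -, ha⟩ := mem_image.1 hx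
    exact hcon a ha
  have hsub : Z ⊆ P.roots.toFinset := by
    intro y hy
    rw [Multiset.mem_toFinset, Polynomial.mem_roots hP0]
    change Polynomial.eval y (Polynomial.X ^ Fintype.card F - Polynomial.X) = 0
    rw [Polynomial.eval_sub, Polynomial.eval_pow, Polynomial.eval_X, sub_eq_zero]
    rcases mem_insert.1 hy with rfl | hy
    · exact h
    · obtain ⟨a, -, rfl⟩ := mem_image.1 hy
      rw [← map_pow, FiniteField.pow_card]
  have h1 := card_le_card hsub
  have h2 := (Multiset.toFinset_card_le P.roots).trans P.card_roots'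
  omega

end fr

section moore

variable {F : Type v} [Field F] [Fintype F] {L : Type u} [Field L] [Algebra F L]
  {ι : Type} [Fintype ι] {κ : Type}

/-- Moore's lemma. -/
theorem moore_aux (y : ι → κ → L) (hy : LinearIndependent F y) (n : ℕ) :
    ∀ (N : ℕ) (a : ι → L), (∀ j, N ≤ j → ∀ l, ∑ i, a i * fr F j (y i l) = 0) →
      Set.ncard {i | a i ≠ 0} ≤ n → a = 0 := by
  classical
  induction n with
  | zero =>
    intro N a _ hn
    have h1 : {i | a i ≠ 0} = ∅ := by
      rw [← Set.ncard_eq_zero (Set.toFinite _)]
      omega
    funext i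
    by_contra hi
    have : i ∈ ({i | a i ≠ 0} : Set ι) := hi
    rw [h1] at this
    exact this
  | succ n ih =>
    intro N a ha hn
    by_contra hne
    obtain ⟨i0, hi0⟩ : ∃ i0, a i0 ≠ 0 := by
      by_contra hcon
      push Not at hcon
      exact hne (funext hcon)
    let a' : ι → L := fun i => a i / a i0
    have ha' : ∀ j, N ≤ j → ∀ l, ∑ i, a' i * fr F j (y i l) = 0 := by
      intro j hj l
      have h1 : ∑ i, a' i * fr F j (y i l) = (∑ i, a i * fr F j (y i l)) / a i0 := by
        rw [Finset.sum_div]
        refine Finset.sum_congr rfl fun i _ => ?_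
        change a i / a i0 * _ = _
        ring
      rw [h1, ha j hj l, zero_div]
    let b : ι → L := fun i => fr F 1 (a' i) - a' i
    have hb : ∀ j, N + 1 ≤ j → ∀ l, ∑ i, b i * fr F j (y i l) = 0 := by
      intro j hj l
      obtain ⟨j', rfl⟩ : ∃ j', j = j' + 1 := ⟨j - 1, by omega⟩
      have h1 : ∑ i, b i * fr F (j' + 1) (y i l) =
          fr F 1 (∑ i, a' i * fr F j' (y i l)) - ∑ i, a' i * fr F (j' + 1) (y i l) := by
        rw [map_sum, ← Finset.sum_sub_distrib]
        refine Finset.sum_congr rfl fun i _ => ?_
        rw [map_mul, ← fr_succ]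
        change (fr F 1 (a' i) - a' i) * _ = _
        ring
      rw [h1, ha' j' (by omega) l, ha' (j' + 1) (by omega) l, map_zero, sub_zero]
    have hb0 : b = 0 := by
      refine ih (N + 1) b hb ?_
      have h1 : {i | b i ≠ 0} ⊆ {i | a i ≠ 0} \ {i0} := by
        intro i hi
        refine ⟨fun h0 => hi ?_, fun h0 => hi ?_⟩
        · change fr F 1 (a i / a i0) - a i / a i0 = 0
          rw [h0, zero_div, map_zero, sub_zero]
        · have h2 : i = i0 := h0
          subst h2
          change fr F 1 (a i / a i) - a i / a i = 0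
          rw [div_self hi0, map_one, sub_self]
      have h2 := Set.ncard_le_ncard h1 (Set.toFinite _)
      have h3 : Set.ncard ({i | a i ≠ 0} \ {i0}) = Set.ncard {i | a i ≠ 0} - 1 :=
        Set.ncard_sdiff_singleton_of_mem hi0
      have h4 : 0 < Set.ncard {i | a i ≠ 0} := (Set.ncard_pos (Set.toFinite _)).2 ⟨i0, hi0⟩
      omega
    have hfix : ∀ i, ∃ α : F, algebraMap F L α = a' i := by
      intro i
      apply exists_of_fr_eq
      have h1 := congrFun hb0 i
      change fr F 1 (a' i) - a' i = 0 at h1
      exact sub_eq_zero.1 h1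
    choose α hα using hfix
    have h1 : ∑ i, α i • y i = 0 := by
      funext l
      rw [Finset.sum_apply, Pi.zero_apply]
      apply (fr_eq_zero F N).1
      rw [map_sum]
      have h2 := ha' N le_rfl l
      rw [← h2]
      refine Finset.sum_congr rfl fun i _ => ?_
      rw [Pi.smul_apply, map_smul, Algebra.smul_def, hα]
    have h2 := (Fintype.linearIndependent_iff.1 hy) α h1 i0
    have h3 : a' i0 = 0 := by rw [← hα, h2, map_zero]
    change a i0 / a i0 = 0 at h3
    rw [div_self hi0] at h3
    exact one_ne_zero h3

theorem moore (y : ι → κ → L) (hy : LinearIndependent F y) (a : ι → L)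
    (h : ∀ j l, ∑ i, a i * fr F j (y i l) = 0) : a = 0 :=
  moore_aux y hy _ 0 a (fun j _ l => h j l) le_rfl

end moore

section monic

variable {F : Type v} [Field F] [Fintype F] {L : Type u} [Field L] [Algebra F L]

lemma fr_mem (V : Subring L) {x : L} (hx : x ∈ V) (j : ℕ) : fr F j x ∈ V := by
  rw [fr_apply]
  exact V.pow_mem hx _

/-- Elements of a ring satisfy a monic linear relation between their Frobenius powers. -/
theorem exists_monic (V : Subring L) (n : ℕ) : ∀ (y : Fin n → L), (∀ i, y i ∈ V) →
    ∃ b : ℕ → L, (∀ j, b j ∈ V) ∧ ∀ i, fr F n (y i) = ∑ j ∈ range n, b j * fr F j (y i) := by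
  classical
  induction n with
  | zero => exact fun y _ => ⟨fun _ => 0, fun _ => V.zero_mem, fun i => i.elim0⟩
  | succ n ih =>
    intro y hy
    let z := y (Fin.last n)
    let β := z ^ (Fintype.card F - 1)
    have hβ : β ∈ V := V.pow_mem (hy _) _
    let E : L → L := fun u => fr F 1 u - β * u
    have hEz : E z = 0 := by
      change fr F 1 z - z ^ (Fintype.card F - 1) * z = 0
      rw [fr_one, ← pow_succ, Nat.sub_add_cancel Fintype.card_pos, sub_self]
    obtain ⟨b', hb', h⟩ := ih (fun i => E (y i.castSucc)) fun i =>
      V.sub_mem (fr_mem V (hy _) 1) (V.mul_mem hβ (hy _))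
    have h' : ∀ i, fr F n (E (y i)) = ∑ j ∈ range n, b' j * fr F j (E (y i)) := by
      intro i
      induction i using Fin.lastCases with
      | last =>
        rw [hEz, map_zero]
        symm
        exact Finset.sum_eq_zero fun j _ => by rw [map_zero, mul_zero]
      | cast i => exact h i
    let b : ℕ → L := fun j => (if j = n then fr F n β else 0) +
      (if j = 0 then 0 else b' (j - 1)) - (if j < n then b' j * fr F j β else 0)
    refine ⟨b, fun j => ?_, fun i => ?_⟩
    · refine V.sub_mem (V.add_mem ?_ ?_) ?_
      · split_ifs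
        · exact fr_mem V hβ n
        · exact V.zero_mem
      · split_ifs
        · exact V.zero_mem
        · exact hb' _
      · split_ifs
        · exact V.mul_mem (hb' _) (fr_mem V hβ _)
        · exact V.zero_mem
    · have h1 := h' i
      have h2 : ∀ j, fr F j (E (y i)) = fr F (j + 1) (y i) - fr F j β * fr F j (y i) := by
        intro j
        change fr F j (fr F 1 (y i) - β * y i) = _
        rw [map_sub, map_mul, ← fr_add]
      rw [h2] at h1
      simp only [h2] at h1
      have h3 : ∑ j ∈ range (n + 1), b j * fr F j (y i) =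
          fr F n β * fr F n (y i) + ∑ j ∈ range n, b' j * fr F (j + 1) (y i) -
            ∑ j ∈ range n, b' j * fr F j β * fr F j (y i) := by
        have e1 : ∀ j, b j * fr F j (y i) = (if j = n then fr F n β * fr F n (y i) else 0) +
            (if j = 0 then 0 else b' (j - 1) * fr F j (y i)) -
            (if j < n then b' j * fr F j β * fr F j (y i) else 0) := by
          intro j
          change ((if j = n then fr F n β else 0) +
            (if j = 0 then 0 else b' (j - 1)) - (if j < n then b' j * fr F j β else 0)) * _ = _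
          split_ifs <;> subst_vars <;> ring
        simp only [e1]
        rw [Finset.sum_sub_distrib, Finset.sum_add_distrib]
        congr 1
        · congr 1
          · rw [Finset.sum_ite_eq', if_pos (Finset.self_mem_range_succ n)]
          · rw [Finset.sum_range_succ']
            simp
        · rw [Finset.sum_range_succ, if_neg (lt_irrefl n), add_zero]
          exact Finset.sum_congr rfl fun j hj => if_pos (Finset.mem_range.1 hj)
      rw [h3]
      have h4 : ∑ j ∈ range n, b' j * (fr F (j + 1) (y i) - fr F j β * fr F j (y i)) =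
          ∑ j ∈ range n, b' j * fr F (j + 1) (y i) -
            ∑ j ∈ range n, b' j * fr F j β * fr F j (y i) := by
        rw [← Finset.sum_sub_distrib]
        exact Finset.sum_congr rfl fun j _ => by ring
      rw [h4] at h1
      rw [sub_eq_iff_eq_add] at h1
      rw [h1]
      ring

theorem exists_monic' (V : Subring L) {ι : Type} [Fintype ι] (y : ι → L) (hy : ∀ i, y i ∈ V) :
    ∃ b : ℕ → L, (∀ j, b j ∈ V) ∧ ∀ i, fr F (Fintype.card ι) (y i) =
      ∑ j ∈ range (Fintype.card ι), b j * fr F j (y i) := by
  obtain ⟨b, hb, h⟩ := exists_monic (F := F) V (Fintype.card ι)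
    (fun i => y ((Fintype.equivFin ι).symm i)) fun i => hy _
  refine ⟨b, hb, fun i => ?_⟩
  have h1 := h (Fintype.equivFin ι i)
  simpa using h1

end monic

end Pool.Agent.R837.FM
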