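import Pool.Agent.R837.FM.Spn

/-!
Division by the relations of a chart, determinants of the bases of charts.
-/

set_option autoImplicit false
set_option linter.unusedSectionVars false

open Finset

universe u v w z

namespace Pool.Agent.R837.FM

section spn

variable {k : Type z} [Field k] {L : Type u} [Field L] [Algebra k L] {X : Type w}

lemma exists_add_of_mem_spn_union {R : Subalgebra k L} {A B : Set (X → L)} {f : X → L}
    (hf : f ∈ spn R (A ∪ B)) : ∃ f1 ∈ spn R A, ∃ f2 ∈ spn R B, f = f1 + f2 := by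
  have h : spn R (A ∪ B) ≤ spn R A ⊔ spn R B := by
    refine (AddSubgroup.closure_le _).2 ?_
    rintro _ ⟨a, ha, g, hg | hg, rfl⟩
    · exact (le_sup_left : spn R A ≤ _) (smul_mem_spn ha (subset_spn hg))
    · exact (le_sup_right : spn R B ≤ _) (smul_mem_spn ha (subset_spn hg))
  obtain ⟨f1, h1, f2, h2, h3⟩ := AddSubgroup.mem_sup.1 (h hf)
  exact ⟨f1, h1, f2, h2, h3.symm⟩

end spn

section div

variable {F : Type v} [Field F] [Fintype F] {k : Type z} [Field k] {L : Type u} [Field L]
  [Algebra F L] [Algebra k L] {X : Type w} {s : ℕ}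

variable (F) in
/-- The functions `φ ^ j (r y l)`, `j < d l`. -/
noncomputable def bs (r : X → Fin s → L) (d : Fin s → ℕ) (p : Idx d) : X → L :=
  fun y => fr F p.2 (r y p.1)

variable (F) in
/-- The functions `φ ^ d_l r_l - ∑ c_(l, l', j) φ ^ j r_l'`. -/
noncomputable def rn (r : X → Fin s → L) (d : Fin s → ℕ) (c : Fin s → Idx d → L) :
    X → Fin s → L :=
  fun y l => fr F (d l) (r y l) - ∑ p, c l p * fr F p.2 (r y p.1)

variable {r : X → Fin s → L} {d : Fin s → ℕ} {c : Fin s → Idx d → L} {Q : Subalgebra k L}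

theorem div (hc : ∀ l p, c l p ∈ Q) (l : Fin s) (j : ℕ) :
    (fun y => fr F j (r y l)) ∈ spn Q (gens F (rn F r d c) ∪ Set.range (bs F r d)) := by
  have hbase : ∀ (l : Fin s) (j : ℕ), j < d l → (fun y => fr F j (r y l)) ∈
      spn Q (gens F (rn F r d c) ∪ Set.range (bs F r d)) :=
    fun l j hj => subset_spn (Or.inr ⟨⟨l, ⟨j, hj⟩⟩, rfl⟩)
  have heq : ∀ l : Fin s, (fun y => fr F (d l) (r y l)) ∈
      spn Q (gens F (rn F r d c) ∪ Set.range (bs F r d)) := by
    intro l
    have h1 : (fun y => fr F (d l) (r y l)) =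
        (fun y => fr F 0 (rn F r d c y l)) + fun y => ∑ p, c l p * bs F r d p y := by
      funext y
      change _ = fr F 0 (fr F (d l) (r y l) - ∑ p, c l p * fr F p.2 (r y p.1)) +
        ∑ p, c l p * fr F p.2 (r y p.1)
      rw [fr_zero, sub_add_cancel]
    rw [h1]
    refine add_mem (subset_spn (Or.inl ⟨l, 0, rfl⟩)) (sum_mem_spn _ _ _ (fun p _ => hc l p)
      fun p _ => subset_spn (Or.inr ⟨p, rfl⟩))
  induction j with
  | zero =>
    rcases Nat.eq_zero_or_pos (d l) with h | h
    · have := heq l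
      rw [h] at this
      exact this
    · exact hbase l 0 h
  | succ j ih =>
    have h1 := fr_spn_le (F := F) (R := Q)
      (W := spn Q (gens F (rn F r d c) ∪ Set.range (bs F r d)))
      (fun a ha f hf => smul_mem_spn ha hf) ?_ ih
    · have h2 : (fun y => fr F (j + 1) (r y l)) = fun y => fr F 1 (fr F j (r y l)) := by
        funext y
        exact fr_succ F j _
      rw [h2]
      exact h1
    · rintro _ (⟨l, j, rfl⟩ | ⟨⟨l, j, hj⟩, rfl⟩)
      · have h2 : (fun y => fr F 1 (fr F j (rn F r d c y l))) =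
            fun y => fr F (j + 1) (rn F r d c y l) := by
          funext y
          exact (fr_succ F j _).symm
        rw [h2]
        exact subset_spn (Or.inl ⟨l, j + 1, rfl⟩)
      · have h2 : (fun y => fr F 1 (bs F r d ⟨l, j, hj⟩ y)) = fun y => fr F (j + 1) (r y l) := by
          funext y
          exact (fr_succ F j _).symm
        rw [h2]
        rcases Nat.lt_or_ge (j + 1) (d l) with h | h
        · exact hbase l _ h
        · have h3 : j + 1 = d l := by omega
          rw [h3]
          exact heq l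

theorem op_div (hc : ∀ l p, c l p ∈ Q) :
    Op F Q r ≤ spn Q (gens F (rn F r d c) ∪ Set.range (bs F r d)) := by
  refine spn_le_spn le_rfl ?_
  rintro _ ⟨l, j, rfl⟩
  exact div hc l j

theorem div_zero (hc : ∀ l p, c l p ∈ Q) {ι : Type} {x : ι → X}
    (hli : LinearIndependent L (fam F (fun i => r (x i)) d)) (hx : ∀ i, rn F r d c (x i) = 0)
    {f : X → L} (hf : f ∈ Op F Q r) (h0 : ∀ i, f (x i) = 0) : f ∈ Op F Q (rn F r d c) := by
  obtain ⟨f1, h1, f2, h2, rfl⟩ := exists_add_of_mem_spn_union (op_div hc hf)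
  obtain ⟨a, ha, h3⟩ := mem_spn_range.1 h2
  have h4 : ∀ i, f2 (x i) = 0 := by
    intro i
    have h5 := h0 i
    rw [Pi.add_apply, op_zero (F := F) (R := Q) (r := rn F r d c) h1 (hx i), zero_add] at h5
    exact h5
  have h5 : a = 0 := by
    have h6 := Fintype.linearIndependent_iff.1 hli a (by
      funext i
      rw [Finset.sum_apply]
      have h7 := h4 i
      rw [h3] at h7
      exact h7)
    funext p
    exact h6 p
  have h6 : f2 = 0 := by
    funext y
    rw [h3, h5]
    simp
  rw [h6, add_zero]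
  exact h1

/-- The columns are in the span of the basis. -/
theorem col_mem_spn {ι : Type} {y : ι → Fin s → L} (hc : ∀ l p, c l p ∈ Q)
    (h : ∀ l i, col F y l (d l) i = ∑ p, c l p * fam F y d p i) (l : Fin s) (j : ℕ) :
    col F y l j ∈ spn Q (Set.range (fam F y d)) := by
  have h1 := div (F := F) (r := y) (d := d) hc l j
  refine spn_le_spn le_rfl ?_ h1
  rintro g (⟨l, j, rfl⟩ | ⟨p, rfl⟩)
  · have h2 : (fun i => fr F j (rn F y d c i l)) = 0 := by
      funext i
      have h3 : rn F y d c i l = 0 := by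
        change fr F (d l) (y i l) - ∑ p, c l p * fr F p.2 (y i p.1) = 0
        rw [sub_eq_zero]
        exact h l i
      rw [h3]
      exact map_zero _
    rw [h2]
    exact zero_mem _
  · exact subset_spn ⟨p, rfl⟩

end div

section det

variable {k : Type z} [Field k] {L : Type u} [Field L] [Algebra k L]
  {ι : Type} [Fintype ι] [DecidableEq ι] {P P' : Type} [Fintype P] [Fintype P']

/-- The matrix with the columns `g p`. -/
def fm (g : P → ι → L) (e : ι ≃ P) : Matrix ι ι L := Matrix.of fun i i' => g (e i') i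

omit [Fintype P] in
lemma fm_det_ne_zero {g : P → ι → L} (e : ι ≃ P) (hg : LinearIndependent L g) :
    (fm g e).det ≠ 0 := by
  have h1 : LinearIndependent L (fm g e).col := hg.comp e e.injective
  rw [Matrix.linearIndependent_cols_iff_isUnit] at h1
  exact ((Matrix.isUnit_iff_isUnit_det _).1 h1).ne_zero

lemma exists_mul_of_cols {Q : Subalgebra k L} {g : P → ι → L} (e : ι ≃ P) {W : Matrix ι ι L}
    (h : ∀ i', W.col i' ∈ spn Q (Set.range g)) : ∃ ρ ∈ Q, W.det = (fm g e).det * ρ := by
  have h1 : ∀ i', ∃ a : P → Q, ∀ i, W i i' = ∑ p, (a p : L) * g p i := by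
    intro i'
    obtain ⟨a, ha, h2⟩ := mem_spn_range.1 (h i')
    exact ⟨fun p => ⟨a p, ha p⟩, h2⟩
  choose a ha using h1
  let C : Matrix ι ι Q := Matrix.of fun i i' => a i' (e i)
  refine ⟨(C.det : Q), C.det.2, ?_⟩
  have h2 : ((C.det : Q) : L) = (Q.val.mapMatrix C).det := by
    rw [← AlgHom.map_det]
    rfl
  rw [h2, ← Matrix.det_mul]
  congr 1
  ext i i'
  rw [ha, Matrix.mul_apply, ← Equiv.sum_comp e]
  refine Finset.sum_congr rfl fun i'' _ => ?_
  change (a i' (e i'') : L) * g (e i'') i = g (e i'') i * (a i' (e i'') : L)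
  ring

lemma det_div_mem {Q : Subalgebra k L} {g : P → ι → L} (e : ι ≃ P) {g' : P' → ι → L}
    (e' : ι ≃ P') (h : ∀ p', g' p' ∈ spn Q (Set.range g)) (h0 : (fm g e).det ≠ 0) :
    (fm g' e').det / (fm g e).det ∈ Q := by
  obtain ⟨ρ, hρ, h1⟩ := exists_mul_of_cols e (W := fm g' e') (Q := Q) fun i' => h (e' i')
  rw [h1, mul_div_cancel_left₀ _ h0]
  exact hρ

lemma coord_mem {Q : Subalgebra k L} {g : P → ι → L} (e : ι ≃ P) {g' : P' → ι → L}
    (e' : ι ≃ P') (h : ∀ p', g' p' ∈ spn Q (Set.range g)) {v : ι → L}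
    (hv : v ∈ spn Q (Set.range g)) {a : P' → L} (ha : ∀ i, v i = ∑ p', a p' * g' p' i)
    (h0 : (fm g' e').det ≠ 0) (hinv : (fm g e).det / (fm g' e').det ∈ Q) (p' : P') :
    a p' ∈ Q := by
  classical
  have h1 : (fm g' e').det * a p' = ((fm g' e').updateCol (e'.symm p') v).det := by
    have h2 : v = (fm g' e').mulVec fun i => a (e' i) := by
      funext i
      rw [ha, Matrix.mulVec, dotProduct, ← Equiv.sum_comp e']
      refine Finset.sum_congr rfl fun i' _ => ?_
      change a (e' i') * g' (e' i') i = g' (e' i') i * a (e' i')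
      ring
    have h3 : Matrix.cramer (fm g' e') v = (fm g' e').det • fun i => a (e' i) := by
      rw [Matrix.cramer_eq_adjugate_mulVec]
      conv_lhs => rw [h2]
      rw [Matrix.mulVec_mulVec, Matrix.adjugate_mul, Matrix.smul_mulVec, Matrix.one_mulVec]
    have h4 := congrFun h3 (e'.symm p')
    rw [Matrix.cramer_apply] at h4
    rw [h4, Pi.smul_apply, Equiv.apply_symm_apply, smul_eq_mul]
  obtain ⟨ρ, hρ, h2⟩ := exists_mul_of_cols e (W := (fm g' e').updateCol (e'.symm p') v) (Q := Q)
    (by
      intro i'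
      by_cases hi : i' = e'.symm p'
      · subst hi
        have : ((fm g' e').updateCol (e'.symm p') v).col (e'.symm p') = v := by
          funext i
          exact Matrix.updateCol_self
        rw [this]
        exact hv
      · have : ((fm g' e').updateCol (e'.symm p') v).col i' = g' (e' i') := by
          funext i
          exact Matrix.updateCol_ne hi
        rw [this]
        exact h _)
  have h3 : a p' = (fm g e).det / (fm g' e').det * ρ := by
    rw [h2] at h1
    field_simp
    rw [← h1]
    ring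
  rw [h3]
  exact Q.mul_mem hinv hρ

/-- The standard basis. -/
def std (ι : Type) [DecidableEq ι] (L : Type u) [Field L] (i' : ι) : ι → L := Pi.single i' 1

lemma std_det : (fm (std ι L) (Equiv.refl ι)).det = 1 := by
  have : fm (std ι L) (Equiv.refl ι) = 1 := by
    ext i i'
    change (Pi.single i' (1 : L) : ι → L) i = _
    rw [Matrix.one_apply, Pi.single_apply]
  rw [this, Matrix.det_one]

lemma mem_spn_std {Q : Subalgebra k L} {v : ι → L} (hv : ∀ i, v i ∈ Q) :
    v ∈ spn Q (Set.range (std ι L)) := by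
  rw [mem_spn_range]
  refine ⟨v, hv, fun i => ?_⟩
  rw [Finset.sum_eq_single i]
  · change v i = v i * (Pi.single i (1 : L) : ι → L) i
    rw [Pi.single_eq_same, mul_one]
  · intro i' _ h
    change v i' * (Pi.single i' (1 : L) : ι → L) i = 0
    rw [Pi.single_eq_of_ne (Ne.symm h), mul_zero]
  · intro h
    exact absurd (Finset.mem_univ i) h

end det

end Pool.Agent.R837.FM
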