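import Pool.Agent.R837.FM.Galois

/-!
The charts of the final stage are polynomial rings which contain the invariants.
-/

set_option autoImplicit false
set_option linter.unusedSectionVars false

open Finset Polynomial

universe u v w z

namespace Pool.Agent.R837.FM

open IntermediateField.algebraAdjoinAdjoin

section final

variable {F : Type v} [Field F] [Fintype F] {k : Type z} [Field k] {L : Type u} [Field L]
  [Algebra F L] [Algebra k L] {m s : ℕ} {X : Submodule F (Fin m → L)}

/-- The functions `φ ^ j (x_l)` satisfy an additive relation over the fraction field. -/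
lemma exists_rel {R : Subalgebra k L} {r : X →ₗ[F] (Fin s → L)} {J : Type} [Fintype J]
    (x : J → X) (hr : ∀ i, r (x i) = 0)
    (hdim : ∃ (P : Type) (_ : Fintype P) (base : P → X → L), Fintype.card P = Fintype.card J ∧
      Op F R (co X) ≤ spn R (gens F r ∪ Set.range base))
    (hx : LinearIndependent F fun i => (x i : Fin m → L))
    {E : Type w} [Field E] [Algebra E L] (hE : ∀ a ∈ R, ∃ b : E, algebraMap E L b = a)
    (l : Fin m) : ∃ (N : ℕ) (u : Fin N → L), LinearIndependent F u ∧
      (∀ i, (x i : Fin m → L) l ∈ Submodule.span F (Set.range u)) ∧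
      ∃ α : Fin (N + 1) → E, α ≠ 0 ∧
      ∀ i, ∑ j : Fin (N + 1), algebraMap E L (α j) * fr F (j : ℕ) (u i) = 0 := by
  classical
  obtain ⟨P, hP, base, hcard, h⟩ := hdim
  have h1 : ∀ (l : Fin m) (j : ℕ), ∃ a : P → E, ∀ i, fr F j ((x i : Fin m → L) l) =
      ∑ p, algebraMap E L (a p) * base p (x i) := by
    intro l j
    have h2 := h (gens_mem_op R (co X) l j)
    have h3 := spn_comp (R := R) (R' := R) (S := gens F r ∪ Set.range base)
      (S'' := Set.range fun p => fun i => base p (x i)) x le_rfl ?_ h2
    · obtain ⟨a, ha, h4⟩ := mem_spn_range.1 h3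
      choose b hb using fun p => hE (a p) (ha p)
      refine ⟨b, fun i => ?_⟩
      simp only [hb]
      exact h4 i
    · rintro g (⟨l, j, rfl⟩ | ⟨p, rfl⟩)
      · have h4 : (fun i => fr F j (r (x i) l)) = 0 := by
          funext i
          rw [hr, Pi.zero_apply, map_zero]
          rfl
        change (fun i => fr F j (r (x i) l)) ∈ _
        rw [h4]
        exact zero_mem _
      · exact subset_spn ⟨p, rfl⟩
  -- the base is a basis of the space of functions on the rows
  have hbase : LinearIndependent L fun p => fun i => base p (x i) := by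
    apply linearIndependent_of_top_le_span_of_card_eq_finrank
    · by_contra hcon
      have hlt : Submodule.span L (Set.range fun p => fun i => base p (x i)) < ⊤ :=
        lt_of_le_of_ne le_top fun h => hcon h.ge
      obtain ⟨f, hf0, hf⟩ := Submodule.exists_le_ker_of_lt_top _ hlt
      have hfw : ∀ w : J → L, f w = ∑ i, f (Pi.single i 1) * w i := by
        intro w
        conv_lhs => rw [← LinearMap.sum_single_apply (fun _ => L) w]
        rw [map_sum]
        refine Finset.sum_congr rfl fun i _ => ?_
        have h1 : (Pi.single i (w i) : J → L) = w i • Pi.single i (1 : L) := by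
          rw [← Pi.single_smul]
          simp
        rw [h1, map_smul, smul_eq_mul, mul_comm]
      have h0 := moore (F := F) (fun i => (x i : Fin m → L)) hx (fun i => f (Pi.single i 1)) (by
        intro j l
        obtain ⟨a, ha⟩ := h1 l j
        rw [← hfw fun i => fr F j ((x i : Fin m → L) l)]
        have h2 : (fun i => fr F j ((x i : Fin m → L) l)) =
            ∑ p, algebraMap E L (a p) • fun i => base p (x i) := by
          funext i
          rw [ha, Finset.sum_apply]
          rfl
        have h3 : (fun i => fr F j ((x i : Fin m → L) l)) ∈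
            Submodule.span L (Set.range fun p => fun i => base p (x i)) := by
          rw [h2]
          exact Submodule.sum_mem _ fun p _ => Submodule.smul_mem _ _
            (Submodule.subset_span ⟨p, rfl⟩)
        exact hf h3)
      apply hf0
      ext i
      have := congrFun h0 i
      simpa using this
    · rw [Module.finrank_fintype_fun_eq_card, hcard]
  let U : Submodule F L := Submodule.span F (Set.range fun i => (x i : Fin m → L) l)
  have hUfin : Module.Finite F U := Module.Finite.span_of_finite F (Set.finite_range _)
  let bU := Module.finBasis F U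
  let N := Module.finrank F U
  let u : Fin N → L := fun b => (bU b : L)
  have hu : LinearIndependent F u := bU.linearIndependent.map' U.subtype (Submodule.ker_subtype U)
  have hspan : Submodule.span F (Set.range u) = U := by
    have h2 : Set.range u = U.subtype '' (Set.range bU) := by
      rw [← Set.range_comp]
      rfl
    rw [h2, Submodule.span_image, bU.span_eq, Submodule.map_top, Submodule.range_subtype]
  have hxu : ∀ i, (x i : Fin m → L) l ∈ Submodule.span F (Set.range u) := by
    intro i
    rw [hspan]
    exact Submodule.subset_span ⟨i, rfl⟩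
  refine ⟨N, u, hu, hxu, ?_⟩
  -- a relation over `L`
  have h2 : ¬ LinearIndependent L (fun j : Fin (N + 1) => fun b : Fin N => fr F (j : ℕ) (u b)) := by
    intro hli
    have h3 := hli.fintype_card_le_finrank
    rw [Module.finrank_fintype_fun_eq_card, Fintype.card_fin, Fintype.card_fin] at h3
    omega
  obtain ⟨β, hβ, j0, hj0⟩ := Fintype.not_linearIndependent_iff.1 h2
  have hβu : ∀ b, ∑ j : Fin (N + 1), β j * fr F (j : ℕ) (u b) = 0 := by
    intro b
    have h4 := congrFun hβ b
    rw [Finset.sum_apply] at h4
    exact h4
  -- additive polynomials vanish on the span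
  have hadd : ∀ (γ : Fin (N + 1) → L) (S : Set L),
      (∀ a ∈ S, ∑ j : Fin (N + 1), γ j * fr F (j : ℕ) a = 0) →
      ∀ a ∈ Submodule.span F S, ∑ j : Fin (N + 1), γ j * fr F (j : ℕ) a = 0 := by
    intro γ S hS a ha
    induction ha using Submodule.span_induction with
    | mem a ha => exact hS a ha
    | zero => simp
    | add a b _ _ ha hb =>
      simp only [map_add, mul_add, Finset.sum_add_distrib]
      rw [ha, hb, add_zero]
    | smul c a _ ha =>
      have h5 : ∀ j : Fin (N + 1), γ j * fr F (j : ℕ) (c • a) =
          c • (γ j * fr F (j : ℕ) a) := by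
        intro j
        rw [map_smul, mul_smul_comm]
      rw [Finset.sum_congr rfl fun j _ => h5 j, ← Finset.smul_sum, ha, smul_zero]
  have hβx : ∀ i, ∑ j : Fin (N + 1), β j * fr F (j : ℕ) ((x i : Fin m → L) l) = 0 := by
    intro i
    refine hadd β (Set.range u) ?_ _ (hxu i)
    rintro _ ⟨b, rfl⟩
    exact hβu b
  choose a ha using fun j => h1 l j
  have hβa : ∀ p, ∑ j : Fin (N + 1), β j * algebraMap E L (a j p) = 0 := by
    have h5 := Fintype.linearIndependent_iff.1 hbase
      (fun p => ∑ j : Fin (N + 1), β j * algebraMap E L (a j p)) (by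
        funext i
        rw [Finset.sum_apply]
        change ∑ p, (∑ j : Fin (N + 1), β j * algebraMap E L (a j p)) * base p (x i) = 0
        rw [← hβx i]
        simp only [Finset.sum_mul, ha, Finset.mul_sum]
        rw [Finset.sum_comm]
        exact Finset.sum_congr rfl fun j _ => Finset.sum_congr rfl fun p _ => by ring)
    exact h5
  obtain ⟨f, hf⟩ : ∃ f : Module.Dual E L, f (β j0) ≠ 0 := by
    by_contra hcon
    push Not at hcon
    exact hj0 ((Module.forall_dual_apply_eq_zero_iff E _).1 hcon)
  have hαx : ∀ i, ∑ j : Fin (N + 1), algebraMap E L (f (β j)) *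
      fr F (j : ℕ) ((x i : Fin m → L) l) = 0 := by
    intro i
    have h6 : ∀ p, ∑ j : Fin (N + 1), f (β j) * a j p = 0 := by
      intro p
      have h7 := congrArg f (hβa p)
      rw [map_sum, map_zero] at h7
      rw [← h7]
      refine Finset.sum_congr rfl fun j _ => ?_
      rw [mul_comm (β j), ← Algebra.smul_def, map_smul, smul_eq_mul, mul_comm]
    simp only [ha, Finset.mul_sum]
    rw [Finset.sum_comm]
    refine Finset.sum_eq_zero fun p _ => ?_
    have h7 : ∀ j : Fin (N + 1), algebraMap E L (f (β j)) *
        (algebraMap E L (a j p) * base p (x i)) =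
        algebraMap E L (f (β j) * a j p) * base p (x i) := by
      intro j
      rw [map_mul]
      ring
    rw [Finset.sum_congr rfl fun j _ => h7 j, ← Finset.sum_mul, ← map_sum, h6, map_zero, zero_mul]
  refine ⟨fun j => f (β j), fun h0 => hf (congrFun h0 j0), fun b => ?_⟩
  refine hadd (fun j => algebraMap E L (f (β j))) (Set.range fun i => (x i : Fin m → L) l) ?_ _ ?_
  · rintro _ ⟨i, rfl⟩
    exact hαx i
  · exact (bU b).2

/-- The charts are polynomial rings and contain the invariants. -/
theorem chart_final {R : Subalgebra k L} {r : X →ₗ[F] (Fin s → L)} {J : Type} [Fintype J]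
    (x : J → X) (hr : ∀ i, r (x i) = 0)
    (hdim : ∃ (P : Type) (_ : Fintype P) (base : P → X → L), Fintype.card P = Fintype.card J ∧
      Op F R (co X) ≤ spn R (gens F r ∪ Set.range base))
    (hint : ∀ (V : ValuationSubring L), (∀ a ∈ R, a ∈ V) → ∀ y : X, (∀ l, r y l ∈ V) →
      ∀ l, (y : Fin m → L) l ∈ V)
    (hx : LinearIndependent F fun i => (x i : Fin m → L))
    (hF : ∀ a : F, ∃ c : k, algebraMap k L c = algebraMap F L a)
    (hL : IntermediateField.adjoin k {a | ∃ i l, a = (x i : Fin m → L) l} = ⊤)
    {P : Type} [Fintype P] (w : P → L) (hw : R = Algebra.adjoin k (Set.range w))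
    (htr : (Fintype.card P : Cardinal) ≤ Algebra.trdeg k L) :
    Algebra.Smooth k R ∧
    ∀ b ∈ Algebra.adjoin k {a | ∃ i l, a = (x i : Fin m → L) l},
      (∀ σ : L →+* L, (∀ a ∈ R, σ a = a) → σ b = b) → b ∈ R := by
  classical
  subst hw
  let E := IntermediateField.adjoin k (Set.range w)
  have hgal : IsGalois E L := by
    have h0 := fun l => exists_rel (E := E) x hr hdim hx (fun a ha =>
        ⟨⟨a, IntermediateField.algebra_adjoin_le_adjoin k _ ha⟩, rfl⟩) l
    choose N u hu1 hu2 α hα1 hα2 using h0
    refine isGalois_of (E := E) {a | ∃ l b, a = u l b} ?_ ?_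
    · rw [eq_top_iff]
      intro a _
      have h1 : a ∈ IntermediateField.adjoin k {a | ∃ i l, a = (x i : Fin m → L) l} := by
        rw [hL]
        trivial
      have h2 : IntermediateField.adjoin k {a | ∃ i l, a = (x i : Fin m → L) l} ≤
          (IntermediateField.adjoin E {a | ∃ l b, a = u l b}).restrictScalars k := by
        rw [IntermediateField.adjoin_le_iff]
        rintro _ ⟨i, l, rfl⟩
        change (x i : Fin m → L) l ∈ IntermediateField.adjoin E {a | ∃ l b, a = u l b}
        refine Submodule.span_induction
          (p := fun a _ => a ∈ IntermediateField.adjoin E {a | ∃ l b, a = u l b}) ?_ ?_ ?_ ?_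
          (hu2 l i)
        · rintro _ ⟨b, rfl⟩
          exact IntermediateField.subset_adjoin E _ ⟨l, b, rfl⟩
        · exact zero_mem _
        · exact fun a b _ _ ha hb => add_mem ha hb
        · intro c a _ ha
          obtain ⟨c', hc'⟩ := hF c
          rw [Algebra.smul_def, ← hc']
          refine mul_mem ?_ ha
          exact (IntermediateField.adjoin E {a | ∃ l b, a = u l b}).algebraMap_mem
            (algebraMap k E c')
      exact h2 h1
    · rintro _ ⟨l, b, rfl⟩
      exact sep_split (u l) (hu1 l) (α l) (hα1 l) (hα2 l) b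
  have halg : Algebra.IsAlgebraic (Algebra.adjoin k (Set.range w)) L := by
    have h1 : Algebra.IsAlgebraic E L := inferInstance
    exact (IsFractionRing.comap_isAlgebraic_iff (A := Algebra.adjoin k (Set.range w)) (K := E)
      (C := L)).2 h1
  have htb : IsTranscendenceBasis k w := by
    refine Algebra.IsAlgebraic.isTranscendenceBasis_of_lift_le_trdeg_of_finite k w ?_
    have h1 : Cardinal.mk P = (Fintype.card P : Cardinal) := Cardinal.mk_fintype P
    rw [h1, Cardinal.lift_natCast]
    calc (Fintype.card P : Cardinal) = Cardinal.lift.{0} (Fintype.card P : Cardinal) := by simp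
      _ ≤ _ := Cardinal.lift_le.2 htr
  have hai : AlgebraicIndependent k w := htb.1
  let eqv := hai.aevalEquiv
  have hic : IsIntegrallyClosed (Algebra.adjoin k (Set.range w)) :=
    IsIntegrallyClosed.of_equiv eqv.toRingEquiv
  have hfp : Algebra.FinitePresentation k (MvPolynomial P k) := inferInstance
  have hsm : Algebra.Smooth k (MvPolynomial P k) := ⟨inferInstance, hfp⟩
  refine ⟨Algebra.Smooth.of_equiv eqv, fun b hb hσ => ?_⟩
  have hbint : IsIntegral (Algebra.adjoin k (Set.range w)) b := by
    refine isIntegral_of_val fun V hV => ?_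
    have hk : ∀ c : k, algebraMap k L c ∈ V := fun c => hV _ (Subalgebra.algebraMap_mem _ c)
    have h1 : Algebra.adjoin k {a | ∃ i l, a = (x i : Fin m → L) l} ≤ valAlg V hk := by
      refine Algebra.adjoin_le_iff.2 ?_
      rintro _ ⟨i, l, rfl⟩
      refine hint V hV (x i) (fun l => ?_) l
      rw [hr]
      exact V.zero_mem
    exact h1 hb
  have hbE : b ∈ Set.range (algebraMap E L) := by
    rw [InfiniteGalois.mem_range_algebraMap_iff_fixed]
    intro f
    refine hσ (f : L →+* L) fun a ha => ?_
    exact f.commutes ⟨a, IntermediateField.algebra_adjoin_le_adjoin k _ ha⟩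
  obtain ⟨b', rfl⟩ := hbE
  have h1 : IsIntegral (Algebra.adjoin k (Set.range w)) b' := by
    have h2 := (isIntegral_algHom_iff
      (IsScalarTower.toAlgHom (Algebra.adjoin k (Set.range w)) E L)
      (algebraMap E L).injective (x := b')).1 hbint
    exact h2
  obtain ⟨c, hc⟩ := IsIntegrallyClosed.isIntegral_iff.1 h1
  rw [← hc]
  exact c.2

end final

end Pool.Agent.R837.FM
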