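import Pool.Agent.R837.FM.Group

/-!
Galois theory of the extensions generated by the solutions, integrality.
-/

set_option autoImplicit false
set_option linter.unusedSectionVars false

open Finset Polynomial

universe u v w z

namespace Pool.Agent.R837.FM

section integral

variable {k : Type z} [Field k] {L : Type u} [Field L] [Algebra k L]

lemma isIntegral_of_val {R : Subalgebra k L} {a : L}
    (h : ∀ V : ValuationSubring L, (∀ b ∈ R, b ∈ V) → a ∈ V) : IsIntegral R a := by
  let R' : Subring L := (integralClosure R L).toSubring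
  have hR' : IsIntegrallyClosedIn R' L := inferInstanceAs (IsIntegrallyClosedIn (integralClosure R L) L)
  by_contra hcon
  have ha : a ∉ R' := hcon
  obtain ⟨V, hV, haV⟩ := Subring.exists_le_valuationSubring_of_isIntegrallyClosedIn ha
  apply haV
  apply h
  intro b hb
  apply hV
  exact (isIntegral_algebraMap (R := R) (A := L) (x := ⟨b, hb⟩) : IsIntegral R b)

end integral

section galois

variable {F : Type v} [Field F] [Fintype F] {L : Type u} [Field L] [Algebra F L]
  {E : Type w} [Field E] [Algebra E L] {n : ℕ}

/-- The additive polynomial. -/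
noncomputable def addPoly (F : Type v) [Field F] [Fintype F] {E : Type w} [Field E] {n : ℕ}
    (α : Fin (n + 1) → E) : E[X] :=
  ∑ j : Fin (n + 1), C (α j) * X ^ (Fintype.card F ^ (j : ℕ))

lemma addPoly_coeff (α : Fin (n + 1) → E) (j : Fin (n + 1)) :
    (addPoly F α).coeff (Fintype.card F ^ (j : ℕ)) = α j := by
  unfold addPoly
  rw [finsetSum_coeff, Finset.sum_eq_single j]
  · rw [coeff_C_mul, coeff_X_pow, if_pos rfl, mul_one]
  · intro j' _ hj
    rw [coeff_C_mul, coeff_X_pow, if_neg, mul_zero]
    intro h
    apply hj
    exact Fin.ext (Nat.pow_right_injective Fintype.one_lt_card h).symm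
  · intro h
    exact absurd (Finset.mem_univ j) h

lemma addPoly_natDegree (α : Fin (n + 1) → E) :
    (addPoly F α).natDegree ≤ Fintype.card F ^ n := by
  refine natDegree_sum_le_of_forall_le _ _ fun j _ => ?_
  refine (natDegree_C_mul_X_pow_le _ _).trans (Nat.pow_le_pow_right Fintype.card_pos ?_)
  have := j.2
  omega

lemma addPoly_eval (α : Fin (n + 1) → E) (a : L) :
    eval a ((addPoly F α).map (algebraMap E L)) =
      ∑ j : Fin (n + 1), algebraMap E L (α j) * fr F (j : ℕ) a := by
  unfold addPoly
  rw [Polynomial.map_sum, eval_finsetSum]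
  refine Finset.sum_congr rfl fun j _ => ?_
  rw [Polynomial.map_mul, map_C, Polynomial.map_pow, map_X, eval_mul, eval_C, eval_pow, eval_X,
    fr_apply]

/-- The elements killed by an additive polynomial of minimal degree are separable, their minimal
polynomials split. -/
theorem sep_split (x : Fin n → L) (hx : LinearIndependent F x) (α : Fin (n + 1) → E)
    (hα : α ≠ 0) (h : ∀ i, ∑ j : Fin (n + 1), algebraMap E L (α j) * fr F (j : ℕ) (x i) = 0)
    (i : Fin n) : IsSeparable E (x i) ∧ IsIntegral E (x i) ∧
      ((minpoly E (x i)).map (algebraMap E L)).Splits := by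
  classical
  let f := addPoly F α
  have hf0 : f ≠ 0 := by
    intro h0
    apply hα
    funext j
    rw [← addPoly_coeff (F := F) α j]
    change f.coeff _ = 0
    rw [h0, coeff_zero]
  let fL := f.map (algebraMap E L)
  have hfL0 : fL ≠ 0 := (Polynomial.map_ne_zero_iff (algebraMap E L).injective).2 hf0
  have hroot : ∀ b : Fin n → F, eval (∑ i, b i • x i) fL = 0 := by
    intro b
    change eval _ ((addPoly F α).map (algebraMap E L)) = 0
    rw [addPoly_eval]
    have h1 : ∀ j : Fin (n + 1), algebraMap E L (α j) * fr F (j : ℕ) (∑ i, b i • x i) =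
        ∑ i, b i • (algebraMap E L (α j) * fr F (j : ℕ) (x i)) := by
      intro j
      rw [map_sum, Finset.mul_sum]
      exact Finset.sum_congr rfl fun i _ => by rw [map_smul, mul_smul_comm]
    rw [Finset.sum_congr rfl fun j _ => h1 j, Finset.sum_comm]
    refine Finset.sum_eq_zero fun i _ => ?_
    rw [← Finset.smul_sum, h, smul_zero]
  let Z : Finset L := univ.image fun b : Fin n → F => ∑ i, b i • x i
  have hZ : Z.card = Fintype.card F ^ n := by
    rw [card_image_of_injective, card_univ, Fintype.card_fun, Fintype.card_fin]
    intro b b' hbb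
    have h2 := Fintype.linearIndependent_iff.1 hx (b - b') (by
      simp only [Pi.sub_apply, sub_smul, Finset.sum_sub_distrib]
      exact sub_eq_zero.2 hbb)
    funext i
    exact sub_eq_zero.1 (h2 i)
  have hsub : Z ⊆ fL.roots.toFinset := by
    intro y hy
    obtain ⟨b, -, rfl⟩ := mem_image.1 hy
    rw [Multiset.mem_toFinset, mem_roots hfL0]
    exact hroot b
  have h1 := card_le_card hsub
  have h2 := Multiset.toFinset_card_le fL.roots
  have h3 := fL.card_roots'
  have h4 : fL.natDegree = f.natDegree := natDegree_map _
  have h5 : f.natDegree ≤ Fintype.card F ^ n := addPoly_natDegree α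
  have hspl : fL.Splits := by
    rw [splits_iff_card_roots]
    omega
  have hnodup : fL.roots.Nodup := by
    rw [← Multiset.toFinset_card_eq_card_iff_nodup]
    omega
  have hsep : f.Separable := by
    have h6 := (nodup_roots_iff_of_splits hfL0 hspl).1 hnodup
    exact (Polynomial.separable_map (algebraMap E L)).1 h6
  have hev : aeval (x i) f = 0 := by
    have h6 := hroot (Pi.single i 1)
    have h7 : ∑ i', (Pi.single i (1 : F) : Fin n → F) i' • x i' = x i := by
      rw [Finset.sum_eq_single i]
      · rw [Pi.single_eq_same, one_smul]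
      · intro i' _ hi
        rw [Pi.single_eq_of_ne hi, zero_smul]
      · intro h
        exact absurd (Finset.mem_univ i) h
    rw [h7] at h6
    rw [aeval_def, ← eval_map]
    exact h6
  have hdvd := minpoly.dvd E (x i) hev
  have hint : IsIntegral E (x i) := by
    rw [← isAlgebraic_iff_isIntegral]
    exact ⟨f, hf0, hev⟩
  refine ⟨hsep.of_dvd hdvd, hint, ?_⟩
  exact hspl.of_dvd hfL0 (Polynomial.map_dvd _ hdvd)

/-- Galois extensions generated by elements with separable split minimal polynomials. -/
theorem isGalois_of (S : Set L) (hS : IntermediateField.adjoin E S = ⊤)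
    (h : ∀ x ∈ S, IsSeparable E x ∧ IsIntegral E x ∧
      ((minpoly E x).map (algebraMap E L)).Splits) : IsGalois E L := by
  have h1 : Algebra.IsSeparable E L := by
    rw [← IntermediateField.isSeparable_top, ← hS, IntermediateField.isSeparable_adjoin_iff_isSeparable]
    exact fun x hx => (h x hx).1
  have h2 : Algebra.IsAlgebraic E L := inferInstance
  rw [isGalois_iff]
  refine ⟨h1, ?_⟩
  rw [normal_iff]
  intro x
  refine ⟨Algebra.IsIntegral.isIntegral x, ?_⟩
  refine IntermediateField.splits_of_mem_adjoin (F := E) (K := L) (L := L) (S := S)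
    (fun y hy => ⟨(h y hy).2.1, (h y hy).2.2⟩) ?_
  rw [hS]
  trivial

end galois

end Pool.Agent.R837.FM
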