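import Pool.Agent.H920R2.Up1
import Pool.Agent.R837.FM.Basic

/-!
Gluing of smooth charts inside a field to a resolution of singularities.
-/

set_option autoImplicit false
set_option linter.unusedSectionVars false

open AlgebraicGeometry CategoryTheory

universe u v w

namespace Pool.Agent.R837.FM

section loc

variable {k : Type u} [Field k] {K : Type v} [Field K] [Algebra k K]

/-- The algebra `R[1 / u]`. -/
noncomputable def Loc (R : Subalgebra k K) (u : K) : Subalgebra k K :=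
  R ⊔ Algebra.adjoin k {u⁻¹}

lemma le_loc (R : Subalgebra k K) (u : K) : R ≤ Loc R u := le_sup_left

lemma inv_mem_loc (R : Subalgebra k K) (u : K) : u⁻¹ ∈ Loc R u :=
  (le_sup_right : Algebra.adjoin k {u⁻¹} ≤ Loc R u) (Algebra.subset_adjoin rfl)

lemma loc_le {R S : Subalgebra k K} {u : K} (h : R ≤ S) (hu : u⁻¹ ∈ S) : Loc R u ≤ S :=
  sup_le h (Algebra.adjoin_le_iff.2 (Set.singleton_subset_iff.2 hu))

lemma loc_mono {R S : Subalgebra k K} (h : R ≤ S) (u : K) : Loc R u ≤ Loc S u :=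
  loc_le (h.trans (le_loc S u)) (inv_mem_loc S u)

/-- Localization at a factor. -/
lemma loc_le_of_mul {R : Subalgebra k K} {u v : K} (hv : v ∈ R) (hv0 : v ≠ 0) :
    Loc R u ≤ Loc R (u * v) := by
  refine loc_le (le_loc _ _) ?_
  have h : u⁻¹ = v * (u * v)⁻¹ := by
    rw [mul_inv]
    field_simp
  rw [h]
  exact Subalgebra.mul_mem _ (le_loc _ _ hv) (inv_mem_loc _ _)

lemma exists_pow_mul {R : Subalgebra k K} {u : K} (hu : u ∈ R) (hu0 : u ≠ 0) {x : K}
    (hx : x ∈ Loc R u) : ∃ n : ℕ, u ^ n * x ∈ R := by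
  let S : Subalgebra k K :=
    { carrier := {x | ∃ n : ℕ, u ^ n * x ∈ R}
      mul_mem' := by
        rintro a b ⟨n, hn⟩ ⟨m, hm⟩
        refine ⟨n + m, ?_⟩
        have : u ^ (n + m) * (a * b) = (u ^ n * a) * (u ^ m * b) := by ring
        rw [this]
        exact R.mul_mem hn hm
      add_mem' := by
        rintro a b ⟨n, hn⟩ ⟨m, hm⟩
        refine ⟨n + m, ?_⟩
        have : u ^ (n + m) * (a + b) = u ^ m * (u ^ n * a) + u ^ n * (u ^ m * b) := by ring
        rw [this]
        exact R.add_mem (R.mul_mem (R.pow_mem hu _) hn) (R.mul_mem (R.pow_mem hu _) hm)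
      algebraMap_mem' := fun r => ⟨0, by
        rw [pow_zero, one_mul]
        exact R.algebraMap_mem r⟩ }
  have h1 : Loc R u ≤ S := by
    refine loc_le (fun y hy => ⟨0, by rw [pow_zero, one_mul]; exact hy⟩) ⟨1, ?_⟩
    rw [pow_one, mul_inv_cancel₀ hu0]
    exact R.one_mem
  exact h1 hx

lemma mem_loc_of_pow {R : Subalgebra k K} {u : K} (hu0 : u ≠ 0) {x : K} {n : ℕ}
    (h : u ^ n * x ∈ R) : x ∈ Loc R u := by
  have h1 : x = (u⁻¹) ^ n * (u ^ n * x) := by
    rw [← mul_assoc, ← mul_pow, inv_mul_cancel₀ hu0, one_pow, one_mul]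
  rw [h1]
  exact Subalgebra.mul_mem _ (Subalgebra.pow_mem _ (inv_mem_loc _ _) _) (le_loc _ _ h)

end loc

section glue

variable {k A K : Type u} [Field k] [CommRing A] [IsDomain A] [Algebra k A] [Field K]
  [Algebra k K] {g : A →ₐ[k] K} (hg : Function.Injective g)

include hg in
/-- Smooth charts which glue and satisfy the valuative criterion give a resolution. -/
theorem hasResolution_glue {T : Type w} [Finite T] {C : T → Subalgebra k K} {H : T → K}
    (H0 : ∀ t, H t ≠ 0) (hA : ∀ t, ∃ a, H t = g a) (sm : ∀ t, Algebra.Smooth k (C t))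
    (aa : ∀ t a, g a ∈ C t) (rt : ∀ t t', H t' / H t ∈ C t)
    (gl : ∀ t t', C t' ≤ Loc (C t) (H t' / H t))
    (dn : ∀ t, ∀ x ∈ C t, ∃ (n : ℕ) (a : A), H t ^ n * x = g a)
    (cv : ∀ V : ValuationSubring K, (∀ a, g a ∈ V) → ∃ t, ∀ x ∈ C t, x ∈ V) :
    Pool.Agent.H920R2.HasResolution (X := Spec (CommRingCat.of A))
      (Spec.map (CommRingCat.ofHom (algebraMap k A))) := by
  classical
  have : Fintype T := Fintype.ofFinite T
  have hdiv0 : ∀ t t', H t' / H t ≠ 0 := fun t t' => div_ne_zero (H0 t') (H0 t)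
  have hfg : ∀ t, ∃ G : Finset K, Algebra.adjoin k (G : Set K) = C t := by
    intro t
    have h1 := sm t
    have h2 : Algebra.FiniteType k (C t) := inferInstance
    obtain ⟨G, hG⟩ := (Subalgebra.fg_iff_finiteType _).2 h2
    exact ⟨G, hG⟩
  choose G hG using hfg
  have hGm : ∀ t, ∀ x ∈ G t, x ∈ C t := by
    intro t x hx
    rw [← hG t]
    exact Algebra.subset_adjoin hx
  -- a common exponent
  have h1 : ∀ p : (Σ t, {x // x ∈ G t}), ∃ n : ℕ, (∃ a, H p.1 ^ n * p.2.1 = g a) ∧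
      ∀ t, ((H p.1 / H t) ^ n * p.2.1) ∈ C t := by
    rintro ⟨t, x, hx⟩
    obtain ⟨n, a, ha⟩ := dn t x (hGm t x hx)
    choose m hm' using fun t' => exists_pow_mul (rt t' t) (hdiv0 t' t) (gl t' t (hGm t x hx))
    obtain ⟨b, hb⟩ := hA t
    refine ⟨n + Finset.univ.sup m, ⟨b ^ (Finset.univ.sup m) * a, ?_⟩, ?_⟩
    · rw [map_mul, map_pow, ← ha, ← hb]; ring
    · intro t'
      have h2 : m t' ≤ Finset.univ.sup m := Finset.le_sup (Finset.mem_univ t')
      obtain ⟨e, he⟩ := Nat.exists_eq_add_of_le h2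
      have h3 : (H t / H t') ^ (n + Finset.univ.sup m) * x =
          (H t / H t') ^ (n + e) * ((H t / H t') ^ m t' * x) := by
        rw [he]
        ring
      change (H t / H t') ^ (n + Finset.univ.sup m) * x ∈ C t'
      rw [h3]
      exact (C t').mul_mem ((C t').pow_mem (rt t' t) _) (hm' t')
  choose N hN1 hN2 using h1
  let M : ℕ := Finset.univ.sup N
  have hNM : ∀ p, N p ≤ M := fun p => Finset.le_sup (Finset.mem_univ p)
  choose b hb using hA
  have h2 : ∀ p : (Σ t, {x // x ∈ G t}), ∃ a, H p.1 ^ M * p.2.1 = g a := by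
    intro p
    obtain ⟨a, ha⟩ := hN1 p
    obtain ⟨e, he⟩ := Nat.exists_eq_add_of_le (hNM p)
    refine ⟨b p.1 ^ e * a, ?_⟩
    rw [map_mul, map_pow, ← ha, ← hb, he]; ring
  choose a ha using h2
  let z : T ⊕ (Σ t, {x // x ∈ G t}) → A := Sum.elim (fun t => b t ^ M) a
  have hz : ∀ t i, (g (z i) / g (z (Sum.inl t))) ∈ C t := by
    intro t i
    have e0 : g (z (Sum.inl t)) = H t ^ M := by
      change g (b t ^ M) = _
      rw [map_pow, ← hb]
    rw [e0]
    rcases i with t' | p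
    · have e1 : g (z (Sum.inl t')) = H t' ^ M := by
        change g (b t' ^ M) = _
        rw [map_pow, ← hb]
      rw [e1, ← div_pow]
      exact (C t).pow_mem (rt t t') M
    · have e1 : g (z (Sum.inr p)) = H p.1 ^ M * p.2.1 := (ha p).symm
      obtain ⟨e, he⟩ := Nat.exists_eq_add_of_le (hNM p)
      have e2 : (H p.1 ^ M * p.2.1 / H t ^ M) =
          (H p.1 / H t) ^ e * ((H p.1 / H t) ^ N p * p.2.1) := by
        rw [he, ← mul_assoc, ← pow_add, div_pow, add_comm]
        ring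
      rw [e1, e2]
      exact (C t).mul_mem ((C t).pow_mem (rt t p.1) _) (hN2 p t)
  have hz0 : ∀ t, z (Sum.inl t) ≠ 0 := by
    intro t h0
    have e0 : g (z (Sum.inl t)) = H t ^ M := by
      change g (b t ^ M) = _
      rw [map_pow, ← hb]
    rw [h0, map_zero] at e0
    exact pow_ne_zero M (H0 t) e0.symm
  refine Pool.Agent.H920R2.hasResolution_of_charts' g hg z (Set.range Sum.inl) ?_ ?_
  · intro V hV
    obtain ⟨t, ht⟩ := cv V hV
    exact ⟨Sum.inl t, ⟨t, rfl⟩, hz0 t, fun i => ht _ (hz t i)⟩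
  · rintro _ ⟨t, rfl⟩ -
    refine ⟨C t, sm t, fun a => aa t a, fun i => hz t i, ?_⟩
    rw [← hG t, Algebra.adjoin_le_iff]
    intro x hx
    apply Algebra.subset_adjoin
    right
    refine ⟨Sum.inr ⟨t, x, hx⟩, ?_⟩
    have e0 : g (z (Sum.inl t)) = H t ^ M := by
      change g (b t ^ M) = _
      rw [map_pow, ← hb]
    have e1 : g (z (Sum.inr ⟨t, x, hx⟩)) = H t ^ M * x := (ha ⟨t, x, hx⟩).symm
    change g (z (Sum.inr ⟨t, x, hx⟩)) / g (z (Sum.inl t)) = x
    rw [e0, e1]
    have := pow_ne_zero M (H0 t)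
    field_simp

end glue

end Pool.Agent.R837.FM
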