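import Pool.Agent.R837.FM.Step2

/-!
The group action on the charts and the number of generators of the charts.
-/

set_option autoImplicit false
set_option linter.unusedSectionVars false

open Finset

universe u v w z

namespace Pool.Agent.R837.FM

section fixalg

variable {k : Type z} [Field k] {L : Type u} [Field L] [Algebra k L]

/-- The fixed elements of an endomorphism of a field. -/
def fixAlg (σ : L →+* L) (h : ∀ c : k, σ (algebraMap k L c) = algebraMap k L c) :
    Subalgebra k L where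
  carrier := {a | σ a = a}
  mul_mem' := fun {a b} ha hb => by
    change σ (a * b) = a * b
    rw [map_mul, ha, hb]
  add_mem' := fun {a b} ha hb => by
    change σ (a + b) = a + b
    rw [map_add, ha, hb]
  algebraMap_mem' := h

lemma fix_of_le {R Q : Subalgebra k L} (σ : L →+* L) (hR : ∀ a ∈ R, σ a = a)
    (h : (∀ c : k, σ (algebraMap k L c) = algebraMap k L c) → ∀ (W : Subalgebra k L),
      (∀ a, a ∈ W ↔ σ a = a) → R ≤ W → Q ≤ W) : ∀ a ∈ Q, σ a = a := by
  have hk : ∀ c : k, σ (algebraMap k L c) = algebraMap k L c := fun c => hR _ (R.algebraMap_mem c)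
  intro a ha
  exact h hk (fixAlg σ hk) (fun a => Iff.rfl) (fun a ha => hR a ha) ha

end fixalg

section group

variable {F : Type v} [Field F] [Fintype F] {k : Type z} [Field k] {L : Type u} [Field L]
  [Algebra F L] [Algebra k L] {m s : ℕ}
  {B : Subalgebra k L} {X Λ : Submodule F (Fin m → L)} {N : ℕ} {T : Type}
  {R : T → Subalgebra k L} {H : T → L} {r : T → X →ₗ[F] (Fin s → L)}
  {ι : Type} [Fintype ι] [DecidableEq ι] {x : ι → X} {e : ℕ}

/-- The action on the columns. -/
lemma sigma_col (σ : L →+* L) (y : ι → Fin s → L) (g : Matrix ι ι F) (hg : ∀ i l, σ (y i l) = ∑ j, g i j • y j l)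
    (l : Fin s) (j : ℕ) (i : ι) : σ (col F y l j i) = ∑ i', g i i' • col F y l j i' := by
  change σ (fr F j (y i l)) = ∑ i', g i i' • fr F j (y i' l)
  rw [fr_apply, map_pow, hg, ← fr_apply, map_sum]
  exact Finset.sum_congr rfl fun i' _ => by rw [map_smul]

lemma sigma_Δ (σ : L →+* L)
    {y : ι → Fin s → L} {d : Fin s → ℕ} (G : Good F y d) (g : Matrix ι ι F)
    (hg : ∀ i l, σ (y i l) = ∑ j, g i j • y j l) : σ G.Δ = algebraMap F L g.det * G.Δ := by
  have h1 : σ.mapMatrix (fm (fam F y d) G.e) = (g.map (algebraMap F L)) * fm (fam F y d) G.e := by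
    ext i i'
    rw [Matrix.mul_apply]
    change σ (col F y (G.e i').1 (G.e i').2 i) = _
    rw [sigma_col σ y g hg]
    exact Finset.sum_congr rfl fun i'' _ => Algebra.smul_def _ _
  have h2 : (g.map (algebraMap F L)).det = algebraMap F L g.det := by
    rw [RingHom.map_det]
    rfl
  change σ (fm (fam F y d) G.e).det = algebraMap F L g.det * (fm (fam F y d) G.e).det
  rw [RingHom.map_det, h1, Matrix.det_mul, h2]

lemma sigma_c (σ : L →+* L)
    {y : ι → Fin s → L} {d : Fin s → ℕ} (G : Good F y d) (g : Matrix ι ι F)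
    (hg : ∀ i l, σ (y i l) = ∑ j, g i j • y j l) (hdet : g.det ≠ 0) (l : Fin s) (p : Idx d) :
    σ (G.c l p) = G.c l p := by
  have h1 : (fun p => σ (G.c l p)) = G.c l := by
    apply G.unique
    intro i
    have h2 : (g.map (algebraMap F L)).mulVec (fun i => ∑ p, σ (G.c l p) * fam F y d p i -
        ∑ p, G.c l p * fam F y d p i) = 0 := by
      funext i
      change ∑ i', algebraMap F L (g i i') * (∑ p, σ (G.c l p) * fam F y d p i' -
        ∑ p, G.c l p * fam F y d p i') = 0
      have h3 : ∀ i', algebraMap F L (g i i') * (∑ p, σ (G.c l p) * fam F y d p i' -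
          ∑ p, G.c l p * fam F y d p i') = ∑ p, σ (G.c l p) * (g i i' • fam F y d p i') -
          g i i' • col F y l (d l) i' := by
        intro i'
        rw [mul_sub]
        congr 1
        · rw [Finset.mul_sum]
          exact Finset.sum_congr rfl fun p _ => by rw [Algebra.smul_def]; ring
        · rw [G.hc l i', Algebra.smul_def]
      rw [Finset.sum_congr rfl fun i' _ => h3 i', Finset.sum_sub_distrib, Finset.sum_comm]
      rw [← sigma_col σ y g hg, G.hc l i, map_sum, sub_eq_zero]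
      refine Finset.sum_congr rfl fun p _ => ?_
      rw [← Finset.mul_sum, map_mul]
      congr 1
      exact (sigma_col σ y g hg p.1 p.2 i).symm
    have h4 : (g.map (algebraMap F L)).det ≠ 0 := by
      have : (g.map (algebraMap F L)).det = algebraMap F L g.det := by
        rw [RingHom.map_det]
        rfl
      rw [this]
      exact (map_ne_zero _).2 hdet
    have h5 := congrFun (Matrix.eq_zero_of_mulVec_eq_zero h4 h2) i
    exact sub_eq_zero.1 h5
  exact congrFun h1 p

/-- The group fixes the new charts. -/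
theorem fix_step (σ : L →+* L)
    (τ : TT r x) (hR : ∀ a ∈ R τ.1.1, σ a = a) (g : Matrix ι ι F)
    (hg : ∀ i l, σ (r τ.1.1 (x i) l) = ∑ j, g i j • r τ.1.1 (x j) l) (he : g.det ^ e = 1)
    (he0 : 0 < e) (hH : σ (H τ.1.1) = H τ.1.1) (M : ℕ) :
    (∀ a ∈ RR R e τ, σ a = a) ∧ σ (HH H M e τ) = HH H M e τ := by
  have hdet : g.det ≠ 0 := by
    intro h0
    rw [h0, zero_pow (by omega)] at he
    exact zero_ne_one he
  have hΔ : σ (τ.2.Δ ^ e) = τ.2.Δ ^ e := by
    rw [map_pow, sigma_Δ σ τ.2 g hg, mul_pow, ← map_pow, he, map_one, one_mul]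
  refine ⟨fix_of_le σ hR fun hk W hW hRW => ?_, ?_⟩
  · exact τ.2.alg_le hRW ((hW _).2 hΔ) fun l p => (hW _).2 (sigma_c σ τ.2 g hg hdet l p)
  · change σ (H τ.1.1 ^ M * τ.2.Δ ^ e) = H τ.1.1 ^ M * τ.2.Δ ^ e
    rw [map_mul, map_pow, hH, hΔ]

/-- The image of an element of `X`. -/
lemma sigma_r (S : Stage F B X Λ N R H r) (σ : L →+* L) (t : T) (hR : ∀ a ∈ R t, σ a = a)
    (y y' : X) (hy : ∀ l, σ ((y : Fin m → L) l) = (y' : Fin m → L) l) (l : Fin s) :
    σ (r t y l) = r t y' l :=
  op_eval_eq (S.coef t l) σ hR hy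

/-- The automorphisms over a new chart are given by matrices. -/
theorem conv_step (S : Stage F B X Λ N R H r)
    (hind : ∀ a : ι → F, ((∑ i, a i • x i : X) : Fin m → L) ∈ Λ → a = 0)
    (σ : L →+* L) (hX : ∀ y ∈ X, (fun l => σ (y l)) ∈ X) (τ : TT r x) (hR : ∀ a ∈ RR R e τ, σ a = a) :
    ∃ g : Matrix ι ι F, g.det ^ e = 1 ∧
      ∀ i, (fun l => σ ((x i : Fin m → L) l)) - ∑ j, g i j • (x j : Fin m → L) ∈ Λ := by
  classical
  have hRt : ∀ a ∈ R τ.1.1, σ a = a := fun a ha => hR a (τ.2.le_alg ha)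
  let x' : ι → X := fun i => ⟨fun l => σ ((x i : Fin m → L) l), hX _ (x i).2⟩
  have h1 : ∀ i, rr τ (x' i) = 0 := by
    intro i
    funext l
    have h2 : (fun y => rr τ y l) ∈ Op F (RR R e τ) (co X) :=
      rr_mem_op τ (fun l => op_mono τ.2.le_alg _ (S.coef _ l)) (fun l p => τ.2.c_mem l p) l
    have h3 := op_eval_eq h2 σ hR (x := x i) (x' := x' i) fun l => rfl
    rw [rr_x, Pi.zero_apply, map_zero] at h3
    exact h3.symm
  have h2 : ∀ i, ∃ b : ι → F, (fun l => σ ((x i : Fin m → L) l)) -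
      ∑ j, b j • (x j : Fin m → L) ∈ Λ := by
    intro i
    obtain ⟨w0, hw0, w, hw, h3⟩ := Submodule.mem_sup.1 ((ker_step S.ker hind τ (x' i)).1 (h1 i))
    obtain ⟨b, hb⟩ := (Submodule.mem_span_range_iff_exists_fun F).1 hw
    refine ⟨b, ?_⟩
    rw [hb]
    have h4 : (fun l => σ ((x i : Fin m → L) l)) = w0 + w := h3.symm
    rw [h4, add_sub_cancel_right]
    exact hw0
  choose g hg using h2
  refine ⟨Matrix.of g, ?_, hg⟩
  have h3 : ∀ i l, σ (r τ.1.1 (x i) l) = ∑ j, (Matrix.of g) i j • r τ.1.1 (x j) l := by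
    intro i l
    rw [sigma_r S σ τ.1.1 hRt (x i) (x' i) (fun l => rfl)]
    have h4 : r τ.1.1 (x' i - ∑ j, g i j • x j) = 0 := by
      rw [S.ker]
      rw [Submodule.coe_sub, Submodule.coe_sum]
      exact hg i
    rw [map_sub, sub_eq_zero] at h4
    rw [h4, map_sum, Finset.sum_apply]
    exact Finset.sum_congr rfl fun j _ => by rw [map_smul]; rfl
  have h5 := sigma_Δ σ τ.2 (Matrix.of g) h3
  have h6 := hR _ (τ.2.Δ_mem (R := R τ.1.1) (e := e))
  rw [map_pow, h5, mul_pow] at h6
  have h7 : (algebraMap F L (Matrix.of g).det) ^ e = 1 :=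
    mul_right_cancel₀ (pow_ne_zero e τ.2.Δ_ne) (h6.trans (one_mul _).symm)
  rw [← map_pow] at h7
  exact (algebraMap F L).injective (h7.trans (map_one _).symm)

end group

section gens

variable {F : Type v} [Field F] [Fintype F] {k : Type z} [Field k] {L : Type u} [Field L]
  [Algebra F L] [Algebra k L] {s : ℕ} {ι : Type} [Fintype ι] [DecidableEq ι]
  {y : ι → Fin s → L} {d : Fin s → ℕ}

lemma Δ_pow_mem (G : Good F y d) {Q : Subalgebra k L} (hc : ∀ l p, G.c l p ∈ Q) :
    G.Δ ^ (Fintype.card F - 1) ∈ Q := by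
  obtain ⟨ρ, hρ, h1⟩ := exists_mul_of_cols G.e (g := fam F y d) (Q := Q)
    (W := (fr F 1 : L →ₐ[F] L).mapMatrix (fm (fam F y d) G.e)) (by
      intro i'
      have h2 : ((fr F 1 : L →ₐ[F] L).mapMatrix (fm (fam F y d) G.e)).col i' =
          col F y (G.e i').1 ((G.e i').2 + 1) := by
        funext i
        exact (fr_succ F _ _).symm
      rw [h2]
      exact col_mem_spn hc G.hc _ _)
  rw [← AlgHom.map_det] at h1
  have h2 : G.Δ ^ Fintype.card F = G.Δ * ρ := by
    rw [← fr_one F]
    exact h1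
  have h3 : G.Δ ^ (Fintype.card F - 1) = ρ := by
    apply mul_left_cancel₀ G.Δ_ne
    rw [← h2, mul_comm, ← pow_succ, Nat.sub_add_cancel Fintype.card_pos]
  rw [h3]
  exact hρ

theorem gen_general (G : Good F y d) (R : Subalgebra k L) :
    ∃ (P : Type) (_ : Fintype P) (w : P → L), Fintype.card P = s * Fintype.card ι ∧
      G.alg R (Fintype.card F - 1) = R ⊔ Algebra.adjoin k (Set.range w) := by
  refine ⟨Fin s × Idx d, inferInstance, fun p => G.c p.1 p.2, ?_, ?_⟩
  · rw [Fintype.card_prod, Fintype.card_fin, G.card]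
  · have hc : ∀ l p, G.c l p ∈
        R ⊔ Algebra.adjoin k (Set.range fun p : Fin s × Idx d => G.c p.1 p.2) := fun l p =>
      (le_sup_right : Algebra.adjoin k (Set.range fun p : Fin s × Idx d => G.c p.1 p.2) ≤ _)
        (Algebra.subset_adjoin ⟨(l, p), rfl⟩)
    apply le_antisymm
    · exact G.alg_le le_sup_left (Δ_pow_mem G hc) hc
    · refine sup_le G.le_alg (Algebra.adjoin_le_iff.2 ?_)
      rintro _ ⟨p, rfl⟩
      exact G.c_mem _ _

theorem gen_one (G : Good F y d) (R : Subalgebra k L) (hι : Fintype.card ι = 1) (e : ℕ)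
    (he : e ∣ Fintype.card F - 1) :
    ∃ (P : Type) (_ : Fintype P) (w : P → L), Fintype.card P = s * Fintype.card ι ∧
      G.alg R e = R ⊔ Algebra.adjoin k (Set.range w) := by
  classical
  have h1 : Fintype.card (Idx d) = 1 := by rw [← G.card, hι]
  obtain ⟨p0, hp0⟩ := Fintype.card_eq_one_iff.1 h1
  obtain ⟨i0, hi0⟩ := Fintype.card_eq_one_iff.1 hι
  refine ⟨Fin s, inferInstance, fun l => if l = p0.1 then G.Δ ^ e else G.c l p0, ?_, ?_⟩
  · rw [Fintype.card_fin, hι, mul_one]
  · set Q := R ⊔ Algebra.adjoin k (Set.range fun l => if l = p0.1 then G.Δ ^ e else G.c l p0)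
      with hQ
    have hin : ∀ l, (if l = p0.1 then G.Δ ^ e else G.c l p0) ∈ Q := fun l =>
      (le_sup_right : Algebra.adjoin k (Set.range fun l => if l = p0.1 then G.Δ ^ e
        else G.c l p0) ≤ _) (Algebra.subset_adjoin ⟨l, rfl⟩)
    have hΔ : G.Δ ^ e ∈ Q := by
      have := hin p0.1
      rwa [if_pos rfl] at this
    have hd0 : d p0.1 = 1 := by
      have h2 := p0.2.2
      by_contra h3
      have h4 : 1 < d p0.1 := by omega
      have h5 := hp0 ⟨p0.1, ⟨0, by omega⟩⟩
      have h6 := hp0 ⟨p0.1, ⟨1, h4⟩⟩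
      have h7 := h5.trans h6.symm
      have h8 := eq_of_heq (Sigma.mk.inj h7).2
      have h9 := congrArg Fin.val h8
      simp at h9
    have hp2 : (p0.2 : ℕ) = 0 := by have := p0.2.2; omega
    have hc : ∀ l p, G.c l p ∈ Q := by
      intro l p
      rw [hp0 p]
      by_cases hl : l = p0.1
      · -- the coordinate is a power of `Δ`
        have h2 := G.hc l i0
        have h3 : ∑ p, G.c l p * fam F y d p i0 = G.c l p0 * fam F y d p0 i0 := by
          rw [Finset.sum_eq_single p0]
          · intro p _ hp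
            exact absurd (hp0 p) hp
          · intro h
            exact absurd (Finset.mem_univ _) h
        have h4 : fam F y d p0 i0 = G.Δ := by
          let _ : Unique ι := ⟨⟨i0⟩, hi0⟩
          change _ = (fm (fam F y d) G.e).det
          rw [Matrix.det_unique]
          change fam F y d p0 i0 = fam F y d (G.e i0) i0
          rw [hp0 (G.e i0)]
        have h5 : col F y l (d l) i0 = G.Δ ^ Fintype.card F := by
          rw [← h4, hl, hd0]
          change fr F 1 (y i0 p0.1) = (fr F p0.2 (y i0 p0.1)) ^ Fintype.card F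
          rw [hp2, fr_zero, fr_one]
        rw [h3, h4, h5] at h2
        obtain ⟨b, hb⟩ := he
        have h6 : G.c l p0 = (G.Δ ^ e) ^ b := by
          apply mul_right_cancel₀ G.Δ_ne
          rw [← h2, ← pow_mul, ← hb, ← pow_succ, Nat.sub_add_cancel Fintype.card_pos]
        rw [h6]
        exact Subalgebra.pow_mem _ hΔ _
      · have := hin l
        rwa [if_neg hl] at this
    apply le_antisymm
    · exact G.alg_le le_sup_left hΔ hc
    · refine sup_le G.le_alg (Algebra.adjoin_le_iff.2 ?_)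
      rintro _ ⟨l, rfl⟩
      change (if l = p0.1 then G.Δ ^ e else G.c l p0) ∈ _
      split_ifs
      · exact G.Δ_mem
      · exact G.c_mem _ _

end gens

end Pool.Agent.R837.FM
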