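import Pool.Agent.R837.FM.Basic

/-!
The lattice generated by the Frobenius powers of vectors with integral coordinates over a valuation
ring has a basis of the form `φ ^ j e_l`, `j < d l`.
-/

set_option autoImplicit false
set_option linter.unusedSectionVars false

open Finset

universe u v

namespace Pool.Agent.R837.FM

variable {F : Type v} [Field F] [Fintype F] {L : Type u} [Field L] [Algebra F L]
  {ι : Type} [Fintype ι] {m : ℕ}

/-- The vector of the `j`-th Frobenius powers of the `l`-th coordinates. -/
noncomputable def col (F : Type v) [Field F] [Fintype F] {L : Type u} [Field L] [Algebra F L]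
    {ι : Type} {m : ℕ} (y : ι → Fin m → L) (l : Fin m) (j : ℕ) : ι → L :=
  fun i => fr F j (y i l)

/-- The index set of the basis attached to `d`. -/
abbrev Idx {m : ℕ} (d : Fin m → ℕ) : Type := Σ l : Fin m, Fin (d l)

/-- The family of the vectors attached to `d`. -/
noncomputable def fam (F : Type v) [Field F] [Fintype F] {L : Type u} [Field L] [Algebra F L]
    {ι : Type} {m : ℕ} (y : ι → Fin m → L) (d : Fin m → ℕ) (p : Idx d) : ι → L :=
  col F y p.1 p.2

section

variable (F) in
/-- The coordinatewise Frobenius. -/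
noncomputable def frv (w : ι → L) : ι → L := fun i => fr F 1 (w i)

lemma frv_col (y : ι → Fin m → L) (l : Fin m) (j : ℕ) : frv F (col F y l j) = col F y l (j + 1) := by
  funext i
  exact (fr_succ F j _).symm

lemma frv_add (w w' : ι → L) : frv F (w + w') = frv F w + frv F w' := by
  funext i
  exact map_add _ _ _

lemma frv_zero : frv F (0 : ι → L) = 0 := by
  funext i
  exact map_zero _

variable (V : ValuationSubring L)

lemma frv_smul (a : V) (w : ι → L) :
    frv F (a • w) = (⟨fr F 1 (a : L), fr_mem V.toSubring a.2 1⟩ : V) • frv F w := by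
  funext i
  change fr F 1 ((a : L) * w i) = fr F 1 (a : L) * fr F 1 (w i)
  exact map_mul _ _ _

/-- A submodule is stable under the Frobenius as soon as its generators are mapped to it. -/
lemma frv_mem_span {S : Set (ι → L)} {W : Submodule V (ι → L)} (h : ∀ w ∈ S, frv F w ∈ W)
    {w : ι → L} (hw : w ∈ Submodule.span V S) : frv F w ∈ W := by
  induction hw using Submodule.span_induction with
  | mem x hx => exact h x hx
  | zero => rw [frv_zero]; exact W.zero_mem
  | add x y _ _ hx hy => rw [frv_add]; exact W.add_mem hx hy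
  | smul a x _ hx => rw [frv_smul]; exact W.smul_mem _ hx

/-- The lattice. -/
noncomputable def lat (F : Type v) [Field F] [Fintype F] {L : Type u} [Field L] [Algebra F L]
    {ι : Type} [Fintype ι] {m : ℕ} (V : ValuationSubring L) (y : ι → Fin m → L) :
    Submodule V (ι → L) :=
  Submodule.span V {w | ∃ l : Fin m, ∃ j, j < Fintype.card ι ∧ w = col F y l j}

variable {V} {y : ι → Fin m → L}

lemma col_card_mem (hy : ∀ i l, y i l ∈ V) (l : Fin m) :
    col F y l (Fintype.card ι) ∈
      Submodule.span V {w | ∃ j, j < Fintype.card ι ∧ w = col F y l j} := by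
  obtain ⟨b, hb, h⟩ := exists_monic' (F := F) V.toSubring (fun i => y i l) fun i => hy i l
  have h1 : col F y l (Fintype.card ι) =
      ∑ j ∈ range (Fintype.card ι), (⟨b j, hb j⟩ : V) • col F y l j := by
    funext i
    rw [Finset.sum_apply]
    exact h i
  rw [h1]
  refine Submodule.sum_mem _ fun j hj => Submodule.smul_mem _ _ (Submodule.subset_span ?_)
  exact ⟨j, Finset.mem_range.1 hj, rfl⟩

/-- The maximal ideal times the lattice, and the vectors with smaller first index. -/
noncomputable def low (F : Type v) [Field F] [Fintype F] {L : Type u} [Field L] [Algebra F L]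
    {ι : Type} [Fintype ι] {m : ℕ} (V : ValuationSubring L) (y : ι → Fin m → L) (l : Fin m) :
    Submodule V (ι → L) :=
  Submodule.span V {w | ∃ l' : Fin m, l' < l ∧ ∃ j, j < Fintype.card ι ∧ w = col F y l' j} ⊔
    IsLocalRing.maximalIdeal V • lat F V y

lemma frv_lat (hy : ∀ i l, y i l ∈ V) {w : ι → L} (hw : w ∈ lat F V y) : frv F w ∈ lat F V y := by
  refine frv_mem_span V ?_ hw
  rintro _ ⟨l, j, hj, rfl⟩
  rw [frv_col]
  by_cases h : j + 1 < Fintype.card ι
  · exact Submodule.subset_span ⟨l, j + 1, h, rfl⟩
  · have h1 : j + 1 = Fintype.card ι := by omega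
    rw [h1]
    refine Submodule.span_mono ?_ (col_card_mem hy l)
    rintro _ ⟨j, hj, rfl⟩
    exact ⟨l, j, hj, rfl⟩

lemma col_mem_lat (hy : ∀ i l, y i l ∈ V) (hι : 0 < Fintype.card ι) (l : Fin m) (j : ℕ) :
    col F y l j ∈ lat F V y := by
  induction j with
  | zero => exact Submodule.subset_span ⟨l, 0, hι, rfl⟩
  | succ j ih =>
    rw [← frv_col]
    exact frv_lat hy ih

lemma frv_maxlat (hy : ∀ i l, y i l ∈ V) {w : ι → L}
    (hw : w ∈ IsLocalRing.maximalIdeal V • lat F V y) :
    frv F w ∈ IsLocalRing.maximalIdeal V • lat F V y := by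
  refine Submodule.smul_induction_on hw ?_ ?_
  · intro a ha w hw
    rw [frv_smul]
    refine Submodule.smul_mem_smul ?_ (frv_lat hy hw)
    have h1 : (⟨fr F 1 (a : L), fr_mem V.toSubring a.2 1⟩ : V) = a ^ Fintype.card F := by
      apply Subtype.ext
      exact fr_one F (a : L)
    rw [h1]
    exact Ideal.pow_mem_of_mem _ ha _ Fintype.card_pos
  · intro x y hx hy
    rw [frv_add]
    exact Submodule.add_mem _ hx hy

lemma frv_low (hy : ∀ i l, y i l ∈ V) (l : Fin m) {w : ι → L} (hw : w ∈ low F V y l) :
    frv F w ∈ low F V y l := by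
  obtain ⟨w1, h1, w2, h2, rfl⟩ := Submodule.mem_sup.1 hw
  rw [frv_add]
  refine Submodule.add_mem _ (Submodule.mem_sup_left ?_)
    (Submodule.mem_sup_right (frv_maxlat hy h2))
  refine frv_mem_span V ?_ h1
  rintro _ ⟨l', hl', j, hj, rfl⟩
  rw [frv_col]
  by_cases h : j + 1 < Fintype.card ι
  · exact Submodule.subset_span ⟨l', hl', j + 1, h, rfl⟩
  · have h1 : j + 1 = Fintype.card ι := by omega
    rw [h1]
    refine Submodule.span_mono ?_ (col_card_mem hy l')
    rintro _ ⟨j, hj, rfl⟩
    exact ⟨l', hl', j, hj, rfl⟩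

/-- The property defining `d l`. -/
def PP (F : Type v) [Field F] [Fintype F] {L : Type u} [Field L] [Algebra F L]
    {ι : Type} [Fintype ι] {m : ℕ} (V : ValuationSubring L) (y : ι → Fin m → L) (l : Fin m)
    (j : ℕ) : Prop :=
  col F y l j ∈ Submodule.span V {w | ∃ i, i < j ∧ w = col F y l i} ⊔ low F V y l

lemma PP_card (hy : ∀ i l, y i l ∈ V) (l : Fin m) : PP F V y l (Fintype.card ι) :=
  Submodule.mem_sup_left (col_card_mem hy l)

lemma PP_after (hy : ∀ i l, y i l ∈ V) (l : Fin m) {d : ℕ} (hd : PP F V y l d) (e : ℕ) :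
    col F y l (d + e) ∈ Submodule.span V {w | ∃ i, i < d ∧ w = col F y l i} ⊔ low F V y l := by
  induction e with
  | zero => exact hd
  | succ e ih =>
    rw [← add_assoc, ← frv_col]
    obtain ⟨w1, h1, w2, h2, h3⟩ := Submodule.mem_sup.1 ih
    rw [← h3, frv_add]
    refine Submodule.add_mem _ ?_ (Submodule.mem_sup_right (frv_low hy l h2))
    refine frv_mem_span V ?_ h1
    rintro _ ⟨i, hi, rfl⟩
    rw [frv_col]
    by_cases h : i + 1 < d
    · exact Submodule.mem_sup_left (Submodule.subset_span ⟨i + 1, h, rfl⟩)
    · have h4 : i + 1 = d := by omega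
      rw [h4]
      exact hd

/-- The lattice has a basis of the form `φ ^ j e_l`, `j < d l`. -/
theorem exists_basis (hind : LinearIndependent F y) (hy : ∀ i l, y i l ∈ V) :
    ∃ d : Fin m → ℕ, (∀ l, d l ≤ Fintype.card ι) ∧ Fintype.card (Idx d) = Fintype.card ι ∧
      LinearIndependent L (fam F y d) ∧
      ∀ l j, col F y l j ∈ Submodule.span V (Set.range (fam F y d)) := by
  classical
  by_cases hι0 : Fintype.card ι = 0
  · have hemp : IsEmpty ι := Fintype.card_eq_zero_iff.1 hι0
    refine ⟨fun _ => 0, fun _ => Nat.zero_le _, ?_, ?_, ?_⟩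
    · rw [hι0]
      simp
    · have : IsEmpty (Idx (m := m) fun _ => 0) := ⟨fun p => p.2.elim0⟩
      exact linearIndependent_empty_type
    · intro l j
      have : col F y l j = 0 := funext fun i => hemp.elim i
      rw [this]
      exact Submodule.zero_mem _
  have hι : 0 < Fintype.card ι := Nat.pos_of_ne_zero hι0
  have hex : ∀ l, ∃ j, PP F V y l j := fun l => ⟨_, PP_card hy l⟩
  let d : Fin m → ℕ := fun l => Nat.find (hex l)
  have hd : ∀ l, PP F V y l (d l) := fun l => Nat.find_spec (hex l)
  have hdle : ∀ l, d l ≤ Fintype.card ι := fun l => Nat.find_min' (hex l) (PP_card hy l)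
  -- generation
  have hfam : ∀ (l : Fin m) (j : ℕ), j < d l → col F y l j ∈ Submodule.span V (Set.range (fam F y d)) :=
    fun l j hj => Submodule.subset_span ⟨⟨l, ⟨j, hj⟩⟩, rfl⟩
  have hgen0 : ∀ (n : ℕ) (l : Fin m), (l : ℕ) = n → ∀ j, col F y l j ∈
      Submodule.span V (Set.range (fam F y d)) ⊔ IsLocalRing.maximalIdeal V • lat F V y := by
    intro n
    induction n using Nat.strong_induction_on with
    | _ n ih =>
      intro l hl j
      have hlow : low F V y l ≤
          Submodule.span V (Set.range (fam F y d)) ⊔ IsLocalRing.maximalIdeal V • lat F V y := by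
        refine sup_le (Submodule.span_le.2 ?_) le_sup_right
        rintro _ ⟨l', hl', j, hj, rfl⟩
        exact ih l' (by rw [← hl]; exact hl') l' rfl j
      by_cases hj : j < d l
      · exact Submodule.mem_sup_left (hfam l j hj)
      · obtain ⟨e, rfl⟩ : ∃ e, j = d l + e := ⟨j - d l, by omega⟩
        refine sup_le (Submodule.span_le.2 ?_) hlow (PP_after hy l (hd l) e)
        rintro _ ⟨i, hi, rfl⟩
        exact Submodule.mem_sup_left (hfam l i hi)
  have hlat : lat F V y ≤ Submodule.span V (Set.range (fam F y d)) := by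
    refine Submodule.le_of_le_smul_of_le_jacobson_bot (I := IsLocalRing.maximalIdeal V) ?_
      (IsLocalRing.maximalIdeal_le_jacobson _) ?_
    · refine Submodule.fg_span ?_
      have : {w | ∃ l : Fin m, ∃ j, j < Fintype.card ι ∧ w = col F y l j} =
          Set.range fun p : Fin m × Fin (Fintype.card ι) => col F y p.1 p.2 := by
        ext w
        constructor
        · rintro ⟨l, j, hj, rfl⟩
          exact ⟨(l, ⟨j, hj⟩), rfl⟩
        · rintro ⟨⟨l, j⟩, rfl⟩
          exact ⟨l, j, j.2, rfl⟩
      rw [this]
      exact Set.finite_range _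
    · refine Submodule.span_le.2 ?_
      rintro _ ⟨l, j, hj, rfl⟩
      exact hgen0 _ l rfl j
  have hcol : ∀ l j, col F y l j ∈ Submodule.span V (Set.range (fam F y d)) :=
    fun l j => hlat (col_mem_lat hy hι l j)
  -- independence
  have hli : LinearIndependent L (fam F y d) := by
    rw [Fintype.linearIndependent_iff]
    intro a ha
    by_contra hcon
    push Not at hcon
    obtain ⟨p1, hp1⟩ := hcon
    obtain ⟨p0, -, hp0⟩ := Finset.exists_max_image univ (fun p => V.valuation (a p)) ⟨p1, mem_univ _⟩
    have ha0 : a p0 ≠ 0 := by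
      intro h0
      have h1 := hp0 p1 (mem_univ _)
      simp only [h0, map_zero, le_zero_iff, map_eq_zero] at h1
      exact hp1 h1
    have hbV : ∀ p, a p / a p0 ∈ V := by
      intro p
      rw [← V.valuation_le_one_iff, map_div₀]
      exact div_le_one_of_le₀ (hp0 p (mem_univ _)) zero_le
    let b : Idx d → V := fun p => ⟨a p / a p0, hbV p⟩
    have hb : ∑ p, b p • fam F y d p = 0 := by
      have h1 : ∀ p, b p • fam F y d p = (a p0)⁻¹ • (a p • fam F y d p) := by
        intro p
        rw [smul_smul]
        change (a p / a p0) • fam F y d p = _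
        rw [div_eq_inv_mul]
      rw [Finset.sum_congr rfl fun p _ => h1 p, ← Finset.smul_sum, ha, smul_zero]
    have hb0 : b p0 = 1 := Subtype.ext (div_self ha0)
    -- the last unit coefficient
    let U : Finset (Idx d) := univ.filter fun p => b p ∉ IsLocalRing.maximalIdeal V
    have hU : U.Nonempty := ⟨p0, by
      rw [Finset.mem_filter]
      refine ⟨mem_univ _, ?_⟩
      rw [hb0]
      exact fun h => (Ideal.ne_top_iff_one _).1 (IsLocalRing.maximalIdeal.isMaximal V).ne_top h⟩
    obtain ⟨q0, hq0, hq0max⟩ := Finset.exists_max_image U (fun p => p.1) hU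
    let U' : Finset (Idx d) := U.filter fun p => p.1 = q0.1
    obtain ⟨q1, hq1, hq1max⟩ := Finset.exists_max_image U' (fun p => (p.2 : ℕ))
      ⟨q0, Finset.mem_filter.2 ⟨hq0, rfl⟩⟩
    have hq1U := (Finset.mem_filter.1 hq1).1
    have hq1l := (Finset.mem_filter.1 hq1).2
    have hunit : b q1 ∉ IsLocalRing.maximalIdeal V := (Finset.mem_filter.1 hq1U).2
    have hrest : ∀ p, p ≠ q1 → b p • fam F y d p ∈
        Submodule.span V {w | ∃ i, i < (q1.2 : ℕ) ∧ w = col F y q1.1 i} ⊔ low F V y q1.1 := by
      intro p hp
      by_cases hpm : b p ∈ IsLocalRing.maximalIdeal V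
      · refine Submodule.mem_sup_right (Submodule.mem_sup_right
          (Submodule.smul_mem_smul hpm (col_mem_lat hy hι _ _)))
      · have hpU : p ∈ U := Finset.mem_filter.2 ⟨mem_univ _, hpm⟩
        have h1 : p.1 ≤ q1.1 := by
          rw [hq1l]
          exact hq0max p hpU
        refine Submodule.smul_mem _ _ ?_
        rcases lt_or_eq_of_le h1 with h1 | h1
        · refine Submodule.mem_sup_right (Submodule.mem_sup_left (Submodule.subset_span
            ⟨p.1, h1, p.2, lt_of_lt_of_le p.2.2 (hdle _), rfl⟩))
        · have h2 : (p.2 : ℕ) ≤ q1.2 := hq1max p (Finset.mem_filter.2 ⟨hpU, h1.trans hq1l⟩)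
          have h3 : (p.2 : ℕ) ≠ q1.2 := by
            intro h3
            apply hp
            obtain ⟨l, j⟩ := p
            obtain ⟨l', j'⟩ := q1
            change l = l' at h1
            subst h1
            change (j : ℕ) = j' at h3
            rw [Fin.ext h3]
          refine Submodule.mem_sup_left (Submodule.subset_span ⟨p.2, lt_of_le_of_ne h2 h3, ?_⟩)
          exact congrArg (fun l => col F y l (p.2 : ℕ)) h1
    have hPP : PP F V y q1.1 q1.2 := by
      have h1 : b q1 • fam F y d q1 = - ∑ p ∈ univ.erase q1, b p • fam F y d p := by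
        rw [eq_neg_iff_add_eq_zero,
          Finset.add_sum_erase univ (fun p => b p • fam F y d p) (mem_univ q1), hb]
      have hu : IsUnit (b q1) := by
        by_contra hu
        exact hunit ((IsLocalRing.mem_maximalIdeal _).2 hu)
      have h2 : b q1 • fam F y d q1 ∈
          Submodule.span V {w | ∃ i, i < (q1.2 : ℕ) ∧ w = col F y q1.1 i} ⊔ low F V y q1.1 := by
        rw [h1]
        refine Submodule.neg_mem _ (Submodule.sum_mem _ fun p hp => hrest p ?_)
        exact (Finset.mem_erase.1 hp).1
      obtain ⟨u, hu⟩ := hu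
      have h3 := Submodule.smul_mem _ ((u⁻¹ : Vˣ) : V) h2
      rw [← hu, smul_smul, Units.inv_mul, one_smul] at h3
      exact h3
    exact Nat.find_min (hex q1.1) q1.2.2 hPP
  -- generation over the field
  have hspan : ⊤ ≤ Submodule.span L (Set.range (fam F y d)) := by
    by_contra hcon
    have hlt : Submodule.span L (Set.range (fam F y d)) < ⊤ :=
      lt_of_le_of_ne le_top fun h => hcon h.ge
    obtain ⟨f, hf0, hf⟩ := Submodule.exists_le_ker_of_lt_top _ hlt
    have hfw : ∀ w : ι → L, f w = ∑ i, f (Pi.single i 1) * w i := by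
      intro w
      conv_lhs => rw [← LinearMap.sum_single_apply (fun _ => L) w]
      rw [map_sum]
      refine Finset.sum_congr rfl fun i _ => ?_
      have h1 : (Pi.single i (w i) : ι → L) = w i • Pi.single i (1 : L) := by
        rw [← Pi.single_smul]
        simp
      rw [h1, map_smul, smul_eq_mul, mul_comm]
    have h0 := moore (F := F) y hind (fun i => f (Pi.single i 1)) (by
      intro j l
      have h1 : col F y l j ∈ Submodule.span L (Set.range (fam F y d)) := by
        have h2 := hcol l j
        refine Submodule.span_induction (p := fun w _ => w ∈ Submodule.span L (Set.range (fam F y d)))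
          ?_ ?_ ?_ ?_ h2
        · exact fun x hx => Submodule.subset_span hx
        · exact Submodule.zero_mem _
        · exact fun x y _ _ hx hy => Submodule.add_mem _ hx hy
        · intro a x _ hx
          exact Submodule.smul_mem _ (a : L) hx
      have h3 := hf h1
      rw [LinearMap.mem_ker, hfw] at h3
      exact h3)
    apply hf0
    ext i
    have := congrFun h0 i
    simpa using this
  refine ⟨d, hdle, ?_, hli, hcol⟩
  have hB := Module.finrank_eq_card_basis (Module.Basis.mk hli hspan)
  rw [Module.finrank_fintype_fun_eq_card] at hB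
  exact hB.symm

end

end Pool.Agent.R837.FM
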