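import Pool.Agent.R837.FM.Levels
import Pool.Agent.H920R2.Quot
import Pool.Agent.H920R2.Trans

/-!
The quotients of affine spaces by parabolic groups over finite fields.
-/

set_option autoImplicit false
set_option linter.unusedSectionVars false

open Finset AlgebraicGeometry CategoryTheory

universe u v w z

namespace Pool.Agent.R837.FM

section base

variable {F : Type v} [Field F] [Fintype F] {k : Type z} [Field k] {L : Type u} [Field L]
  [Algebra F L] [Algebra k L] {m : ℕ}

/-- The initial stage for polynomial rings. -/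
lemma stage_zero (B : Subalgebra k L) :
    Stage F B (⊤ : Submodule F (Fin m → L)) ⊥ 0 (fun _ : Unit => (⊥ : Subalgebra k L))
      (fun _ => (1 : L)) (fun _ => (⊤ : Submodule F (Fin m → L)).subtype) where
  H0 := fun _ => one_ne_zero
  HB := fun _ => B.one_mem
  rt := fun _ _ => by
    rw [div_one]
    exact one_mem _
  gl := fun _ _ => le_loc _ _
  dn := fun _ => bot_le
  coef := fun _ l => self_mem_op _ _ l
  op := fun _ _ l => self_mem_op _ _ l
  ker := fun _ y => by
    rw [Submodule.mem_bot]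
    rfl
  int := fun _ V _ y hy l => hy l
  cv := fun V hV => ⟨(), fun a ha => by
    obtain ⟨c, rfl⟩ := Algebra.mem_bot.1 ha
    exact hV _ (B.algebraMap_mem c)⟩
  dim := fun _ => ⟨Empty, inferInstance, fun p => p.elim, rfl, spn_mono le_rfl
    Set.subset_union_left⟩

/-- Restriction to a chart with constant coefficients. -/
lemma Stage.restrict {s : ℕ} {B : Subalgebra k L} {X Λ : Submodule F (Fin m → L)} {N : ℕ}
    {T : Type} {R : T → Subalgebra k L} {H : T → L} {r : T → X →ₗ[F] (Fin s → L)}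
    (S : Stage F B X Λ N R H r) (t : T) (ht : R t = ⊥) :
    Stage F B X Λ N (fun _ : Unit => (⊥ : Subalgebra k L)) (fun _ => H t) (fun _ => r t) where
  H0 := fun _ => S.H0 t
  HB := fun _ => S.HB t
  rt := fun _ _ => by
    rw [div_self (S.H0 t)]
    exact one_mem _
  gl := fun _ _ => le_loc _ _
  dn := fun _ => bot_le
  coef := fun _ l => by
    rw [← ht]
    exact S.coef t l
  op := fun _ _ l => self_mem_op _ _ l
  ker := fun _ y => S.ker t y
  int := fun _ V hV y hy l => by
    rw [← ht] at hV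
    exact S.int t V hV y hy l
  cv := fun V hV => ⟨(), fun a ha => by
    obtain ⟨c, rfl⟩ := Algebra.mem_bot.1 ha
    exact hV _ (B.algebraMap_mem c)⟩
  dim := fun _ => by
    rw [← ht]
    exact S.dim t

/-- The initial stage attached to constant rows. -/
theorem const_stage (B : Subalgebra k L) (a : ℕ) : ∀ (z : Fin a → (⊤ : Submodule F (Fin m → L))),
    (∀ j l, (z j : Fin m → L) l ∈ (⊥ : Subalgebra k L)) →
    (LinearIndependent F fun j => (z j : Fin m → L)) →
    ∃ (H : L) (r : (⊤ : Submodule F (Fin m → L)) →ₗ[F] (Fin m → L)), H ∈ (⊥ : Subalgebra k L) ∧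
      Stage F B (⊤ : Submodule F (Fin m → L))
        (Submodule.span F (Set.range fun j => (z j : Fin m → L))) a
        (fun _ : Unit => (⊥ : Subalgebra k L)) (fun _ => H) (fun _ => r) := by
  classical
  induction a with
  | zero =>
    intro z _ _
    refine ⟨1, (⊤ : Submodule F (Fin m → L)).subtype, one_mem _, ?_⟩
    have : Submodule.span F (Set.range fun j => (z j : Fin m → L)) = ⊥ := by
      rw [Set.range_eq_empty, Submodule.span_empty]
    rw [this]
    exact stage_zero B
  | succ a ih =>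
    intro z hz hli
    obtain ⟨H, r, hH, S⟩ := ih (fun j => z j.castSucc) (fun j l => hz _ l)
      (hli.comp _ (Fin.castSucc_injective a))
    have hbotB : (⊥ : Subalgebra k L) ≤ B := bot_le
    have hind : ∀ b : Unit → F, ((∑ i, b i • z (Fin.last a) :
        (⊤ : Submodule F (Fin m → L))) : Fin m → L) ∈
        Submodule.span F (Set.range fun j : Fin a => (z j.castSucc : Fin m → L)) → b = 0 := by
      intro b hb
      by_contra h0
      have hb0 : b () ≠ 0 := fun h => h0 (funext fun i => h)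
      have h1 : (z (Fin.last a) : Fin m → L) ∈
          Submodule.span F (Set.range fun j : Fin a => (z j.castSucc : Fin m → L)) := by
        have h2 := Submodule.smul_mem _ (b ())⁻¹ hb
        have h3 : (b ())⁻¹ • ((∑ i, b i • z (Fin.last a) :
            (⊤ : Submodule F (Fin m → L))) : Fin m → L) = z (Fin.last a) := by
          rw [Finset.univ_unique, Finset.sum_singleton, Submodule.coe_smul, smul_smul]
          change ((b ())⁻¹ * b ()) • (z (Fin.last a) : Fin m → L) = _
          rw [inv_mul_cancel₀ hb0, one_smul]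
        rwa [h3] at h2
      have h4 := hli.notMem_span_image (s := Set.range Fin.castSucc) (x := Fin.last a) (by
        rintro ⟨j, hj⟩
        exact (Fin.castSucc_lt_last j).ne hj)
      apply h4
      have h5 : (fun j => (z j : Fin m → L)) '' (Set.range Fin.castSucc) =
          Set.range fun j : Fin a => (z j.castSucc : Fin m → L) := by
        rw [← Set.range_comp]
        rfl
      rw [h5]
      exact h1
    obtain ⟨M, S'⟩ := S.step (fun _ : Unit => z (Fin.last a))
      (fun _ l => hbotB (hz _ l)) hind 1 one_pos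
    obtain ⟨τ, -⟩ := S'.cv ⊤ fun _ _ => trivial
    have hr : ∀ l, r (z (Fin.last a)) l ∈ (⊥ : Subalgebra k L) := fun l =>
      op_mem (S.coef () l) ⊥ le_rfl fun l => hz _ l
    have hΔ : τ.2.Δ ∈ (⊥ : Subalgebra k L) :=
      mem_of_entries _ fun p i => fr_mem_alg (hr p.1) _
    have hinv : ∀ c ∈ (⊥ : Subalgebra k L), 1 / c ∈ (⊥ : Subalgebra k L) := by
      intro c hc
      obtain ⟨c', rfl⟩ := Algebra.mem_bot.1 hc
      rw [one_div, ← map_inv₀]
      exact Subalgebra.algebraMap_mem _ _
    have hbot : RR (fun _ : Unit => (⊥ : Subalgebra k L)) 1 τ = ⊥ := by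
      rw [eq_bot_iff]
      refine τ.2.alg_le le_rfl (Subalgebra.pow_mem _ hΔ _) fun l p => ?_
      refine coord_mem (Equiv.refl Unit) τ.2.e (g := std Unit L) (fun p' => ?_) ?_ (τ.2.hc l)
        τ.2.Δ_ne ?_ p
      · exact mem_spn_std fun i => fr_mem_alg (hr _) _
      · exact mem_spn_std fun i => fr_mem_alg (hr _) _
      · rw [std_det]
        exact hinv _ hΔ
    have S2 := S'.restrict τ hbot
    have h6 : Submodule.span F (Set.range fun j : Fin a => (z j.castSucc : Fin m → L)) ⊔
        Submodule.span F (Set.range fun _ : Unit => (z (Fin.last a) : Fin m → L)) =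
        Submodule.span F (Set.range fun j => (z j : Fin m → L)) := by
      rw [← Submodule.span_union]
      congr 1
      ext y
      constructor
      · rintro (⟨j, rfl⟩ | ⟨_, rfl⟩)
        · exact ⟨j.castSucc, rfl⟩
        · exact ⟨Fin.last a, rfl⟩
      · rintro ⟨j, rfl⟩
        induction j using Fin.lastCases with
        | last => exact Or.inr ⟨(), rfl⟩
        | cast j => exact Or.inl ⟨j, rfl⟩
    rw [h6] at S2
    have hHbot : HH (fun _ : Unit => H) M 1 τ ∈ (⊥ : Subalgebra k L) :=
      Subalgebra.mul_mem _ (Subalgebra.pow_mem _ hH _) (Subalgebra.pow_mem _ hΔ _)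
    exact ⟨_, _, hHbot, S2⟩

end base

section det

variable {F : Type v} [Field F] [Fintype F] {n : ℕ} {lv : Fin n → ℕ}

lemma det_eq_prod_blocks (g : Matrix (Fin n) (Fin n) F) (hg : ∀ i j, lv i < lv j → g i j = 0) :
    g.det = ∏ a ∈ univ.image lv, (g.toSquareBlock lv a).det := by
  have h1 : (g.transpose).BlockTriangular lv := fun i j hij => hg j i hij
  rw [← Matrix.det_transpose, h1.det]
  refine Finset.prod_congr rfl fun a _ => ?_
  rw [← Matrix.det_transpose]
  rfl

variable {L : Type u} [Field L] [Algebra F L] {m : ℕ} {X : Submodule F (Fin m → L)}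

/-- The exponents of the levels. -/
noncomputable def ee (F : Type v) [Field F] [Fintype F] {n : ℕ} (lv : Fin n → ℕ) (s : Fin n → ℕ)
    (a : ℕ) : ℕ := by
  classical
  exact if h : ∃ i, lv i = a ∧ ∀ j, lv j = a → j = i then s h.choose else Fintype.card F - 1

lemma ee_single {s : Fin n → ℕ} {i : Fin n} (hi : ∀ j, lv j = lv i → j = i) :
    ee F lv s (lv i) = s i := by
  classical
  unfold ee
  have h : ∃ i', lv i' = lv i ∧ ∀ j, lv j = lv i → j = i' := ⟨i, rfl, hi⟩
  rw [dif_pos h, hi _ h.choose_spec.1]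

lemma ee_spec {s : Fin n → ℕ} (hs : ∀ i, s i ∣ Fintype.card F - 1) (a : ℕ) :
    ee F lv s a = Fintype.card F - 1 ∨
      (Fintype.card {i // lv i = a} = 1 ∧ ee F lv s a ∣ Fintype.card F - 1) := by
  classical
  by_cases h : ∃ i, lv i = a ∧ ∀ j, lv j = a → j = i
  · right
    obtain ⟨i, rfl, hi⟩ := h
    refine ⟨Fintype.card_eq_one_iff.2 ⟨⟨i, rfl⟩, fun j => Subtype.ext (hi j j.2)⟩, ?_⟩
    rw [ee_single hi]
    exact hs i
  · left
    unfold ee
    rw [dif_neg h]

/-- The condition on the matrices. -/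
def Cond (lv : Fin n → ℕ) (s : Fin n → ℕ) (g : Matrix (Fin n) (Fin n) F) : Prop :=
  (∀ i j, lv i < lv j → g i j = 0) ∧ ∀ i, (∀ j, lv j = lv i → j = i) → g i i ^ s i = 1

lemma block_det {s : Fin n → ℕ} {g : Matrix (Fin n) (Fin n) F} (hg : Cond lv s g)
    (hdet : g.det ≠ 0) (a : ℕ) : (g.toSquareBlock lv a).det ^ ee F lv s a = 1 := by
  classical
  by_cases h : ∃ i, lv i = a ∧ ∀ j, lv j = a → j = i
  · obtain ⟨i, rfl, hi⟩ := h
    rw [ee_single hi]
    let _ : Unique {j // lv j = lv i} := ⟨⟨⟨i, rfl⟩⟩, fun j => Subtype.ext (hi j j.2)⟩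
    rw [Matrix.det_unique]
    exact hg.2 i hi
  · have h1 : ee F lv s a = Fintype.card F - 1 := by
      unfold ee
      rw [dif_neg h]
    rw [h1]
    apply FiniteField.pow_card_sub_one_eq_one
    by_cases ha : a ∈ univ.image lv
    · intro h0
      apply hdet
      rw [det_eq_prod_blocks g hg.1]
      exact Finset.prod_eq_zero ha h0
    · have : IsEmpty {i // lv i = a} :=
        ⟨fun i => ha (Finset.mem_image.2 ⟨i, Finset.mem_univ _, i.2⟩)⟩
      rw [Matrix.det_isEmpty]
      exact one_ne_zero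

variable {Λ0 : Submodule F (Fin m → L)}

/-- Matrices give the condition `Q`. -/
lemma q_of_matrix {x : Fin n → X} {s : Fin n → ℕ} {g : Matrix (Fin n) (Fin n) F}
    (hg : Cond lv s g) (hdet : g.det ≠ 0) {σ : L →+* L}
    (hσ : ∀ i, (fun l => σ ((x i : Fin m → L) l)) - ∑ j, g i j • (x j : Fin m → L) ∈ Λ0)
    (a : ℕ) : Q Λ0 x lv (ee F lv s) σ a := by
  classical
  refine ⟨g.toSquareBlock lv a, block_det hg hdet a, ?_⟩
  rintro ⟨i, rfl⟩
  have h1 : ∑ j, g i j • (x j : Fin m → L) =
      ∑ j : {j // lv j = lv i}, g.toSquareBlock lv (lv i) ⟨i, rfl⟩ j • (x j : Fin m → L) +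
      ∑ j : {j // ¬ lv j = lv i}, g i j • (x j : Fin m → L) :=
    (Fintype.sum_subtype_add_sum_subtype (fun j => lv j = lv i)
      (fun j => g i j • (x j : Fin m → L))).symm
  have h2 : (fun l => σ ((x i : Fin m → L) l)) -
      ∑ j : {j // lv j = lv i}, g.toSquareBlock lv (lv i) ⟨i, rfl⟩ j • (x j : Fin m → L) =
      ((fun l => σ ((x i : Fin m → L) l)) - ∑ j, g i j • (x j : Fin m → L)) +
      ∑ j : {j // ¬ lv j = lv i}, g i j • (x j : Fin m → L) := by
    rw [h1]
    abel
  rw [h2]
  refine Submodule.add_mem _ (Submodule.mem_sup_left (hσ i))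
    (Submodule.mem_sup_right (Submodule.sum_mem _ fun j _ => ?_))
  rcases lt_or_gt_of_ne j.2 with h | h
  · exact Submodule.smul_mem _ _ (Submodule.subset_span ⟨j, h, rfl⟩)
  · rw [hg.1 i j h, zero_smul]
    exact Submodule.zero_mem _

/-- The condition `Q` gives matrices. -/
lemma matrix_of_q {x : Fin n → X} {s : Fin n → ℕ} (hs : ∀ i, s i ∣ Fintype.card F - 1)
    {σ : L →+* L} (h : ∀ a, Q Λ0 x lv (ee F lv s) σ a) :
    ∃ g : Matrix (Fin n) (Fin n) F, g.det ≠ 0 ∧ Cond lv s g ∧
      ∀ i, (fun l => σ ((x i : Fin m → L) l)) - ∑ j, g i j • (x j : Fin m → L) ∈ Λ0 := by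
  classical
  choose G hG1 hG2 using h
  have hrow : ∀ i, ∃ c : Fin n → F, (∀ j, ¬ lv j < lv i → c j = 0) ∧ ∃ w0 ∈ Λ0,
      (fun l => σ ((x i : Fin m → L) l)) =
        ∑ j : {j // lv j = lv i}, G (lv i) ⟨i, rfl⟩ j • (x j : Fin m → L) +
          ∑ j, c j • (x j : Fin m → L) + w0 := by
    intro i
    have h1 := hG2 (lv i) ⟨i, rfl⟩
    unfold Lam at h1
    obtain ⟨w0, hw0, w1, hw1, h0⟩ := Submodule.mem_sup.1 h1
    obtain ⟨c, hc, h2⟩ := (Finsupp.mem_span_image_iff_linearCombination F).1 hw1
    refine ⟨c, fun j hj => ?_, ?_⟩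
    · by_contra h0
      exact hj (hc (Finsupp.mem_support_iff.2 h0))
    · rw [Finsupp.linearCombination_apply] at h2
      have h3 : c.sum (fun i a => a • (x i : Fin m → L)) = ∑ j, c j • (x j : Fin m → L) :=
        Finsupp.sum_fintype _ _ fun i => zero_smul _ _
      have h4 := h3.symm.trans h2
      refine ⟨w0, hw0, ?_⟩
      rw [h4, add_assoc, add_comm w1 w0, h0]
      exact (add_sub_cancel _ _).symm
  choose c hc1 w0 hw0 hc2 using hrow
  let g : Matrix (Fin n) (Fin n) F := Matrix.of fun i j =>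
    (if h : lv j = lv i then G (lv i) ⟨i, rfl⟩ ⟨j, h⟩ else 0) + c i j
  have hblock : ∀ a, g.toSquareBlock lv a = G a := by
    intro a
    ext ⟨i, hi⟩ ⟨j, hj⟩
    subst hi
    change (if h : lv j = lv i then G (lv i) ⟨i, rfl⟩ ⟨j, h⟩ else 0) + c i j = _
    rw [dif_pos hj, hc1 i j (by omega), add_zero]
  have hg0 : ∀ i j, lv i < lv j → g i j = 0 := by
    intro i j hij
    change (if h : lv j = lv i then G (lv i) ⟨i, rfl⟩ ⟨j, h⟩ else 0) + c i j = 0
    rw [dif_neg (by omega), hc1 i j (by omega), add_zero]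
  have hee : ∀ a, ee F lv s a ≠ 0 := by
    intro a h0
    have h1 : 0 < Fintype.card F - 1 := by
      have : 1 < Fintype.card F := Fintype.one_lt_card
      omega
    rcases ee_spec (lv := lv) hs a with h | ⟨-, h⟩
    · omega
    · rw [h0, zero_dvd_iff] at h
      omega
  refine ⟨g, ?_, ⟨hg0, fun i hi => ?_⟩, fun i => ?_⟩
  · rw [det_eq_prod_blocks g hg0]
    refine Finset.prod_ne_zero_iff.2 fun a _ => ?_
    rw [hblock]
    intro h0
    have h1 := hG1 a
    rw [h0, zero_pow (hee a)] at h1
    exact zero_ne_one h1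
  · have h1 := hG1 (lv i)
    rw [ee_single hi, ← hblock] at h1
    let _ : Unique {j // lv j = lv i} := ⟨⟨⟨i, rfl⟩⟩, fun j => Subtype.ext (hi j j.2)⟩
    rw [Matrix.det_unique] at h1
    exact h1
  · have hcore : ∑ j, g i j • (x j : Fin m → L) =
        ∑ j : {j // lv j = lv i}, G (lv i) ⟨i, rfl⟩ j • (x j : Fin m → L) +
          ∑ j, c i j • (x j : Fin m → L) := by
      have h1 : ∀ j, g i j • (x j : Fin m → L) =
          (if h : lv j = lv i then G (lv i) ⟨i, rfl⟩ ⟨j, h⟩ else 0) • (x j : Fin m → L) +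
            c i j • (x j : Fin m → L) := fun j => add_smul _ _ _
      rw [Finset.sum_congr rfl fun j _ => h1 j, Finset.sum_add_distrib]
      congr 1
      rw [← Fintype.sum_subtype_add_sum_subtype (fun j => lv j = lv i)
        (fun j => (if h : lv j = lv i then G (lv i) ⟨i, rfl⟩ ⟨j, h⟩ else 0) • (x j : Fin m → L))]
      have h2 : ∑ j : {j // ¬ lv j = lv i},
          (if h : lv (j : Fin n) = lv i then G (lv i) ⟨i, rfl⟩ ⟨j, h⟩ else 0) •
            (x j : Fin m → L) = 0 := by
        refine Finset.sum_eq_zero fun j _ => ?_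
        rw [dif_neg j.2, zero_smul]
      rw [h2, add_zero]
      refine Finset.sum_congr rfl fun j _ => ?_
      rw [dif_pos j.2]
    rw [hc2 i, hcore, add_sub_cancel_left]
    exact hw0 i

end det

end Pool.Agent.R837.FM
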