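import Pool.Agent.R837.FM.Lattice
import Pool.Agent.R837.FM.Glue

/-!
Spans of functions over subrings of a field; operators generated by Frobenius powers.
-/

set_option autoImplicit false
set_option linter.unusedSectionVars false

open Finset

universe u v w z

namespace Pool.Agent.R837.FM

section spn

variable {k : Type z} [Field k] {L : Type u} [Field L] [Algebra k L] {X : Type w} {Y : Type v}

/-- The `R`-span of a set of functions. -/
def spn (R : Subalgebra k L) (S : Set (X → L)) : AddSubgroup (X → L) :=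
  AddSubgroup.closure {f | ∃ a ∈ R, ∃ g ∈ S, f = fun y => a * g y}

variable {R R' : Subalgebra k L} {S S' : Set (X → L)}

lemma spn_mono (hR : R ≤ R') (hS : S ⊆ S') : spn R S ≤ spn R' S' := by
  refine AddSubgroup.closure_mono ?_
  rintro _ ⟨a, ha, g, hg, rfl⟩
  exact ⟨a, hR ha, g, hS hg, rfl⟩

lemma subset_spn {g : X → L} (hg : g ∈ S) : g ∈ spn R S :=
  AddSubgroup.subset_closure ⟨1, R.one_mem, g, hg, by simp⟩

lemma smul_mem_spn {a : L} (ha : a ∈ R) {f : X → L} (hf : f ∈ spn R S) :
    (fun y => a * f y) ∈ spn R S := by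
  induction hf using AddSubgroup.closure_induction with
  | mem x hx =>
    obtain ⟨b, hb, g, hg, rfl⟩ := hx
    exact AddSubgroup.subset_closure ⟨a * b, R.mul_mem ha hb, g, hg, by funext y; ring⟩
  | zero =>
    have : (fun y => a * (0 : X → L) y) = 0 := by funext y; simp
    rw [this]
    exact AddSubgroup.zero_mem _
  | add x y _ _ hx hy =>
    have : (fun z => a * (x + y) z) = (fun z => a * x z) + fun z => a * y z := by
      funext z; simp [mul_add]
    rw [this]
    exact AddSubgroup.add_mem _ hx hy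
  | neg x _ hx =>
    have : (fun z => a * (-x) z) = -(fun z => a * x z) := by
      funext z; simp
    rw [this]
    exact AddSubgroup.neg_mem _ hx

lemma spn_le {W : AddSubgroup (X → L)} (hW : ∀ a ∈ R, ∀ f ∈ W, (fun y => a * f y) ∈ W)
    (hS : S ⊆ W) : spn R S ≤ W := by
  refine (AddSubgroup.closure_le _).2 ?_
  rintro _ ⟨a, ha, g, hg, rfl⟩
  exact hW a ha g (hS hg)

lemma spn_le_spn (hR : R ≤ R') (h : ∀ g ∈ S, g ∈ spn R' S') : spn R S ≤ spn R' S' :=
  spn_le (fun _ ha _ hf => smul_mem_spn (hR ha) hf) h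

lemma sum_mem_spn {P : Type*} (s : Finset P) (a : P → L) (g : P → X → L)
    (ha : ∀ p ∈ s, a p ∈ R) (hg : ∀ p ∈ s, g p ∈ spn R S) :
    (fun y => ∑ p ∈ s, a p * g p y) ∈ spn R S := by
  have : (fun y => ∑ p ∈ s, a p * g p y) = ∑ p ∈ s, (fun y => a p * g p y) := by
    funext y
    rw [Finset.sum_apply]
  rw [this]
  exact AddSubgroup.sum_mem _ fun p hp => smul_mem_spn (ha p hp) (hg p hp)

lemma mem_spn_range {P : Type*} [Fintype P] {g : P → X → L} {f : X → L} :
    f ∈ spn R (Set.range g) ↔ ∃ a : P → L, (∀ p, a p ∈ R) ∧ ∀ y, f y = ∑ p, a p * g p y := by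
  classical
  constructor
  · intro hf
    induction hf using AddSubgroup.closure_induction with
    | mem x hx =>
      obtain ⟨b, hb, _, ⟨p, rfl⟩, rfl⟩ := hx
      refine ⟨Pi.single p b, fun p' => ?_, fun y => ?_⟩
      · by_cases h : p' = p
        · subst h
          rw [Pi.single_eq_same]
          exact hb
        · rw [Pi.single_eq_of_ne h]
          exact R.zero_mem
      · rw [Finset.sum_eq_single p]
        · rw [Pi.single_eq_same]
        · intro p' _ h
          rw [Pi.single_eq_of_ne h, zero_mul]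
        · intro h
          exact absurd (Finset.mem_univ p) h
    | zero => exact ⟨0, fun _ => R.zero_mem, fun y => by simp⟩
    | add x y _ _ hx hy =>
      obtain ⟨a, ha, h1⟩ := hx
      obtain ⟨b, hb, h2⟩ := hy
      refine ⟨a + b, fun p => R.add_mem (ha p) (hb p), fun y => ?_⟩
      rw [Pi.add_apply, h1, h2, ← Finset.sum_add_distrib]
      exact Finset.sum_congr rfl fun p _ => by rw [Pi.add_apply, add_mul]
    | neg x _ hx =>
      obtain ⟨a, ha, h1⟩ := hx
      refine ⟨-a, fun p => R.neg_mem (ha p), fun y => ?_⟩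
      rw [Pi.neg_apply, h1, ← Finset.sum_neg_distrib]
      exact Finset.sum_congr rfl fun p _ => by rw [Pi.neg_apply, neg_mul]
  · rintro ⟨a, ha, h⟩
    have : f = fun y => ∑ p, a p * g p y := funext h
    rw [this]
    exact sum_mem_spn _ _ _ (fun p _ => ha p) fun p _ => subset_spn ⟨p, rfl⟩

lemma spn_comp (x : Y → X) {S'' : Set (Y → L)} (hR : R ≤ R')
    (h : ∀ g ∈ S, (fun y => g (x y)) ∈ spn R' S'')
    {f : X → L} (hf : f ∈ spn R S) : (fun y => f (x y)) ∈ spn R' S'' := by
  induction hf using AddSubgroup.closure_induction with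
  | mem f hf =>
    obtain ⟨a, ha, g, hg, rfl⟩ := hf
    exact smul_mem_spn (hR ha) (h g hg)
  | zero => exact AddSubgroup.zero_mem _
  | add f g _ _ hf hg => exact AddSubgroup.add_mem _ hf hg
  | neg f _ hf => exact AddSubgroup.neg_mem _ hf

lemma eval_mem {S : Set (X → L)} {V : Type*} [SetLike V L] [AddSubgroupClass V L] (W : V)
    (x : X) (h : ∀ a ∈ R, ∀ g ∈ S, a * g x ∈ W) {f : X → L} (hf : f ∈ spn R S) : f x ∈ W := by
  induction hf using AddSubgroup.closure_induction with
  | mem f hf =>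
    obtain ⟨a, ha, g, hg, rfl⟩ := hf
    exact h a ha g hg
  | zero => exact zero_mem W
  | add f g _ _ hf hg => exact add_mem hf hg
  | neg f _ hf => exact neg_mem hf

lemma eval_eq (σ : L →+* L) (x x' : X) (hσ : ∀ a ∈ R, σ a = a)
    (h : ∀ g ∈ S, σ (g x) = g x') {f : X → L} (hf : f ∈ spn R S) : σ (f x) = f x' := by
  induction hf using AddSubgroup.closure_induction with
  | mem f hf =>
    obtain ⟨a, ha, g, hg, rfl⟩ := hf
    change σ (a * g x) = a * g x'
    rw [map_mul, hσ a ha, h g hg]
  | zero => exact map_zero σ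
  | add f g _ _ hf hg =>
    change σ (f x + g x) = f x' + g x'
    rw [map_add, hf, hg]
  | neg f _ hf =>
    change σ (-f x) = -f x'
    rw [map_neg, hf]

end spn

section op

variable (F : Type v) [Field F] [Fintype F] {k : Type z} [Field k] {L : Type u} [Field L]
  [Algebra F L] [Algebra k L] {X : Type w} {s : ℕ}

/-- The generators of `Op`. -/
def gens (r : X → Fin s → L) : Set (X → L) := {f | ∃ l j, f = fun y => fr F j (r y l)}

/-- The `R`-linear combinations of the functions `φ ^ j (r y l)` of `y`. -/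
def Op (R : Subalgebra k L) (r : X → Fin s → L) : AddSubgroup (X → L) := spn R (gens F r)

variable {F}

lemma gens_mem_op (R : Subalgebra k L) (r : X → Fin s → L) (l : Fin s) (j : ℕ) :
    (fun y => fr F j (r y l)) ∈ Op F R r := subset_spn ⟨l, j, rfl⟩

lemma self_mem_op (R : Subalgebra k L) (r : X → Fin s → L) (l : Fin s) :
    (fun y => r y l) ∈ Op F R r := by
  have := gens_mem_op (F := F) R r l 0
  simp only [fr_zero] at this
  exact this

variable {R R' : Subalgebra k L}

lemma fr_mem_alg {a : L} (ha : a ∈ R) (j : ℕ) : fr F j a ∈ R := by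
  rw [fr_apply]
  exact R.pow_mem ha _

/-- Stability under the Frobenius. -/
lemma fr_spn_le {S : Set (X → L)} {W : AddSubgroup (X → L)}
    (hW : ∀ a ∈ R, ∀ f ∈ W, (fun y => a * f y) ∈ W)
    (h : ∀ g ∈ S, (fun y => fr F 1 (g y)) ∈ W) {f : X → L} (hf : f ∈ spn R S) :
    (fun y => fr F 1 (f y)) ∈ W := by
  induction hf using AddSubgroup.closure_induction with
  | mem f hf =>
    obtain ⟨a, ha, g, hg, rfl⟩ := hf
    have : (fun y => fr F 1 (a * g y)) = fun y => fr F 1 a * fr F 1 (g y) := by
      funext y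
      exact map_mul _ _ _
    rw [this]
    exact hW _ (fr_mem_alg ha 1) _ (h g hg)
  | zero =>
    have : (fun y => fr F 1 ((0 : X → L) y)) = 0 := by
      funext y
      exact map_zero _
    rw [this]
    exact zero_mem _
  | add f g _ _ hf hg =>
    have : (fun y => fr F 1 ((f + g) y)) = (fun y => fr F 1 (f y)) + fun y => fr F 1 (g y) := by
      funext y
      exact map_add _ _ _
    rw [this]
    exact add_mem hf hg
  | neg f _ hf =>
    have : (fun y => fr F 1 ((-f) y)) = -(fun y => fr F 1 (f y)) := by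
      funext y
      exact map_neg _ _
    rw [this]
    exact neg_mem hf

lemma fr1_mem_op {r : X → Fin s → L} {f : X → L} (hf : f ∈ Op F R r) :
    (fun y => fr F 1 (f y)) ∈ Op F R r := by
  refine fr_spn_le (R := R) (fun a ha f hf => smul_mem_spn ha hf) ?_ hf
  rintro _ ⟨l, j, rfl⟩
  have : (fun y => fr F 1 (fr F j (r y l))) = fun y => fr F (j + 1) (r y l) := by
    funext y
    exact (fr_succ F j _).symm
  rw [this]
  exact gens_mem_op _ _ _ _

lemma fr_mem_op {r : X → Fin s → L} {f : X → L} (hf : f ∈ Op F R r) (j : ℕ) :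
    (fun y => fr F j (f y)) ∈ Op F R r := by
  induction j with
  | zero =>
    simp only [fr_zero]
    exact hf
  | succ j ih =>
    have : (fun y => fr F (j + 1) (f y)) = fun y => fr F 1 (fr F j (f y)) := by
      funext y
      rw [fr_succ]
    rw [this]
    exact fr1_mem_op ih

lemma op_mono (hR : R ≤ R') (r : X → Fin s → L) : Op F R r ≤ Op F R' r := spn_mono hR subset_rfl

lemma op_le_op (hR : R ≤ R') {r : X → Fin s → L} {s' : ℕ} {r' : X → Fin s' → L}
    (h : ∀ l, (fun y => r y l) ∈ Op F R' r') : Op F R r ≤ Op F R' r' := by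
  refine spn_le (fun a ha f hf => smul_mem_spn (hR ha) hf) ?_
  rintro _ ⟨l, j, rfl⟩
  exact fr_mem_op (h l) j

lemma op_zero {r : X → Fin s → L} {f : X → L} (hf : f ∈ Op F R r) {x : X} (hx : r x = 0) :
    f x = 0 := by
  have := eval_mem (R := R) (S := gens F r) (⊥ : AddSubgroup L) x ?_ hf
  · exact this
  · rintro a - _ ⟨l, j, rfl⟩
    change a * fr F j (r x l) = 0
    rw [hx, Pi.zero_apply, map_zero, mul_zero]

lemma op_mem {r : X → Fin s → L} {f : X → L} (hf : f ∈ Op F R r) {x : X} (W : Subalgebra k L)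
    (hW : R ≤ W) (hx : ∀ l, r x l ∈ W) : f x ∈ W := by
  refine eval_mem (R := R) (S := gens F r) W x ?_ hf
  rintro a ha _ ⟨l, j, rfl⟩
  exact W.mul_mem (hW ha) (fr_mem_alg (hx l) j)

lemma op_mem' {r : X → Fin s → L} {f : X → L} (hf : f ∈ Op F R r) {x : X}
    (V : ValuationSubring L) (hV : ∀ a ∈ R, a ∈ V) (hx : ∀ l, r x l ∈ V) : f x ∈ V := by
  refine eval_mem (R := R) (S := gens F r) V x ?_ hf
  rintro a ha _ ⟨l, j, rfl⟩
  exact V.mul_mem _ _ (hV a ha) (fr_mem V.toSubring (hx l) j)

lemma op_eval_eq {r : X → Fin s → L} {f : X → L} (hf : f ∈ Op F R r) (σ : L →+* L)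
    (hσ : ∀ a ∈ R, σ a = a) {x x' : X} (h : ∀ l, σ (r x l) = r x' l) : σ (f x) = f x' := by
  refine eval_eq (R := R) (S := gens F r) σ x x' hσ ?_ hf
  rintro _ ⟨l, j, rfl⟩
  change σ (fr F j (r x l)) = fr F j (r x' l)
  rw [fr_apply, fr_apply, map_pow, h]

end op

end Pool.Agent.R837.FM
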