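import Pool.Agent.R837.FM.Chart

/-!
The stages of the construction of the charts.
-/

set_option autoImplicit false
set_option linter.unusedSectionVars false

open Finset

universe u v w z

namespace Pool.Agent.R837.FM

section good

variable {F : Type v} [Field F] [Fintype F] {k : Type z} [Field k] {L : Type u} [Field L]
  [Algebra F L] [Algebra k L] {s : ℕ} {ι : Type} [Fintype ι] [DecidableEq ι]

/-- The vectors `φ ^ j e_l`, `j < d l`, form a basis. -/
structure Good (F : Type v) [Field F] [Fintype F] {L : Type u} [Field L] [Algebra F L] {s : ℕ}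
    {ι : Type} [Fintype ι] (y : ι → Fin s → L) (d : Fin s → ℕ) : Prop where
  card : Fintype.card ι = Fintype.card (Idx d)
  li : LinearIndependent L (fam F y d)

variable {y : ι → Fin s → L} {d : Fin s → ℕ}

/-- The bijection of the index sets. -/
noncomputable def Good.e (h : Good F y d) : ι ≃ Idx d := Fintype.equivOfCardEq h.card

lemma Good.exists_coord (h : Good F y d) (w : ι → L) :
    ∃ a : Idx d → L, ∀ i, w i = ∑ p, a p * fam F y d p i := by
  have h1 : Fintype.card (Idx d) = Module.finrank L (ι → L) := by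
    rw [Module.finrank_fintype_fun_eq_card]
    exact h.card.symm
  have h2 : Submodule.span L (Set.range (fam F y d)) = ⊤ :=
    h.li.span_eq_top_of_card_eq_finrank' h1
  have h3 : w ∈ Submodule.span L (Set.range (fam F y d)) := by
    rw [h2]
    trivial
  obtain ⟨a, ha⟩ := (Submodule.mem_span_range_iff_exists_fun L).1 h3
  refine ⟨a, fun i => ?_⟩
  rw [← ha, Finset.sum_apply]
  rfl

lemma Good.unique (h : Good F y d) {a b : Idx d → L}
    (hab : ∀ i, ∑ p, a p * fam F y d p i = ∑ p, b p * fam F y d p i) : a = b := by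
  have h1 := Fintype.linearIndependent_iff.1 h.li (fun p => a p - b p) (by
    funext i
    rw [Finset.sum_apply]
    have h2 : ∀ p, ((a p - b p) • fam F y d p) i =
        a p * fam F y d p i - b p * fam F y d p i := by
      intro p
      change (a p - b p) * fam F y d p i = _
      ring
    rw [Finset.sum_congr rfl fun p _ => h2 p, Finset.sum_sub_distrib, hab, sub_self]
    rfl)
  funext p
  exact sub_eq_zero.1 (h1 p)

/-- The coordinates of the chart. -/
noncomputable def Good.c (h : Good F y d) (l : Fin s) : Idx d → L :=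
  (h.exists_coord (col F y l (d l))).choose

lemma Good.hc (h : Good F y d) (l : Fin s) (i : ι) :
    col F y l (d l) i = ∑ p, h.c l p * fam F y d p i :=
  (h.exists_coord (col F y l (d l))).choose_spec i

/-- The determinant of the basis. -/
noncomputable def Good.Δ (h : Good F y d) : L := (fm (fam F y d) h.e).det

lemma Good.Δ_ne (h : Good F y d) : h.Δ ≠ 0 := fm_det_ne_zero h.e h.li

/-- The algebra generated over `R` by the coordinates. -/
noncomputable def Good.alg (h : Good F y d) (R : Subalgebra k L) (e : ℕ) : Subalgebra k L :=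
  R ⊔ Algebra.adjoin k (insert (h.Δ ^ e) {a | ∃ l p, a = h.c l p})

variable {R : Subalgebra k L} {e : ℕ}

lemma Good.le_alg (h : Good F y d) : R ≤ h.alg R e := le_sup_left

lemma Good.c_mem (h : Good F y d) (l : Fin s) (p : Idx d) : h.c l p ∈ h.alg R e :=
  (le_sup_right : Algebra.adjoin k _ ≤ h.alg R e)
    (Algebra.subset_adjoin (Set.mem_insert_of_mem _ ⟨l, p, rfl⟩))

lemma Good.Δ_mem (h : Good F y d) : h.Δ ^ e ∈ h.alg R e :=
  (le_sup_right : Algebra.adjoin k _ ≤ h.alg R e)
    (Algebra.subset_adjoin (Set.mem_insert _ _))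

lemma Good.alg_le (h : Good F y d) {Q : Subalgebra k L} (hR : R ≤ Q) (hΔ : h.Δ ^ e ∈ Q)
    (hc : ∀ l p, h.c l p ∈ Q) : h.alg R e ≤ Q := by
  refine sup_le hR (Algebra.adjoin_le_iff.2 ?_)
  rintro a (rfl | ⟨l, p, rfl⟩)
  · exact hΔ
  · exact hc l p

lemma Good.col_mem (h : Good F y d) {Q : Subalgebra k L} (hQ : h.alg R e ≤ Q) (l : Fin s)
    (j : ℕ) : col F y l j ∈ spn Q (Set.range (fam F y d)) :=
  col_mem_spn (fun l p => hQ (h.c_mem l p)) h.hc l j

end good

section rnl

variable {F : Type v} [Field F] [Fintype F] {L : Type u} [Field L]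
  [Algebra F L] {m s : ℕ} {X : Submodule F (Fin m → L)}

/-- The functions `φ ^ d_l r_l - ∑ c_(l, l', j) φ ^ j r_l'`, as a linear map. -/
noncomputable def rnl (r : X →ₗ[F] (Fin s → L)) (d : Fin s → ℕ) (c : Fin s → Idx d → L) :
    X →ₗ[F] (Fin s → L) where
  toFun := rn F r d c
  map_add' := by
    intro y y'
    funext l
    change fr F (d l) (r (y + y') l) - ∑ p, c l p * fr F p.2 (r (y + y') p.1) =
      (fr F (d l) (r y l) - ∑ p, c l p * fr F p.2 (r y p.1)) +
      (fr F (d l) (r y' l) - ∑ p, c l p * fr F p.2 (r y' p.1))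
    have h1 : ∀ p : Idx d, c l p * fr F p.2 (r (y + y') p.1) =
        c l p * fr F p.2 (r y p.1) + c l p * fr F p.2 (r y' p.1) := by
      intro p
      rw [map_add, Pi.add_apply, map_add, mul_add]
    rw [Finset.sum_congr rfl fun p _ => h1 p, Finset.sum_add_distrib, map_add, Pi.add_apply,
      map_add]
    ring
  map_smul' := by
    intro a y
    funext l
    change fr F (d l) (r (a • y) l) - ∑ p, c l p * fr F p.2 (r (a • y) p.1) =
      a • (fr F (d l) (r y l) - ∑ p, c l p * fr F p.2 (r y p.1))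
    have h1 : ∀ p : Idx d, c l p * fr F p.2 (r (a • y) p.1) =
        a • (c l p * fr F p.2 (r y p.1)) := by
      intro p
      rw [map_smul, Pi.smul_apply, map_smul, mul_smul_comm]
    rw [Finset.sum_congr rfl fun p _ => h1 p, ← Finset.smul_sum, map_smul, Pi.smul_apply,
      map_smul, smul_sub]

lemma rnl_apply (r : X →ₗ[F] (Fin s → L)) (d : Fin s → ℕ) (c : Fin s → Idx d → L) (y : X) :
    rnl r d c y = rn F r d c y := rfl

end rnl

section stage

variable {F : Type v} [Field F] [Fintype F] {k : Type z} [Field k] {L : Type u} [Field L]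
  [Algebra F L] [Algebra k L] {m s : ℕ}

/-- The coordinate functions. -/
def co {F : Type v} [Field F] {L : Type u} [Field L] [Algebra F L] {m : ℕ}
    (X : Submodule F (Fin m → L)) (y : X) : Fin m → L := y

/-- The properties of the charts after some steps of the construction. -/
structure Stage (F : Type v) [Field F] [Fintype F] {k : Type z} [Field k] {L : Type u} [Field L]
    [Algebra F L] [Algebra k L] {m s : ℕ} (B : Subalgebra k L) (X Λ : Submodule F (Fin m → L))
    (N : ℕ) {T : Type} (R : T → Subalgebra k L) (H : T → L) (r : T → X →ₗ[F] (Fin s → L)) :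
    Prop where
  H0 : ∀ t, H t ≠ 0
  HB : ∀ t, H t ∈ B
  rt : ∀ t t', H t' / H t ∈ R t
  gl : ∀ t t', R t' ≤ Loc (R t) (H t' / H t)
  dn : ∀ t, R t ≤ Loc B (H t)
  coef : ∀ t l, (fun y => r t y l) ∈ Op F (R t) (co X)
  op : ∀ t t' l, (fun y => r t' y l) ∈ Op F (Loc (R t) (H t' / H t)) (r t)
  ker : ∀ t (y : X), r t y = 0 ↔ (y : Fin m → L) ∈ Λ
  int : ∀ t (V : ValuationSubring L), (∀ a ∈ R t, a ∈ V) → ∀ y : X, (∀ l, r t y l ∈ V) →
    ∀ l, (y : Fin m → L) l ∈ V
  cv : ∀ V : ValuationSubring L, (∀ a ∈ B, a ∈ V) → ∃ t, ∀ a ∈ R t, a ∈ V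
  dim : ∀ t, ∃ (P : Type) (_ : Fintype P) (base : P → X → L), Fintype.card P = N ∧
    Op F (R t) (co X) ≤ spn (R t) (gens F (r t) ∪ Set.range base)

variable {B : Subalgebra k L} {X Λ : Submodule F (Fin m → L)} {N : ℕ} {T : Type}
  {R : T → Subalgebra k L} {H : T → L} {r : T → X →ₗ[F] (Fin s → L)}
  {ι : Type} [Fintype ι] [DecidableEq ι]

/-- The index set of the charts of the next stage. -/
abbrev TT (r : T → X →ₗ[F] (Fin s → L)) (x : ι → X) : Type :=
  {τ : T × (Fin s → Fin (Fintype.card ι + 1)) //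
    Good F (fun i => r τ.1 (x i)) fun l => (τ.2 l : ℕ)}

variable (R H) in
/-- The charts of the next stage. -/
noncomputable def RR (e : ℕ) {x : ι → X} (τ : TT r x) : Subalgebra k L :=
  τ.2.alg (R τ.1.1) e

variable (H) in
/-- The equations of the next stage. -/
noncomputable def HH (M e : ℕ) {x : ι → X} (τ : TT r x) : L := H τ.1.1 ^ M * τ.2.Δ ^ e

/-- The functions of the next stage. -/
noncomputable def rr {x : ι → X} (τ : TT r x) : X →ₗ[F] (Fin s → L) :=
  rnl (r τ.1.1) _ τ.2.c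

lemma rr_x {x : ι → X} (τ : TT r x) (i : ι) : rr τ (x i) = 0 := by
  funext l
  change fr F _ (r τ.1.1 (x i) l) - ∑ p, τ.2.c l p * fr F p.2 (r τ.1.1 (x i) p.1) = 0
  rw [sub_eq_zero]
  exact τ.2.hc l i

variable {x : ι → X}

/-- All columns of another chart are in the span of the basis of a chart. -/
lemma col_mem_of_op {e : ℕ} (τ : TT r x) (t' : T) {Q Q' : Subalgebra k L} (hQ' : Q' ≤ Q)
    (hQ : RR R e τ ≤ Q)
    (hop : ∀ l, (fun y => r t' y l) ∈ Op F Q' (r τ.1.1)) (l : Fin s) (j : ℕ) :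
    col F (fun i => r t' (x i)) l j ∈
      spn Q (Set.range (fam F (fun i => r τ.1.1 (x i)) fun l => (τ.1.2 l : ℕ))) := by
  have h1 := fr_mem_op (hop l) j
  refine spn_comp (R := Q') (S := gens F (r τ.1.1)) x hQ' ?_ h1
  rintro _ ⟨l, j, rfl⟩
  exact τ.2.col_mem hQ l j

/-- The quotients of the determinants. -/
lemma det_div_mem' {e : ℕ} (τ τ' : TT r x) {Q Q' : Subalgebra k L} (hQ' : Q' ≤ Q)
    (hQ : RR R e τ ≤ Q)
    (hop : ∀ l, (fun y => r τ'.1.1 y l) ∈ Op F Q' (r τ.1.1)) :
    τ'.2.Δ / τ.2.Δ ∈ Q :=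
  det_div_mem τ.2.e τ'.2.e (fun p' => col_mem_of_op τ τ'.1.1 hQ' hQ hop p'.1 p'.2) τ.2.Δ_ne

lemma c_mem' {e : ℕ} (τ τ' : TT r x) {Q Q' : Subalgebra k L} (hQ' : Q' ≤ Q)
    (hQ : RR R e τ ≤ Q)
    (hop : ∀ l, (fun y => r τ'.1.1 y l) ∈ Op F Q' (r τ.1.1))
    (hinv : τ.2.Δ / τ'.2.Δ ∈ Q) (l : Fin s) (p : Idx fun l => (τ'.1.2 l : ℕ)) :
    τ'.2.c l p ∈ Q :=
  coord_mem τ.2.e τ'.2.e (fun p' => col_mem_of_op τ τ'.1.1 hQ' hQ hop p'.1 p'.2)
    (col_mem_of_op τ τ'.1.1 hQ' hQ hop l _) (τ'.2.hc l) τ'.2.Δ_ne hinv p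

end stage

end Pool.Agent.R837.FM
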