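import Pool.Agent.R837.FM.Stage

/-!
The step of the construction of the charts.
-/

set_option autoImplicit false
set_option linter.unusedSectionVars false

open Finset

universe u v w z

namespace Pool.Agent.R837.FM

lemma exists_unif {P : Type*} [Finite P] (f : P → ℕ → Prop)
    (hm : ∀ p n m, n ≤ m → f p n → f p m) (h : ∀ p, ∃ n, f p n) : ∃ M, ∀ p, f p M := by
  choose g hg using h
  obtain ⟨M, hM⟩ := (Set.finite_range g).bddAbove
  exact ⟨M, fun p => hm p _ _ (hM ⟨p, rfl⟩) (hg p)⟩

section val

variable {F : Type v} [Field F] [Fintype F] {k : Type z} [Field k] {L : Type u} [Field L]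
  [Algebra F L] [Algebra k L]

/-- A valuation ring as a subalgebra. -/
def valAlg (V : ValuationSubring L) (h : ∀ c : k, algebraMap k L c ∈ V) : Subalgebra k L :=
  { V.toSubring with algebraMap_mem' := h }

lemma mem_valAlg {V : ValuationSubring L} {h : ∀ c : k, algebraMap k L c ∈ V} {a : L} :
    a ∈ valAlg V h ↔ a ∈ V := Iff.rfl

/-- Integrality of the solutions. -/
lemma int_aux {s : ℕ} (V : ValuationSubring L) (d : Fin s → ℕ) (c : Fin s → Idx d → L)
    (hc : ∀ l p, c l p ∈ V) (z : Fin s → L)
    (h : ∀ l, fr F (d l) (z l) - ∑ p, c l p * fr F p.2 (z p.1) ∈ V) (l : Fin s) : z l ∈ V := by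
  classical
  by_contra hl
  let q := Fintype.card F
  have hq : 1 < q := Fintype.one_lt_card
  have hvfr : ∀ (j : ℕ) (x : L), V.valuation (fr F j x) = V.valuation x ^ (q ^ j) := by
    intro j x
    rw [fr_apply, map_pow]
  obtain ⟨l0, -, hl0⟩ := Finset.exists_max_image univ
    (fun l => V.valuation (fr F (d l) (z l))) ⟨l, mem_univ _⟩
  let μ := V.valuation (fr F (d l0) (z l0))
  have hμ : 1 < μ := by
    have h1 : 1 < V.valuation (z l) := by
      rw [← not_le, V.valuation_le_one_iff]
      exact hl
    have h2 : 1 < V.valuation (fr F (d l) (z l)) := by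
      rw [hvfr]
      exact one_lt_pow₀ h1 (pow_ne_zero _ (by omega))
    exact lt_of_lt_of_le h2 (hl0 l (mem_univ _))
  have hμ0 : μ ≠ 0 := (lt_trans zero_lt_one hμ).ne'
  have h3 : V.valuation (∑ p, c l0 p * fr F p.2 (z p.1)) < μ := by
    refine Valuation.map_sum_lt _ hμ0 fun p _ => ?_
    have h4 : V.valuation (c l0 p) ≤ 1 := (V.valuation_le_one_iff _).2 (hc l0 p)
    rw [map_mul]
    refine lt_of_le_of_lt (mul_le_of_le_one_left' h4) ?_
    rcases le_or_gt (V.valuation (z p.1)) 1 with h5 | h5
    · rw [hvfr]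
      exact lt_of_le_of_lt (pow_le_one₀ zero_le h5) hμ
    · refine lt_of_lt_of_le ?_ (hl0 p.1 (mem_univ _))
      rw [hvfr, hvfr]
      exact pow_lt_pow_right₀ h5 (Nat.pow_lt_pow_right hq p.2.2)
  have h4 : V.valuation (fr F (d l0) (z l0) - ∑ p, c l0 p * fr F p.2 (z p.1)) < μ :=
    lt_of_le_of_lt ((V.valuation_le_one_iff _).2 (h l0)) hμ
  have h5 := Valuation.map_add_lt _ h4 h3
  rw [sub_add_cancel] at h5
  exact lt_irrefl _ h5

end val

section step

variable {F : Type v} [Field F] [Fintype F] {k : Type z} [Field k] {L : Type u} [Field L]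
  [Algebra F L] [Algebra k L] {m s : ℕ}
  {B : Subalgebra k L} {X Λ : Submodule F (Fin m → L)} {N : ℕ} {T : Type}
  {R : T → Subalgebra k L} {H : T → L} {r : T → X →ₗ[F] (Fin s → L)}
  {ι : Type} [Fintype ι] [DecidableEq ι] {x : ι → X} {e : ℕ}

lemma mem_of_entries {Q : Subalgebra k L} {P : Type} [Fintype P] {g : P → ι → L} (e : ι ≃ P)
    (h : ∀ p i, g p i ∈ Q) : (fm g e).det ∈ Q := by
  obtain ⟨ρ, hρ, h1⟩ := exists_mul_of_cols (Equiv.refl ι) (g := std ι L) (W := fm g e) (Q := Q)
    fun i' => mem_spn_std fun i => h _ _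
  rw [h1, std_det, one_mul]
  exact hρ

lemma ker_step (hker : ∀ t (y : X), r t y = 0 ↔ (y : Fin m → L) ∈ Λ)
    (hind : ∀ a : ι → F, ((∑ i, a i • x i : X) : Fin m → L) ∈ Λ → a = 0) (τ : TT r x) (y : X) :
    rr τ y = 0 ↔
      (y : Fin m → L) ∈ Λ ⊔ Submodule.span F (Set.range fun i => (x i : Fin m → L)) := by
  classical
  constructor
  · intro hy
    by_contra hcon
    -- the relation
    obtain ⟨a, ha⟩ : ∃ a : ι → L, ∀ p : Idx fun l => (τ.1.2 l : ℕ),
        fr F p.2 (r τ.1.1 y p.1) + ∑ i, a i * fr F p.2 (r τ.1.1 (x i) p.1) = 0 := by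
      let A := fm (fam F (fun i => r τ.1.1 (x i)) fun l => (τ.1.2 l : ℕ)) τ.2.e
      have hA : IsUnit A.det := (fm_det_ne_zero τ.2.e τ.2.li).isUnit
      let w : ι → L := fun i' => -fr F (τ.2.e i').2 (r τ.1.1 y (τ.2.e i').1)
      refine ⟨Matrix.vecMul w A⁻¹, fun p => ?_⟩
      have h1 : Matrix.vecMul (Matrix.vecMul w A⁻¹) A = w := by
        rw [Matrix.vecMul_vecMul, Matrix.nonsing_inv_mul _ hA, Matrix.vecMul_one]
      have h2 := congrFun h1 (τ.2.e.symm p)
      have h3 : w (τ.2.e.symm p) = -fr F p.2 (r τ.1.1 y p.1) := by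
        change -fr F (τ.2.e (τ.2.e.symm p)).2 (r τ.1.1 y (τ.2.e (τ.2.e.symm p)).1) = _
        rw [Equiv.apply_symm_apply]
      have h4 : Matrix.vecMul (Matrix.vecMul w A⁻¹) A (τ.2.e.symm p) =
          ∑ i, (Matrix.vecMul w A⁻¹) i * fr F p.2 (r τ.1.1 (x i) p.1) := by
        rw [Matrix.vecMul, dotProduct]
        refine Finset.sum_congr rfl fun i _ => ?_
        change (Matrix.vecMul w A⁻¹) i *
          (fam F (fun i => r τ.1.1 (x i)) fun l => (τ.1.2 l : ℕ)) (τ.2.e (τ.2.e.symm p)) i = _
        rw [Equiv.apply_symm_apply]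
        rfl
      rw [← h4, h2, h3, add_neg_cancel]
    let y0 : Option ι → Fin s → L := fun o => r τ.1.1 (o.elim y x)
    have hli : LinearIndependent F y0 := by
      rw [Fintype.linearIndependent_iff]
      intro b hb
      have h1 : r τ.1.1 (b none • y + ∑ i, b (some i) • x i) = 0 := by
        rw [map_add, map_smul, map_sum]
        rw [Fintype.sum_option] at hb
        rw [← hb]
        congr 1
        exact Finset.sum_congr rfl fun i _ => by rw [map_smul]; rfl
      have h2 := (hker _ _).1 h1
      have h3 : b none = 0 := by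
        by_contra h0
        apply hcon
        have h4 : (y : Fin m → L) =
            (b none)⁻¹ • ((b none • y + ∑ i, b (some i) • x i : X) : Fin m → L) -
              ∑ i, ((b none)⁻¹ * b (some i)) • (x i : Fin m → L) := by
          rw [Submodule.coe_add, Submodule.coe_smul, smul_add, smul_smul, inv_mul_cancel₀ h0,
            one_smul, add_sub_assoc]
          rw [Submodule.coe_sum, Finset.smul_sum, ← Finset.sum_sub_distrib]
          rw [Finset.sum_eq_zero, add_zero]
          intro i _
          rw [Submodule.coe_smul, smul_smul, sub_self]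
        rw [h4]
        refine Submodule.sub_mem _ (Submodule.mem_sup_left (Submodule.smul_mem _ _ h2))
          (Submodule.mem_sup_right (Submodule.sum_mem _ fun i _ => Submodule.smul_mem _ _
            (Submodule.subset_span ⟨i, rfl⟩)))
      have h5 : (fun i => b (some i)) = 0 := by
        apply hind
        have h6 : b none • y + ∑ i, b (some i) • x i = ∑ i, b (some i) • x i := by
          rw [h3, zero_smul, zero_add]
        rw [h6] at h2
        exact h2
      rintro (_ | i)
      · exact h3
      · exact congrFun h5 i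
    have hmo := moore (F := F) y0 hli (fun o => o.elim 1 a) (by
      intro j l
      rw [Fintype.sum_option]
      change 1 * fr F j (r τ.1.1 y l) + ∑ i, a i * fr F j (r τ.1.1 (x i) l) = 0
      rw [one_mul]
      have h1 := div (F := F) (r := r τ.1.1) (d := fun l => (τ.1.2 l : ℕ)) (c := τ.2.c)
        (Q := (⊤ : Subalgebra F L)) (fun _ _ => trivial) l j
      have h2 : ∀ f ∈ spn (⊤ : Subalgebra F L) (gens F (rn F (r τ.1.1) (fun l => (τ.1.2 l : ℕ))
          τ.2.c) ∪ Set.range (bs F (r τ.1.1) (fun l => (τ.1.2 l : ℕ)))),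
          f y + ∑ i, a i * f (x i) = 0 := by
        intro f hf
        induction hf using AddSubgroup.closure_induction with
        | mem f hf =>
          obtain ⟨u, -, g, hg, rfl⟩ := hf
          have h3 : g y + ∑ i, a i * g (x i) = 0 := by
            rcases hg with ⟨l, j, rfl⟩ | ⟨p, rfl⟩
            · have h4 : rn F (r τ.1.1) (fun l => (τ.1.2 l : ℕ)) τ.2.c y = 0 := hy
              have h5 : ∀ i, rn F (r τ.1.1) (fun l => (τ.1.2 l : ℕ)) τ.2.c (x i) = 0 :=
                fun i => rr_x τ i
              have h6 : ∀ i, a i * fr F j (rn F (r τ.1.1) (fun l => (τ.1.2 l : ℕ)) τ.2.c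
                  (x i) l) = 0 := by
                intro i
                rw [h5, Pi.zero_apply, map_zero, mul_zero]
              change fr F j (rn F (r τ.1.1) (fun l => (τ.1.2 l : ℕ)) τ.2.c y l) +
                ∑ i, a i * fr F j (rn F (r τ.1.1) (fun l => (τ.1.2 l : ℕ)) τ.2.c (x i) l) = 0
              rw [Finset.sum_eq_zero fun i _ => h6 i, h4, Pi.zero_apply, map_zero, add_zero]
            · exact ha p
          change u * g y + ∑ i, a i * (u * g (x i)) = 0
          have h4 : u * g y + ∑ i, a i * (u * g (x i)) = u * (g y + ∑ i, a i * g (x i)) := by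
            rw [mul_add, Finset.mul_sum]
            congr 1
            exact Finset.sum_congr rfl fun i _ => by ring
          rw [h4, h3, mul_zero]
        | zero => simp
        | add f g _ _ hf hg =>
          have h4 : (f + g) y + ∑ i, a i * (f + g) (x i) =
              (f y + ∑ i, a i * f (x i)) + (g y + ∑ i, a i * g (x i)) := by
            simp only [Pi.add_apply, mul_add, Finset.sum_add_distrib]
            ring
          rw [h4, hf, hg, add_zero]
        | neg f _ hf =>
          have h4 : (-f) y + ∑ i, a i * (-f) (x i) = -(f y + ∑ i, a i * f (x i)) := by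
            simp only [Pi.neg_apply, mul_neg, Finset.sum_neg_distrib]
            ring
          rw [h4, hf, neg_zero]
      exact h2 _ h1)
    have h7 := congrFun hmo none
    exact one_ne_zero h7
  · intro hy
    obtain ⟨w0, hw0, w, hw, h1⟩ := Submodule.mem_sup.1 hy
    obtain ⟨b, hb⟩ := (Submodule.mem_span_range_iff_exists_fun F).1 hw
    have h2 : ((y - ∑ i, b i • x i : X) : Fin m → L) ∈ Λ := by
      have h3 : ((y - ∑ i, b i • x i : X) : Fin m → L) = w0 := by
        rw [Submodule.coe_sub, Submodule.coe_sum, ← h1, ← hb]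
        simp
      rw [h3]
      exact hw0
    have h3 := (hker τ.1.1 _).2 h2
    have h4 : rr τ (y - ∑ i, b i • x i) = 0 := by
      funext l
      change fr F _ (r τ.1.1 (y - ∑ i, b i • x i) l) -
        ∑ p, τ.2.c l p * fr F p.2 (r τ.1.1 (y - ∑ i, b i • x i) p.1) = 0
      rw [h3]
      simp
    have h5 : y = (y - ∑ i, b i • x i) + ∑ i, b i • x i := by abel
    rw [h5, map_add, h4, zero_add, map_sum]
    refine Finset.sum_eq_zero fun i _ => ?_
    rw [map_smul, rr_x, smul_zero]

end step

end Pool.Agent.R837.FM
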