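import Pool.Agent.R837.FM.Step

/-!
The step of the construction of the charts: the main theorem.
-/

set_option autoImplicit false
set_option linter.unusedSectionVars false

open Finset

universe u v w z

namespace Pool.Agent.R837.FM

section step

variable {F : Type v} [Field F] [Fintype F] {k : Type z} [Field k] {L : Type u} [Field L]
  [Algebra F L] [Algebra k L] {m s : ℕ}
  {B : Subalgebra k L} {X Λ : Submodule F (Fin m → L)} {N : ℕ} {T : Type}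
  {R : T → Subalgebra k L} {H : T → L} {r : T → X →ₗ[F] (Fin s → L)}
  {ι : Type} [Fintype ι] [DecidableEq ι] {x : ι → X} {e : ℕ}

lemma exists_exp [Finite T] (S : Stage F B X Λ N R H r) (x : ι → X)
    (hxB : ∀ i l, (x i : Fin m → L) l ∈ B) (e : ℕ) :
    ∃ M, (∀ τ τ' : TT r x, (H τ'.1.1 / H τ.1.1) ^ M * (τ'.2.Δ / τ.2.Δ) ∈ RR R e τ) ∧
      ∀ τ : TT r x, H τ.1.1 ^ M * τ.2.Δ ∈ B := by
  obtain ⟨M1, h1⟩ := exists_unif
    (fun (p : TT r x × TT r x) n =>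
      (H p.2.1.1 / H p.1.1.1) ^ n * (p.2.2.Δ / p.1.2.Δ) ∈ RR R e p.1)
    (by
      rintro ⟨τ, τ'⟩ n n' hn h
      obtain ⟨a, rfl⟩ := Nat.exists_eq_add_of_le hn
      have h2 : (H τ'.1.1 / H τ.1.1) ^ (n + a) * (τ'.2.Δ / τ.2.Δ) =
          (H τ'.1.1 / H τ.1.1) ^ a * ((H τ'.1.1 / H τ.1.1) ^ n * (τ'.2.Δ / τ.2.Δ)) := by ring
      change (H τ'.1.1 / H τ.1.1) ^ (n + a) * (τ'.2.Δ / τ.2.Δ) ∈ RR R e τ
      rw [h2]
      exact Subalgebra.mul_mem _ (Subalgebra.pow_mem _ (τ.2.le_alg (S.rt _ _)) _) h)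
    (by
      rintro ⟨τ, τ'⟩
      refine exists_pow_mul (τ.2.le_alg (S.rt _ _)) (div_ne_zero (S.H0 _) (S.H0 _)) ?_
      exact det_div_mem' (R := R) (e := e) τ τ' (loc_mono τ.2.le_alg _) (le_loc _ _)
        (fun l => S.op τ.1.1 τ'.1.1 l))
  obtain ⟨M2, h2⟩ := exists_unif (fun (τ : TT r x) n => H τ.1.1 ^ n * τ.2.Δ ∈ B)
    (by
      intro τ n n' hn h
      obtain ⟨a, rfl⟩ := Nat.exists_eq_add_of_le hn
      have h2 : H τ.1.1 ^ (n + a) * τ.2.Δ = H τ.1.1 ^ a * (H τ.1.1 ^ n * τ.2.Δ) := by ring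
      change H τ.1.1 ^ (n + a) * τ.2.Δ ∈ B
      rw [h2]
      exact Subalgebra.mul_mem _ (Subalgebra.pow_mem _ (S.HB _) _) h)
    (by
      intro τ
      refine exists_pow_mul (S.HB _) (S.H0 _) ?_
      refine mem_of_entries _ fun p i => fr_mem_alg ?_ _
      exact op_mem (S.coef τ.1.1 p.1) (Loc B (H τ.1.1)) (S.dn _)
        fun l => le_loc _ _ (hxB i l))
  refine ⟨max M1 M2, fun τ τ' => ?_, fun τ => ?_⟩
  · obtain ⟨a, ha⟩ := Nat.exists_eq_add_of_le (le_max_left M1 M2)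
    rw [ha]
    have h3 : (H τ'.1.1 / H τ.1.1) ^ (M1 + a) * (τ'.2.Δ / τ.2.Δ) =
          (H τ'.1.1 / H τ.1.1) ^ a * ((H τ'.1.1 / H τ.1.1) ^ M1 * (τ'.2.Δ / τ.2.Δ)) := by ring
    rw [h3]
    exact Subalgebra.mul_mem _ (Subalgebra.pow_mem _ (τ.2.le_alg (S.rt _ _)) _) (h1 (τ, τ'))
  · obtain ⟨a, ha⟩ := Nat.exists_eq_add_of_le (le_max_right M1 M2)
    rw [ha]
    have h3 : H τ.1.1 ^ (M2 + a) * τ.2.Δ = H τ.1.1 ^ a * (H τ.1.1 ^ M2 * τ.2.Δ) := by ring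
    rw [h3]
    exact Subalgebra.mul_mem _ (Subalgebra.pow_mem _ (S.HB _) _) (h2 τ)

lemma rr_mem_op {Q : Subalgebra k L} (τ : TT r x) {s' : ℕ} {f : X → Fin s' → L}
    (h1 : ∀ l, (fun y => r τ.1.1 y l) ∈ Op F Q f) (h2 : ∀ l p, τ.2.c l p ∈ Q) (l : Fin s) :
    (fun y => rr τ y l) ∈ Op F Q f := by
  have h3 : (fun y => rr τ y l) = (fun y => fr F (τ.1.2 l : ℕ) (r τ.1.1 y l)) -
      fun y => ∑ p, τ.2.c l p * fr F p.2 (r τ.1.1 y p.1) := by
    funext y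
    rfl
  rw [h3]
  exact sub_mem (fr_mem_op (h1 l) _) (sum_mem_spn _ _ _ (fun p _ => h2 l p)
    fun p _ => fr_mem_op (h1 p.1) _)

lemma cv_step (S : Stage F B X Λ N R H r) (hxB : ∀ i l, (x i : Fin m → L) l ∈ B)
    (hind : ∀ a : ι → F, ((∑ i, a i • x i : X) : Fin m → L) ∈ Λ → a = 0) (e : ℕ)
    (V : ValuationSubring L) (hV : ∀ a ∈ B, a ∈ V) : ∃ τ : TT r x, ∀ a ∈ RR R e τ, a ∈ V := by
  obtain ⟨t, ht⟩ := S.cv V hV
  let y : ι → Fin s → L := fun i => r t (x i)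
  have hy : ∀ i l, y i l ∈ V := fun i l => op_mem' (S.coef t l) V ht fun l => hV _ (hxB i l)
  have hli : LinearIndependent F y := by
    rw [Fintype.linearIndependent_iff]
    intro b hb
    have h1 : r t (∑ i, b i • x i) = 0 := by
      rw [map_sum, ← hb]
      exact Finset.sum_congr rfl fun i _ => by rw [map_smul]
    have h2 := hind b ((S.ker _ _).1 h1)
    intro i
    rw [h2]
    rfl
  obtain ⟨d, hd, hcard, hlid, hcol⟩ := exists_basis (F := F) (V := V) hli hy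
  let τ : TT r x := ⟨(t, fun l => ⟨d l, Nat.lt_succ_of_le (hd l)⟩), ⟨hcard.symm, hlid⟩⟩
  refine ⟨τ, ?_⟩
  have hk : ∀ c : k, algebraMap k L c ∈ V := fun c => hV _ (B.algebraMap_mem c)
  have h1 : RR R e τ ≤ valAlg V hk := by
    refine τ.2.alg_le (fun a ha => ht a ha) ?_ ?_
    · refine Subalgebra.pow_mem _ ?_ _
      exact mem_of_entries _ fun p i => fr_mem_alg (R := valAlg V hk) (hy i p.1) _
    · intro l p
      obtain ⟨a, ha⟩ := (Submodule.mem_span_range_iff_exists_fun V).1 (hcol l (d l))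
      have h2 : τ.2.c l = fun p => (a p : L) := by
        apply τ.2.unique
        intro i
        rw [← τ.2.hc l i]
        change col F y l (d l) i = _
        rw [← ha, Finset.sum_apply]
        rfl
      rw [h2]
      exact (a p).2
  exact fun a ha => h1 ha

/-- The step of the construction. -/
theorem Stage.step [Finite T] (S : Stage F B X Λ N R H r) (x : ι → X)
    (hxB : ∀ i l, (x i : Fin m → L) l ∈ B)
    (hind : ∀ a : ι → F, ((∑ i, a i • x i : X) : Fin m → L) ∈ Λ → a = 0) (e : ℕ) (he : 0 < e) :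
    ∃ M, Stage F B X (Λ ⊔ Submodule.span F (Set.range fun i => (x i : Fin m → L)))
      (N + Fintype.card ι) (fun τ : TT r x => RR R e τ) (fun τ : TT r x => HH H M e τ)
      (fun τ : TT r x => rr τ) := by
  obtain ⟨M0, hM1, hM2⟩ := exists_exp S x hxB e
  have hHH : ∀ τ : TT r x, HH H (e * M0 + 1) e τ = H τ.1.1 * (H τ.1.1 ^ M0 * τ.2.Δ) ^ e := by
    intro τ
    change H τ.1.1 ^ (e * M0 + 1) * τ.2.Δ ^ e = _
    rw [mul_pow, ← pow_mul, pow_succ, mul_comm M0 e]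
    ring
  have hdiv : ∀ τ τ' : TT r x, HH H (e * M0 + 1) e τ' / HH H (e * M0 + 1) e τ =
      H τ'.1.1 / H τ.1.1 * ((H τ'.1.1 / H τ.1.1) ^ M0 * (τ'.2.Δ / τ.2.Δ)) ^ e := by
    intro τ τ'
    rw [hHH, hHH, mul_div_mul_comm, ← div_pow, mul_div_mul_comm, ← div_pow]
  have hH0 : ∀ τ : TT r x, HH H (e * M0 + 1) e τ ≠ 0 := fun τ =>
    mul_ne_zero (pow_ne_zero _ (S.H0 _)) (pow_ne_zero _ τ.2.Δ_ne)
  have hloc : ∀ τ τ' : TT r x, Loc (RR R e τ) (H τ'.1.1 / H τ.1.1) ≤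
      Loc (RR R e τ) (HH H (e * M0 + 1) e τ' / HH H (e * M0 + 1) e τ) := by
    intro τ τ'
    rw [hdiv]
    exact loc_le_of_mul (Subalgebra.pow_mem _ (hM1 τ τ') _) (pow_ne_zero _
      (mul_ne_zero (pow_ne_zero _ (div_ne_zero (S.H0 _) (S.H0 _)))
        (div_ne_zero τ'.2.Δ_ne τ.2.Δ_ne)))
  have hinv : ∀ τ τ' : TT r x, τ.2.Δ / τ'.2.Δ ∈
      Loc (RR R e τ) (HH H (e * M0 + 1) e τ' / HH H (e * M0 + 1) e τ) := by
    intro τ τ'
    have h1 : τ.2.Δ / τ'.2.Δ = (τ'.2.Δ / τ.2.Δ) ^ (e - 1) *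
        ((H τ'.1.1 / H τ.1.1) ^ (e * M0 + 1) *
        (HH H (e * M0 + 1) e τ' / HH H (e * M0 + 1) e τ)⁻¹) := by
      have h2 : HH H (e * M0 + 1) e τ' / HH H (e * M0 + 1) e τ =
          (H τ'.1.1 / H τ.1.1) ^ (e * M0 + 1) * (τ'.2.Δ / τ.2.Δ) ^ e := by
        change H τ'.1.1 ^ (e * M0 + 1) * τ'.2.Δ ^ e / (H τ.1.1 ^ (e * M0 + 1) * τ.2.Δ ^ e) = _
        rw [mul_div_mul_comm, ← div_pow, ← div_pow]
      have h3 : H τ'.1.1 / H τ.1.1 ≠ 0 := div_ne_zero (S.H0 _) (S.H0 _)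
      have h4 : τ'.2.Δ / τ.2.Δ ≠ 0 := div_ne_zero τ'.2.Δ_ne τ.2.Δ_ne
      have h5 : τ.2.Δ / τ'.2.Δ = (τ'.2.Δ / τ.2.Δ)⁻¹ := by rw [inv_div]
      rw [h2, h5]
      generalize H τ'.1.1 / H τ.1.1 = α at h3
      generalize τ'.2.Δ / τ.2.Δ = δ at h4
      obtain ⟨e', rfl⟩ : ∃ e', e = e' + 1 := ⟨e - 1, by omega⟩
      rw [Nat.add_sub_cancel]
      field_simp
      ring
    rw [h1]
    refine Subalgebra.mul_mem _ (Subalgebra.pow_mem _ ?_ _) (Subalgebra.mul_mem _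
      (Subalgebra.pow_mem _ (le_loc _ _ (τ.2.le_alg (S.rt _ _))) _) (inv_mem_loc _ _))
    exact hloc τ τ' (det_div_mem' (R := R) (e := e) τ τ' (loc_mono τ.2.le_alg _) (le_loc _ _)
      (fun l => S.op τ.1.1 τ'.1.1 l))
  have hle : ∀ τ τ' : TT r x, Loc (R τ.1.1) (H τ'.1.1 / H τ.1.1) ≤
      Loc (RR R e τ) (HH H (e * M0 + 1) e τ' / HH H (e * M0 + 1) e τ) :=
    fun τ τ' => (loc_mono τ.2.le_alg _).trans (hloc τ τ')
  have hc : ∀ (τ τ' : TT r x) l p, τ'.2.c l p ∈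
      Loc (RR R e τ) (HH H (e * M0 + 1) e τ' / HH H (e * M0 + 1) e τ) := fun τ τ' l p =>
    c_mem' (R := R) (e := e) τ τ' (hle τ τ') (le_loc _ _) (fun l => S.op τ.1.1 τ'.1.1 l)
      (hinv τ τ') l p
  -- the map to `B`
  have hlocB : ∀ τ : TT r x, Loc B (H τ.1.1) ≤ Loc B (HH H (e * M0 + 1) e τ) := by
    intro τ
    rw [hHH]
    exact loc_le_of_mul (Subalgebra.pow_mem _ (hM2 τ) _) (pow_ne_zero _
      (mul_ne_zero (pow_ne_zero _ (S.H0 _)) τ.2.Δ_ne))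
  have hentB : ∀ (τ : TT r x) (j : ℕ) l i, fr F j (r τ.1.1 (x i) l) ∈ Loc B (H τ.1.1) := by
    intro τ j l i
    exact fr_mem_alg (op_mem (S.coef τ.1.1 l) (Loc B (H τ.1.1)) (S.dn _)
        fun l => le_loc _ _ (hxB i l)) _
  have hinvB : ∀ τ : TT r x, 1 / τ.2.Δ ∈ Loc B (HH H (e * M0 + 1) e τ) := by
    intro τ
    have h1 : 1 / τ.2.Δ = τ.2.Δ ^ (e - 1) *
        (H τ.1.1 ^ (e * M0 + 1) * (HH H (e * M0 + 1) e τ)⁻¹) := by
      change _ = _ * (H τ.1.1 ^ (e * M0 + 1) * (H τ.1.1 ^ (e * M0 + 1) * τ.2.Δ ^ e)⁻¹)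
      have h3 : H τ.1.1 ≠ 0 := S.H0 _
      have h4 : τ.2.Δ ≠ 0 := τ.2.Δ_ne
      obtain ⟨e', rfl⟩ : ∃ e', e = e' + 1 := ⟨e - 1, by omega⟩
      rw [Nat.add_sub_cancel]
      generalize H τ.1.1 = α at h3
      generalize τ.2.Δ = δ at h4
      field_simp
      ring
    rw [h1]
    refine Subalgebra.mul_mem _ (Subalgebra.pow_mem _ (hlocB τ ?_) _) (Subalgebra.mul_mem _
      (Subalgebra.pow_mem _ (le_loc _ _ (S.HB _)) _) (inv_mem_loc _ _))
    exact mem_of_entries _ fun p i => hentB τ _ _ _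
  refine ⟨e * M0 + 1, ?_⟩
  refine
    { H0 := hH0
      HB := ?_
      rt := ?_
      gl := ?_
      dn := ?_
      coef := ?_
      op := ?_
      ker := fun τ y => ker_step S.ker hind τ y
      int := ?_
      cv := fun V hV => cv_step S hxB hind e V hV
      dim := ?_ }
  · intro τ
    rw [hHH]
    exact B.mul_mem (S.HB _) (B.pow_mem (hM2 τ) _)
  · intro τ τ'
    rw [hdiv]
    exact Subalgebra.mul_mem _ (τ.2.le_alg (S.rt _ _)) (Subalgebra.pow_mem _ (hM1 τ τ') _)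
  · intro τ τ'
    refine τ'.2.alg_le ((S.gl τ.1.1 τ'.1.1).trans (hle τ τ')) ?_ (hc τ τ')
    have h1 : τ'.2.Δ ^ e = (τ'.2.Δ / τ.2.Δ) ^ e * τ.2.Δ ^ e := by
      rw [← mul_pow, div_mul_cancel₀ _ τ.2.Δ_ne]
    rw [h1]
    refine Subalgebra.mul_mem _ (Subalgebra.pow_mem _ ?_ _) (le_loc _ _ τ.2.Δ_mem)
    exact hloc τ τ' (det_div_mem' (R := R) (e := e) τ τ' (loc_mono τ.2.le_alg _) (le_loc _ _)
      (fun l => S.op τ.1.1 τ'.1.1 l))
  · intro τ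
    refine τ.2.alg_le ((S.dn _).trans (hlocB τ)) ?_ fun l p => ?_
    · exact Subalgebra.pow_mem _ (hlocB τ (mem_of_entries _ fun p i => hentB τ _ _ _)) _
    · refine coord_mem (Equiv.refl ι) τ.2.e (g := std ι L) (fun p' => ?_) ?_ (τ.2.hc l)
        τ.2.Δ_ne ?_ p
      · exact mem_spn_std fun i => hlocB τ (hentB τ _ _ _)
      · exact mem_spn_std fun i => hlocB τ (hentB τ _ _ _)
      · rw [std_det]
        exact hinvB τ
  · intro τ l
    exact rr_mem_op τ (fun l => op_mono τ.2.le_alg _ (S.coef _ l)) (fun l p => τ.2.c_mem l p) l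
  · intro τ τ' l
    have h1 : (fun y => rr τ' y l) ∈ Op F
        (Loc (RR R e τ) (HH H (e * M0 + 1) e τ' / HH H (e * M0 + 1) e τ)) (r τ.1.1) :=
      rr_mem_op τ' (fun l => op_mono (hle τ τ') _ (S.op _ _ l)) (hc τ τ') l
    refine div_zero (fun l p => le_loc _ _ (τ.2.c_mem l p)) τ.2.li (fun i => rr_x τ i) h1 ?_
    intro i
    rw [rr_x]
    rfl
  · intro τ V hV y hy l
    refine S.int τ.1.1 V (fun a ha => hV a (τ.2.le_alg ha)) y ?_ l
    exact int_aux (F := F) V _ τ.2.c (fun l p => hV _ (τ.2.c_mem l p)) _ hy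
  · intro τ
    obtain ⟨P, hP, base, hcard, h⟩ := S.dim τ.1.1
    refine ⟨P ⊕ Idx fun l => (τ.1.2 l : ℕ), inferInstance,
      Sum.elim base (bs F (r τ.1.1) fun l => (τ.1.2 l : ℕ)), ?_, ?_⟩
    · rw [Fintype.card_sum, hcard]
      exact congrArg (N + ·) τ.2.card.symm
    · have h1 : Op F (RR R e τ) (co X) ≤
          spn (RR R e τ) (gens F (r τ.1.1) ∪ Set.range base) := by
        refine spn_le_spn le_rfl fun g hg => ?_
        exact spn_mono τ.2.le_alg subset_rfl (h (subset_spn hg))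
      refine h1.trans (spn_le_spn le_rfl ?_)
      rintro g (⟨l, j, rfl⟩ | ⟨p, rfl⟩)
      · have h2 := div (F := F) (r := r τ.1.1) (d := fun l => (τ.1.2 l : ℕ)) (c := τ.2.c)
          (Q := RR R e τ) (fun l p => τ.2.c_mem l p) l j
        refine spn_mono le_rfl ?_ h2
        rintro g (hg | ⟨p, rfl⟩)
        · exact Or.inl hg
        · exact Or.inr ⟨Sum.inr p, rfl⟩
      · exact subset_spn (Or.inr ⟨Sum.inl p, rfl⟩)

end step

end Pool.Agent.R837.FM
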